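import Pool.Agent.W391.BGR.Stm

/-!
Project BGR, part PRES.
-/

set_option autoImplicit false

namespace Pool.Agent.W284.BGRPRES

open Pool.Agent.W391.BGR

/-- words connected by rules -/
def E (u v : Wd) : Prop := Relation.ReflTransGen (fun a b => St RR a b ∨ St RR b a) u v

theorem E_symm {u v : Wd} (h : E u v) : E v u := by
  induction h with
  | refl => exact Relation.ReflTransGen.refl
  | tail _ hs ih => exact Relation.ReflTransGen.head hs.symm ih

theorem St_ctx {u v : Wd} (x y : Wd) (h : St RR u v) : St RR (x ++ u ++ y) (x ++ v ++ y) := by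
  obtain ⟨a, b, p, hp, rfl, rfl⟩ := h
  exact ⟨x ++ a, b ++ y, p, hp, by simp, by simp⟩

theorem E_ctx {u v : Wd} (x y : Wd) (h : E u v) : E (x ++ u ++ y) (x ++ v ++ y) := by
  induction h with
  | refl => exact Relation.ReflTransGen.refl
  | tail _ hs ih =>
    refine Relation.ReflTransGen.tail ih ?_
    rcases hs with hs | hs
    · exact Or.inl (St_ctx x y hs)
    · exact Or.inr (St_ctx x y hs)

/-- the congruence -/
def con : Con (FreeMonoid (Fin 8)) where
  r u v := E u.toList v.toList
  iseqv := ⟨fun _ => Relation.ReflTransGen.refl, fun h => E_symm h,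
    fun h1 h2 => Relation.ReflTransGen.trans h1 h2⟩
  mul' := by
    intro w x y z h1 h2
    have e1 := E_ctx [] y.toList h1
    have e2 := E_ctx x.toList [] h2
    simp only [List.nil_append, List.append_nil] at e1 e2
    exact Relation.ReflTransGen.trans e1 e2

/-- class of a word -/
def cls (w : Wd) : con.Quotient := ((FreeMonoid.ofList w : FreeMonoid (Fin 8)) : con.Quotient)

theorem cls_append (u v : Wd) : cls (u ++ v) = cls u * cls v := rfl

theorem cls_nil : cls [] = 1 := rfl

theorem cls_rule {u v : Wd} (h : (u, v) ∈ RR) : cls u = cls v := by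
  refine (Con.eq con).2 ?_
  exact Relation.ReflTransGen.single (Or.inl ⟨[], [], (u, v), h, by simp, by simp⟩)

theorem E_of_cls {u v : Wd} (h : cls u = cls v) : E u v := (Con.eq con).1 h

/-- class of a letter -/
def c (i : Fin 8) : con.Quotient := cls [i]

theorem cls_cons (i : Fin 8) (w : Wd) : cls (i :: w) = c i * cls w := rfl

theorem cls_eq (w : Wd) : cls w = (w.map c).prod := by
  induction w with
  | nil => rfl
  | cons i w ih => rw [cls_cons, ih, List.map_cons, List.prod_cons]

theorem r1 {i j : Fin 8} (h : (([i, j], []) : Wd × Wd) ∈ RR) : c i * c j = 1 := cls_rule h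

theorem r2 {i j k l : Fin 8} (h : (([i, j], [k, l]) : Wd × Wd) ∈ RR) :
    c i * c j = c k * c l := cls_rule h

theorem r3 {i j k l m : Fin 8} (h : (([i, j], [k, l, m]) : Wd × Wd) ∈ RR) :
    c i * c j = c k * (c l * c m) := cls_rule h

/-- the unit of `a` -/
def uA : con.Quotientˣ := ⟨c 0, c 1, r1 (by decide), r1 (by decide)⟩

/-- the unit of `t` -/
def uT : con.Quotientˣ := ⟨c 6, c 7, r1 (by decide), r1 (by decide)⟩

theorem h706 : c 7 * c 0 * c 6 = c 2 := by
  rw [r2 (i := 7) (j := 0) (k := 2) (l := 7) (by decide), mul_assoc,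
    r1 (i := 7) (j := 6) (by decide), mul_one]

theorem h716 : c 7 * c 1 * c 6 = c 3 := by
  rw [r2 (i := 7) (j := 1) (k := 3) (l := 7) (by decide), mul_assoc,
    r1 (i := 7) (j := 6) (by decide), mul_one]

theorem h607 : c 6 * c 0 * c 7 = c 4 := by
  rw [r2 (i := 6) (j := 0) (k := 4) (l := 6) (by decide), mul_assoc,
    r1 (i := 6) (j := 7) (by decide), mul_one]

theorem h617 : c 6 * c 1 * c 7 = c 5 := by
  rw [r2 (i := 6) (j := 1) (k := 5) (l := 6) (by decide), mul_assoc,
    r1 (i := 6) (j := 7) (by decide), mul_one]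

theorem h302 : c 3 * c 0 * c 2 = c 0 * c 0 := by
  rw [r3 (i := 3) (j := 0) (k := 0) (l := 0) (m := 3) (by decide), mul_assoc, mul_assoc,
    r1 (i := 3) (j := 2) (by decide), mul_one]

theorem uT_inv_val : ((uT⁻¹ : con.Quotientˣ) : con.Quotient) = c 7 := rfl

theorem uA_inv_val : ((uA⁻¹ : con.Quotientˣ) : con.Quotient) = c 1 := rfl

theorem lift_rel : FreeGroup.lift (![uA, uT] : Fin 2 → con.Quotientˣ) rel = 1 := by
  have h : (uT⁻¹ * uA⁻¹ * uT) * uA * (uT⁻¹ * uA * uT) = uA ^ 2 := by
    apply Units.ext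
    show (c 7 * c 1 * c 6) * c 0 * (c 7 * c 0 * c 6) = (uA ^ 2 : con.Quotientˣ).val
    rw [h716, h706, h302, sq]
    rfl
  have h2 : FreeGroup.lift (![uA, uT] : Fin 2 → con.Quotientˣ) rel =
      (uT⁻¹ * uA⁻¹ * uT) * uA * (uT⁻¹ * uA * uT) * (uA ^ 2)⁻¹ := by
    simp [rel]
  rw [h2, h, mul_inv_cancel]

/-- the homomorphism -/
def psi : BG →* con.Quotientˣ :=
  PresentedGroup.toGroup (rels := ({rel} : Set (FreeGroup (Fin 2))))
    (f := (![uA, uT] : Fin 2 → con.Quotientˣ)) (by
      intro r hr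
      rw [Set.mem_singleton_iff.1 hr]
      exact lift_rel)

theorem psi_ga : psi ga = uA := by
  unfold psi ga
  rw [PresentedGroup.toGroup.of]
  rfl

theorem psi_gt : psi gt = uT := by
  unfold psi gt
  rw [PresentedGroup.toGroup.of]
  rfl

theorem psi_phi (i : Fin 8) : ((psi (phi i) : con.Quotientˣ) : con.Quotient) = c i := by
  fin_cases i
  · show ((psi ga : con.Quotientˣ) : con.Quotient) = c 0
    rw [psi_ga]; rfl
  · show ((psi ga⁻¹ : con.Quotientˣ) : con.Quotient) = c 1
    rw [map_inv, psi_ga]; rfl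
  · show ((psi (gt⁻¹ * ga * gt) : con.Quotientˣ) : con.Quotient) = c 2
    rw [map_mul, map_mul, map_inv, psi_ga, psi_gt]; exact h706
  · show ((psi (gt⁻¹ * ga⁻¹ * gt) : con.Quotientˣ) : con.Quotient) = c 3
    rw [map_mul, map_mul, map_inv, map_inv, psi_ga, psi_gt]; exact h716
  · show ((psi (gt * ga * gt⁻¹) : con.Quotientˣ) : con.Quotient) = c 4
    rw [map_mul, map_mul, map_inv, psi_ga, psi_gt]; exact h607
  · show ((psi (gt * ga⁻¹ * gt⁻¹) : con.Quotientˣ) : con.Quotient) = c 5
    rw [map_mul, map_mul, map_inv, map_inv, psi_ga, psi_gt]; exact h617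
  · show ((psi gt : con.Quotientˣ) : con.Quotient) = c 6
    rw [psi_gt]; rfl
  · show ((psi gt⁻¹ : con.Quotientˣ) : con.Quotient) = c 7
    rw [map_inv, psi_gt]; rfl

theorem psi_prod (u : Wd) : ((psi (u.map phi).prod : con.Quotientˣ) : con.Quotient) = cls u := by
  induction u with
  | nil =>
    rw [List.map_nil, List.prod_nil, map_one]
    rfl
  | cons i w ih =>
    rw [List.map_cons, List.prod_cons, map_mul, Units.val_mul, ih, psi_phi, cls_cons]

theorem main : PRES := by
  intro u v h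
  apply E_of_cls
  rw [← psi_prod, ← psi_prod, h]

end Pool.Agent.W284.BGRPRES
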