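import Pool.Agent.W284.Layer

set_option autoImplicit false

/-! Colouring with `O(√n)` colours. -/

namespace Pool.Agent.W284.PW

open Finset Pool.Agent.Helper64.Gow
open Pool.Agent.Helper64
open scoped Classical

def Col (V : Finset Pt) (m : ℕ) : Prop :=
  ∃ c : Pt → ℕ, (∀ v ∈ V, c v < m) ∧
    ∀ a ∈ V, ∀ b ∈ V, ∀ d ∈ V, a ≠ b → a ≠ d → b ≠ d → c a = c b → c a = c d → ¬ col a b d

lemma Col.mono {V : Finset Pt} {m m' : ℕ} (h : Col V m) (hm : m ≤ m') : Col V m' := by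
  obtain ⟨c, h1, h2⟩ := h
  exact ⟨c, fun v hv => (h1 v hv).trans_le hm, h2⟩

lemma Col_card (V : Finset Pt) : Col V V.card := by
  refine ⟨fun v => if h : v ∈ V then ((V.equivFin ⟨v, h⟩ : Fin V.card) : ℕ) else 0, ?_, ?_⟩
  · intro v hv
    simp only
    rw [dif_pos hv]
    exact (V.equivFin ⟨v, hv⟩).2
  · intro a ha b hb d _ hab _ _ h1 _
    simp only at h1
    rw [dif_pos ha, dif_pos hb] at h1
    have h2 : V.equivFin ⟨a, ha⟩ = V.equivFin ⟨b, hb⟩ := Fin.ext h1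
    have h3 := V.equivFin.injective h2
    exact absurd (congrArg Subtype.val h3) hab

lemma Col_step {U S : Finset Pt} (hS : GP S) {m : ℕ} (h : Col (U \ S) m) : Col U (m + 1) := by
  obtain ⟨c, h1, h2⟩ := h
  refine ⟨fun v => if v ∈ S then m else c v, ?_, ?_⟩
  · intro v hv
    simp only
    split_ifs with h
    · omega
    · have := h1 v (mem_sdiff.2 ⟨hv, h⟩)
      omega
  · intro a ha b hb d hd hab had hbd e1 e2
    simp only at e1 e2
    by_cases haS : a ∈ S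
    · rw [if_pos haS] at e1 e2
      have hbS : b ∈ S := by
        by_contra hcon
        rw [if_neg hcon] at e1
        have := h1 b (mem_sdiff.2 ⟨hb, hcon⟩)
        omega
      have hdS : d ∈ S := by
        by_contra hcon
        rw [if_neg hcon] at e2
        have := h1 d (mem_sdiff.2 ⟨hd, hcon⟩)
        omega
      exact hS a haS b hbS d hdS hab had hbd
    · rw [if_neg haS] at e1 e2
      have hac := h1 a (mem_sdiff.2 ⟨ha, haS⟩)
      have hbS : b ∉ S := by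
        intro hcon
        rw [if_pos hcon] at e1
        omega
      have hdS : d ∉ S := by
        intro hcon
        rw [if_pos hcon] at e2
        omega
      rw [if_neg hbS] at e1
      rw [if_neg hdS] at e2
      exact h2 a (mem_sdiff.2 ⟨ha, haS⟩) b (mem_sdiff.2 ⟨hb, hbS⟩) d (mem_sdiff.2 ⟨hd, hdS⟩) hab had hbd e1 e2

lemma GP_line {S : Finset Pt} (hS : GP S) (hx : XI S) (L : Pt) : (pl S L).card ≤ 2 := by
  by_contra hcon
  push Not at hcon
  obtain ⟨a, ha, b, hb, c, hc, hab, hac, hbc⟩ := two_lt_card.1 hcon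
  unfold pl at ha hb hc
  rw [mem_filter] at ha hb hc
  have hne := hx.ne ha.1 hb.1 hab
  apply hS a ha.1 b hb.1 c hc.1 hab hac hbc
  rw [col_on hne, ln_of_on' hne ha.2 hb.2]
  exact hc.2

/-- the hypothesis provided by the weighted theorem -/
def WH (N : ℝ) : Prop := ∀ V : Finset Pt, XI V → (V.card : ℝ) ≤ N →
    (∀ L ∈ lines V, ((pl V L).card : ℝ) ^ 2 ≤ N) → ∀ f : Pt → ℝ, (∀ x, 0 ≤ f x) →
    ∃ S ⊆ V, GP S ∧ ∑ x ∈ V, f x ≤ 2 ^ 24 * Real.sqrt N * ∑ x ∈ S, f x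

lemma partA {N : ℝ} (hN : 1 ≤ N) (hW : WH N) {V : Finset Pt} (hx : XI V) (hV : (V.card : ℝ) ≤ N)
    (hline : ∀ L ∈ lines V, ((pl V L).card : ℝ) ^ 2 ≤ N) (k : ℕ) :
    ∃ U ⊆ V, (∀ m, Col U m → Col V (m + k)) ∧
      ((U.card : ℝ) ≤ N / 4 ∨ (U.card : ℝ) + k * (Real.sqrt N / 2 ^ 26) ≤ N) := by
  induction k with
  | zero => exact ⟨V, Subset.refl _, fun m h => h, Or.inr (by simpa using hV)⟩
  | succ k ih =>
    obtain ⟨U, hU, hc, hor⟩ := ih
    by_cases h : (U.card : ℝ) ≤ N / 4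
    · exact ⟨U, hU, fun m hm => (hc m hm).mono (by omega), Or.inl h⟩
    · have h2 := hor.resolve_left h
      push Not at h
      have hUN : (U.card : ℝ) ≤ N := (by exact_mod_cast card_le_card hU : (U.card : ℝ) ≤ V.card).trans hV
      obtain ⟨S, hS, hSg, hSs⟩ := hW U (XI_mono hx hU) hUN (line_mono hU hline) (fun _ => 1) (fun _ => zero_le_one)
      simp only [sum_const, nsmul_eq_mul, mul_one] at hSs
      refine ⟨U \ S, sdiff_subset.trans hU, ?_, Or.inr ?_⟩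
      · intro m hm
        have := hc (m + 1) (Col_step hSg hm)
        rwa [add_assoc, add_comm 1 k, ← add_assoc] at this
      · have h3 : ((U \ S).card : ℝ) = U.card - S.card := by
          rw [card_sdiff_of_subset hS, Nat.cast_sub (card_le_card hS)]
        rw [h3]
        have hs0 : 0 < Real.sqrt N := Real.sqrt_pos.2 (by linarith)
        have hsq : Real.sqrt N * Real.sqrt N = N := Real.mul_self_sqrt (by linarith)
        have h4 : Real.sqrt N / 2 ^ 26 ≤ S.card := by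
          rw [div_le_iff₀ (by norm_num)]
          have h5 : Real.sqrt N * Real.sqrt N ≤ Real.sqrt N * ((S.card : ℝ) * 2 ^ 26) := by
            rw [hsq]
            have : (2 : ℝ) ^ 26 = 4 * 2 ^ 24 := by norm_num
            rw [this]
            nlinarith
          exact le_of_mul_le_mul_left h5 hs0
        push_cast
        linarith

/-- the potential -/
noncomputable def Pot (Ls : Finset Pt) (U : Finset Pt) : ℝ := ∑ L ∈ Ls, Real.exp ((pl U L).card : ℝ)

lemma exp_le_quarter {j : ℕ} (hj : j ≤ 2) : Real.exp (-(j : ℝ)) ≤ 1 - (1 / 4) * j := by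
  have h1 : Real.exp (-1) ≤ 1 / 2 := by
    rw [Real.exp_neg, one_div]
    apply inv_anti₀ (by norm_num)
    have := Real.add_one_le_exp (1 : ℝ)
    linarith
  interval_cases j
  · simp
  · push_cast
    linarith
  · push_cast
    have h2 : Real.exp (-2) = Real.exp (-1) * Real.exp (-1) := by rw [← Real.exp_add]; norm_num
    have h3 := Real.exp_pos (-1 : ℝ)
    rw [h2]
    nlinarith

lemma pot_step {N : ℝ} (hN : 1 ≤ N) (hW : WH N) {Ls U : Finset Pt} (hx : XI U) (hU : (U.card : ℝ) ≤ N)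
    (hline : ∀ L ∈ lines U, ((pl U L).card : ℝ) ^ 2 ≤ N) {b : ℝ} (hb : b = Real.sqrt N / 8) :
    ∃ S ⊆ U, GP S ∧ Pot Ls (U \ S) - Ls.card * Real.exp b
      ≤ (1 - 1 / 2 ^ 29) * (Pot Ls U - Ls.card * Real.exp b) := by
  set f : Pt → ℝ := fun v => ∑ L ∈ Ls, if on L v then Real.exp ((pl U L).card : ℝ) else 0 with hf
  have hf0 : ∀ v, 0 ≤ f v := by
    intro v
    apply sum_nonneg
    intro L _
    split_ifs
    · exact (Real.exp_pos _).le
    · exact le_rfl
  obtain ⟨S, hS, hSg, hSs⟩ := hW U hx hU hline f hf0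
  have hsum : ∀ T : Finset Pt, ∑ v ∈ T, f v = ∑ L ∈ Ls, ((pl T L).card : ℝ) * Real.exp ((pl U L).card : ℝ) := by
    intro T
    rw [hf]
    rw [sum_comm]
    apply sum_congr rfl
    intro L _
    rw [← sum_filter, sum_const, nsmul_eq_mul]
    rfl
  rw [hsum, hsum] at hSs
  refine ⟨S, hS, hSg, ?_⟩
  set s := Real.sqrt N with hs
  have hs0 : 0 < s := Real.sqrt_pos.2 (by linarith)
  -- decrease
  have hdec : Pot Ls (U \ S) ≤ Pot Ls U - (1 / 4) * ∑ L ∈ Ls, ((pl S L).card : ℝ) * Real.exp ((pl U L).card : ℝ) := by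
    unfold Pot
    rw [mul_sum, ← sum_sub_distrib]
    apply sum_le_sum
    intro L _
    have h1 : (pl (U \ S) L).card + (pl S L).card = (pl U L).card := by
      unfold pl
      have e : (U \ S).filter (fun p => on L p) = U.filter (fun p => on L p) \ S.filter (fun p => on L p) := by
        ext p
        simp only [mem_filter, mem_sdiff]
        tauto
      rw [e]
      exact card_sdiff_add_card_eq_card (filter_subset_filter _ hS)
    have h2 : ((pl (U \ S) L).card : ℝ) = (pl U L).card + -((pl S L).card : ℝ) := by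
      have : ((pl (U \ S) L).card : ℝ) + (pl S L).card = (pl U L).card := by exact_mod_cast h1
      linarith
    rw [h2, Real.exp_add]
    have h3 := exp_le_quarter (GP_line hSg (XI_mono hx hS) L)
    have h4 := mul_le_mul_of_nonneg_left h3 (Real.exp_pos ((pl U L).card : ℝ)).le
    linarith
  -- lower bound of the weight
  have hlow : b * (Pot Ls U - Ls.card * Real.exp b) ≤ ∑ L ∈ Ls, ((pl U L).card : ℝ) * Real.exp ((pl U L).card : ℝ) := by
    unfold Pot
    have e : (Ls.card : ℝ) * Real.exp b = ∑ L ∈ Ls, Real.exp b := by rw [sum_const, nsmul_eq_mul]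
    rw [e, ← sum_sub_distrib, mul_sum]
    apply sum_le_sum
    intro L _
    have hb0 : 0 ≤ b := by rw [hb]; positivity
    have hu0 : (0 : ℝ) ≤ (pl U L).card := Nat.cast_nonneg _
    rcases le_total b ((pl U L).card : ℝ) with h | h
    · have h1 := Real.exp_pos b
      have h2 := Real.exp_pos ((pl U L).card : ℝ)
      nlinarith
    · have h1 : Real.exp ((pl U L).card : ℝ) ≤ Real.exp b := Real.exp_le_exp.2 h
      have h2 := Real.exp_pos ((pl U L).card : ℝ)
      have h3 : b * (Real.exp ((pl U L).card : ℝ) - Real.exp b) ≤ 0 :=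
        mul_nonpos_of_nonneg_of_nonpos hb0 (by linarith)
      have h4 : 0 ≤ ((pl U L).card : ℝ) * Real.exp ((pl U L).card : ℝ) := mul_nonneg hu0 h2.le
      linarith
  have h5 := hlow.trans hSs
  rw [hb] at h5
  set Q := ∑ L ∈ Ls, ((pl S L).card : ℝ) * Real.exp ((pl U L).card : ℝ) with hQ
  have h6 : s * (Pot Ls U - Ls.card * Real.exp (s / 8)) ≤ s * (8 * 2 ^ 24 * Q) := by linarith
  have h7 := le_of_mul_le_mul_left h6 hs0
  rw [hb]
  have h8 : (8 : ℝ) * 2 ^ 24 = 2 ^ 27 := by norm_num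
  rw [h8] at h7
  have h9 : (1 : ℝ) / 2 ^ 29 * (Pot Ls U - Ls.card * Real.exp (s / 8)) ≤ (1 / 4) * Q := by
    have : (1 : ℝ) / 2 ^ 29 * (2 ^ 27 * Q) = (1 / 4) * Q := by ring
    rw [← this]
    exact mul_le_mul_of_nonneg_left h7 (by norm_num)
  linarith

lemma partB {N : ℝ} (hN : 1 ≤ N) (hW : WH N) {V : Finset Pt} (hx : XI V) (hV : (V.card : ℝ) ≤ N)
    (hline : ∀ L ∈ lines V, ((pl V L).card : ℝ) ^ 2 ≤ N) (k : ℕ) :
    ∃ U ⊆ V, (∀ m, Col U m → Col V (m + k)) ∧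
      Pot (lines V) U - (lines V).card * Real.exp (Real.sqrt N / 8)
        ≤ (1 - 1 / 2 ^ 29) ^ k * ((lines V).card * Real.exp (Real.sqrt N)) := by
  induction k with
  | zero =>
    refine ⟨V, Subset.refl _, fun m h => h, ?_⟩
    rw [pow_zero, one_mul]
    have h1 : Pot (lines V) V ≤ (lines V).card * Real.exp (Real.sqrt N) := by
      unfold Pot
      calc ∑ L ∈ lines V, Real.exp ((pl V L).card : ℝ) ≤ ∑ L ∈ lines V, Real.exp (Real.sqrt N) := by
            apply sum_le_sum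
            intro L hL
            rw [Real.exp_le_exp]
            exact Real.le_sqrt_of_sq_le (hline L hL)
        _ = _ := by rw [sum_const, nsmul_eq_mul]
    have h2 : 0 ≤ ((lines V).card : ℝ) * Real.exp (Real.sqrt N / 8) := by positivity
    linarith
  | succ k ih =>
    obtain ⟨U, hU, hc, hp⟩ := ih
    have hUN : (U.card : ℝ) ≤ N := (by exact_mod_cast card_le_card hU : (U.card : ℝ) ≤ V.card).trans hV
    obtain ⟨S, hS, hSg, hSs⟩ := pot_step hN hW (Ls := lines V) (XI_mono hx hU) hUN (line_mono hU hline) rfl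
    refine ⟨U \ S, sdiff_subset.trans hU, ?_, ?_⟩
    · intro m hm
      have := hc (m + 1) (Col_step hSg hm)
      rwa [add_assoc, add_comm 1 k, ← add_assoc] at this
    · refine hSs.trans ?_
      have e : (1 - 1 / 2 ^ 29 : ℝ) ^ (k + 1) = (1 - 1 / 2 ^ 29) * (1 - 1 / 2 ^ 29) ^ k := pow_succ' _ _
      rw [e, mul_assoc]
      exact mul_le_mul_of_nonneg_left hp (by norm_num)

lemma phase {N : ℝ} (hN : 1 ≤ N) (hW : WH N) (hexp : 2 * N ^ 2 ≤ Real.exp (3 / 8 * Real.sqrt N))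
    {V : Finset Pt} (hx : XI V) (hV : (V.card : ℝ) ≤ N)
    (hline : ∀ L ∈ lines V, ((pl V L).card : ℝ) ^ 2 ≤ N) :
    ∃ U ⊆ V, ∃ k : ℕ, (k : ℝ) ≤ 2 ^ 30 * Real.sqrt N ∧ (∀ m, Col U m → Col V (m + k)) ∧
      (U.card : ℝ) ≤ N / 4 ∧ (∀ L ∈ lines U, ((pl U L).card : ℝ) ^ 2 ≤ N / 4) := by
  set s := Real.sqrt N with hs
  have hs1 : 1 ≤ s := by rw [hs]; exact Real.one_le_sqrt.2 hN
  have hsq : s * s = N := Real.mul_self_sqrt (by linarith)
  obtain ⟨U1, hU1, hc1, hor⟩ := partA hN hW hx hV hline ⌈2 ^ 26 * s⌉₊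
  have hk1 : 2 ^ 26 * s ≤ (⌈2 ^ 26 * s⌉₊ : ℝ) := Nat.le_ceil _
  have hk1' : (⌈2 ^ 26 * s⌉₊ : ℝ) ≤ 2 ^ 26 * s + 1 := (Nat.ceil_lt_add_one (by positivity)).le
  have hU1c : (U1.card : ℝ) ≤ N / 4 := by
    rcases hor with h | h
    · exact h
    · have h2 : N ≤ (⌈2 ^ 26 * s⌉₊ : ℝ) * (s / 2 ^ 26) := by
        calc N = (2 ^ 26 * s) * (s / 2 ^ 26) := by rw [← hsq]; ring
          _ ≤ _ := mul_le_mul_of_nonneg_right hk1 (by positivity)
      have : (U1.card : ℝ) ≤ 0 := by linarith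
      linarith
  have hU1N : (U1.card : ℝ) ≤ N := by linarith
  obtain ⟨U, hU, hc, hp⟩ := partB hN hW (XI_mono hx hU1) hU1N (line_mono hU1 hline) ⌈2 ^ 29 * s⌉₊
  have hk2 : 2 ^ 29 * s ≤ (⌈2 ^ 29 * s⌉₊ : ℝ) := Nat.le_ceil _
  have hk2' : (⌈2 ^ 29 * s⌉₊ : ℝ) ≤ 2 ^ 29 * s + 1 := (Nat.ceil_lt_add_one (by positivity)).le
  refine ⟨U, hU.trans hU1, ⌈2 ^ 29 * s⌉₊ + ⌈2 ^ 26 * s⌉₊, ?_, ?_, ?_, ?_⟩
  · push_cast
    have e1 : (2 : ℝ) ^ 30 * s = 1073741824 * s := by norm_num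
    have e2 : (2 : ℝ) ^ 29 * s = 536870912 * s := by norm_num
    have e3 : (2 : ℝ) ^ 26 * s = 67108864 * s := by norm_num
    have h4 : (⌈2 ^ 29 * s⌉₊ : ℝ) ≤ 536870912 * s + 1 := by rw [← e2]; exact hk2'
    have h5 : (⌈2 ^ 26 * s⌉₊ : ℝ) ≤ 67108864 * s + 1 := by rw [← e3]; exact hk1'
    have h6 : (1073741824 : ℝ) * s ≤ 2 ^ 30 * s := e1.ge
    refine le_trans ?_ h6
    refine (add_le_add h4 h5).trans ?_
    linarith
  · intro m hm
    rw [← add_assoc]
    exact hc1 _ (hc m hm)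
  · exact (by exact_mod_cast card_le_card hU : (U.card : ℝ) ≤ U1.card).trans hU1c
  · -- potential
    set M : ℝ := ((lines U1).card : ℝ) with hM
    have hM0 : 0 ≤ M := Nat.cast_nonneg _
    have hMN : M ≤ N ^ 2 := by
      have h1 : (lines U1).card ≤ U1.card ^ 2 := by
        unfold lines
        refine card_image_le.trans ?_
        rw [offDiag_card, sq]
        exact Nat.sub_le _ _
      have h2 : M ≤ (U1.card : ℝ) ^ 2 := by rw [hM]; exact_mod_cast h1
      exact h2.trans (pow_le_pow_left₀ (Nat.cast_nonneg _) hU1N 2)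
    have hdecay : (1 - 1 / 2 ^ 29 : ℝ) ^ ⌈2 ^ 29 * s⌉₊ * Real.exp s ≤ 1 := by
      have h1 : (1 - 1 / 2 ^ 29 : ℝ) ≤ Real.exp (-(1 / 2 ^ 29)) := by
        have := Real.add_one_le_exp (-(1 / 2 ^ 29) : ℝ)
        linarith
      calc (1 - 1 / 2 ^ 29 : ℝ) ^ ⌈2 ^ 29 * s⌉₊ * Real.exp s
          ≤ Real.exp (-(1 / 2 ^ 29)) ^ ⌈2 ^ 29 * s⌉₊ * Real.exp s := by
            apply mul_le_mul_of_nonneg_right _ (Real.exp_pos _).le
            exact pow_le_pow_left₀ (by norm_num) h1 _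
        _ = Real.exp (-(⌈2 ^ 29 * s⌉₊ : ℝ) / 2 ^ 29 + s) := by
            rw [← Real.exp_nat_mul, ← Real.exp_add]
            congr 1
            ring
        _ ≤ 1 := by
            rw [Real.exp_le_one_iff]
            have h2 : s ≤ (⌈2 ^ 29 * s⌉₊ : ℝ) / 2 ^ 29 := by
              rw [le_div_iff₀ (by norm_num)]
              linarith
            have h3 : -(⌈2 ^ 29 * s⌉₊ : ℝ) / 2 ^ 29 = -((⌈2 ^ 29 * s⌉₊ : ℝ) / 2 ^ 29) := by ring
            linarith
    have hpot : Pot (lines U1) U ≤ M * Real.exp (s / 8) + M := by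
      have h1 : (1 - 1 / 2 ^ 29 : ℝ) ^ ⌈2 ^ 29 * s⌉₊ * (M * Real.exp s) ≤ M := by
        calc (1 - 1 / 2 ^ 29 : ℝ) ^ ⌈2 ^ 29 * s⌉₊ * (M * Real.exp s)
            = M * ((1 - 1 / 2 ^ 29 : ℝ) ^ ⌈2 ^ 29 * s⌉₊ * Real.exp s) := by ring
          _ ≤ M * 1 := mul_le_mul_of_nonneg_left hdecay hM0
          _ = M := mul_one _
      linarith
    have hpot2 : Pot (lines U1) U ≤ Real.exp (s / 2) := by
      have h1 : (1 : ℝ) ≤ Real.exp (s / 8) := Real.one_le_exp (by positivity)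
      calc Pot (lines U1) U ≤ M * Real.exp (s / 8) + M := hpot
        _ ≤ 2 * N ^ 2 * Real.exp (s / 8) := by nlinarith
        _ ≤ Real.exp (3 / 8 * s) * Real.exp (s / 8) := mul_le_mul_of_nonneg_right hexp (Real.exp_pos _).le
        _ = Real.exp (s / 2) := by rw [← Real.exp_add]; congr 1; ring
    intro L hL
    have hL1 : L ∈ lines U1 := lines_sub hU hL
    have h1 : Real.exp ((pl U L).card : ℝ) ≤ Pot (lines U1) U := by
      unfold Pot
      exact single_le_sum (f := fun L => Real.exp ((pl U L).card : ℝ)) (fun L _ => (Real.exp_pos _).le) hL1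
    have h2 : ((pl U L).card : ℝ) ≤ s / 2 := Real.exp_le_exp.1 (h1.trans hpot2)
    calc ((pl U L).card : ℝ) ^ 2 ≤ (s / 2) ^ 2 := pow_le_pow_left₀ (Nat.cast_nonneg _) h2 2
      _ = N / 4 := by rw [← hsq]; ring

lemma exp_eventually : ∀ᶠ N : ℝ in Filter.atTop, 2 * N ^ 2 ≤ Real.exp (3 / 8 * Real.sqrt N) := by
  have h1 : ∀ᶠ y : ℝ in Filter.atTop, y ^ 4 * Real.exp (-y) < (3 / 8) ^ 4 / 2 :=
    (Real.tendsto_pow_mul_exp_neg_atTop_nhds_zero 4).eventually_lt_const (by norm_num)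
  have h2 : Filter.Tendsto (fun N : ℝ => 3 / 8 * Real.sqrt N) Filter.atTop Filter.atTop :=
    (Real.tendsto_sqrt_atTop).const_mul_atTop (by norm_num)
  filter_upwards [h2.eventually h1, Filter.eventually_ge_atTop (0 : ℝ)] with N hN hN0
  have h3 : (3 / 8 * Real.sqrt N) ^ 4 = (3 / 8) ^ 4 * N ^ 2 := by
    have : Real.sqrt N ^ 4 = N ^ 2 := by
      calc Real.sqrt N ^ 4 = (Real.sqrt N ^ 2) ^ 2 := by ring
        _ = N ^ 2 := by rw [Real.sq_sqrt hN0]
    rw [mul_pow, this]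
  rw [h3, Real.exp_neg] at hN
  have h4 := Real.exp_pos (3 / 8 * Real.sqrt N)
  rw [← div_eq_mul_inv, div_lt_iff₀ h4] at hN
  have : (0:ℝ) < (3/8)^4 := by norm_num
  nlinarith

theorem colour : ∃ N2 : ℝ, 1 ≤ N2 ∧ ∀ N : ℝ, 0 ≤ N → ∀ V : Finset Pt, XI V → (V.card : ℝ) ≤ N →
    (∀ L ∈ lines V, ((pl V L).card : ℝ) ^ 2 ≤ N) →
    ∃ m : ℕ, Col V m ∧ (m : ℝ) ≤ 2 ^ 31 * Real.sqrt N + N2 := by
  obtain ⟨N1, hN1, hW⟩ := weighted
  obtain ⟨N3, hN3⟩ := Filter.eventually_atTop.1 exp_eventually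
  set N2 := max N1 N3 with hN2
  have hN21 : 1 ≤ N2 := hN1.trans (le_max_left _ _)
  refine ⟨N2, hN21, ?_⟩
  have key : ∀ k : ℕ, ∀ N : ℝ, 0 ≤ N → N ≤ N2 * 4 ^ k → ∀ V : Finset Pt, XI V → (V.card : ℝ) ≤ N →
    (∀ L ∈ lines V, ((pl V L).card : ℝ) ^ 2 ≤ N) →
    ∃ m : ℕ, Col V m ∧ (m : ℝ) ≤ 2 ^ 31 * Real.sqrt N + N2 := by
    intro k
    induction k with
    | zero =>
      intro N hN0 hN V _ hV _
      refine ⟨V.card, Col_card V, ?_⟩
      have := Real.sqrt_nonneg N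
      rw [pow_zero, mul_one] at hN
      have h2 : (0 : ℝ) ≤ 2 ^ 31 * Real.sqrt N := by positivity
      linarith
    | succ k ih =>
      intro N hN0 hN V hx hV hline
      by_cases hsmall : N ≤ N2
      · refine ⟨V.card, Col_card V, ?_⟩
        have h2 : (0 : ℝ) ≤ 2 ^ 31 * Real.sqrt N := by positivity
        linarith
      · push Not at hsmall
        have hNN1 : N1 ≤ N := (le_max_left _ _).trans hsmall.le
        have hNN3 : N3 ≤ N := (le_max_right _ _).trans hsmall.le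
        obtain ⟨U, hU, k', hk', hc, hUc, hUl⟩ := phase (hN21.trans hsmall.le) (hW N hNN1) (hN3 N hNN3) hx hV hline
        obtain ⟨m, hm, hm2⟩ := ih (N / 4) (by positivity) (by rw [pow_succ] at hN; linarith) U (XI_mono hx hU) hUc hUl
        refine ⟨m + k', hc m hm, ?_⟩
        have h4 : Real.sqrt (N / 4) = Real.sqrt N / 2 := by
          rw [show N / 4 = N / (2 ^ 2) by norm_num, Real.sqrt_div hN0, Real.sqrt_sq (by norm_num)]
        rw [h4] at hm2
        push_cast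
        have : (2 : ℝ) ^ 31 = 2 * 2 ^ 30 := by norm_num
        rw [this] at hm2 ⊢
        linarith
  intro N hN0 V hx hV hline
  obtain ⟨k, hk⟩ : ∃ k : ℕ, N ≤ N2 * 4 ^ k := by
    obtain ⟨k, hk⟩ := pow_unbounded_of_one_lt N (by norm_num : (1 : ℝ) < 4)
    refine ⟨k, hk.le.trans ?_⟩
    have : (0 : ℝ) < 4 ^ k := by positivity
    nlinarith
  exact key k N hN0 hk V hx hV hline

end Pool.Agent.W284.PW
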