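import Pool.Agent.Helper64.Proc9

set_option autoImplicit false

/-! A weighted (linear) version of `Helper64.Proc.Sys2.process`. -/

namespace Pool.Agent.W284.PW

open Finset Pool.Agent.Helper64.Proc
open scoped Classical

variable {D : Sys2}

noncomputable def XX (D : Sys2) (om : ℕ → ℝ) (t : ℕ) (S : Finset ℕ) (w : ℕ → ℝ) : ℝ :=
  ∑ v ∈ S, om v + ∑ v ∈ Ico t D.M, om v * w v

noncomputable def Psi (D : Sys2) (om : ℕ → ℝ) (Xi : ℝ) (t : ℕ) (S : Finset ℕ) (w : ℕ → ℝ) : ℝ :=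
  ∑ z ∈ Ico t D.M, om z * (Real.exp (-D.Zm z) * D.Fz t S w z) + Xi * ∑ e ∈ D.prs, D.xi t w e.1 e.2
    - XX D om t S w

lemma Fz_nonneg (t : ℕ) (S : Finset ℕ) (w : ℕ → ℝ) (z : ℕ) : 0 ≤ D.Fz t S w z := by
  unfold Sys.Fz
  have := D.w0_pos z
  positivity

lemma Psi_wd {om : ℕ → ℝ} (hom : ∀ v, 0 ≤ om v) {Xi : ℝ} (hXi : 0 ≤ Xi)
    {t : ℕ} {S : Finset ℕ} {w : ℕ → ℝ} (hok : ∀ v, D.Ok2 v (w v)) :
    Psi D om Xi t S (D.wd t S w) ≤ Psi D om Xi t S w := by
  unfold Psi XX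
  have h1 : ∑ z ∈ Ico t D.M, om z * (Real.exp (-D.Zm z) * D.Fz t S (D.wd t S w) z)
      + ∑ z ∈ Ico t D.M, om z * (w z - D.wd t S w z)
      ≤ ∑ z ∈ Ico t D.M, om z * (Real.exp (-D.Zm z) * D.Fz t S w z) := by
    rw [← sum_add_distrib]
    apply sum_le_sum
    intro z _
    have hG := Sys2.G_wd (D := D) (d := fun _ => 0) (S := S) (t := t) hok z
    have e1 : w z - D.wd t S w z = D.dd t S w (fun _ => 0) z := by
      unfold Sys2.wd Sys2.dd
      split_ifs <;> simp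
    rw [e1, ← mul_add]
    apply mul_le_mul_of_nonneg_left _ (hom z)
    have hE : Real.exp (-D.Zm z) * Real.exp (D.Zm z) = 1 := by rw [← Real.exp_add]; simp
    have hE0 := Real.exp_pos (-D.Zm z)
    have h2 := mul_le_mul_of_nonneg_left hG hE0.le
    have h3 : Real.exp (-D.Zm z) * (D.Fz t S (D.wd t S w) z + Real.exp (D.Zm z) * D.dd t S w (fun _ => 0) z)
        = Real.exp (-D.Zm z) * D.Fz t S (D.wd t S w) z + D.dd t S w (fun _ => 0) z := by
      rw [mul_add, ← mul_assoc, hE, one_mul]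
    rw [h3] at h2
    simpa using h2
  have h2 : ∑ e ∈ D.prs, D.xi t (D.wd t S w) e.1 e.2 ≤ ∑ e ∈ D.prs, D.xi t w e.1 e.2 := by
    apply sum_le_sum
    intro e _
    exact Sys2.xi_wd hok e.1 e.2
  have h3 := mul_le_mul_of_nonneg_left h2 hXi
  have h4 : ∑ z ∈ Ico t D.M, om z * (w z - D.wd t S w z)
      = ∑ z ∈ Ico t D.M, om z * w z - ∑ z ∈ Ico t D.M, om z * D.wd t S w z := by
    rw [← sum_sub_distrib]
    apply sum_congr rfl
    intro z _
    ring
  linarith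

lemma XX_step {om : ℕ → ℝ} {t : ℕ} {S : Finset ℕ} {w : ℕ → ℝ} (I : D.Inv t S w) (ht : t < D.M) :
    w t * XX D om (t + 1) (insert t S) (D.wsel t S w) + (1 - w t) * XX D om (t + 1) S (D.wnon t S w)
      = XX D om t S w := by
  have hp := I.p_le t
  have h1p : 1 - w t ≠ 0 := by linarith
  unfold XX
  have htS : t ∉ S := fun h => lt_irrefl _ (I.hS t h)
  rw [sum_insert htS, Finset.sum_eq_sum_Ico_succ_bot ht]
  have e1 : w t * ∑ v ∈ Ico (t + 1) D.M, om v * D.wsel t S w v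
      + (1 - w t) * ∑ v ∈ Ico (t + 1) D.M, om v * D.wnon t S w v = ∑ v ∈ Ico (t + 1) D.M, om v * w v := by
    rw [mul_sum, mul_sum, ← sum_add_distrib]
    apply sum_congr rfl
    intro v hv
    rw [mem_Ico] at hv
    unfold Sys.wsel Sys.wnon
    by_cases h : D.Sp S v t
    · rw [if_pos ⟨by omega, h⟩, if_pos ⟨by omega, h⟩]
      field_simp
      ring
    · rw [if_neg (fun h' => h h'.2), if_neg (fun h' => h h'.2)]
      ring
  linarith

lemma Psi_step {om : ℕ → ℝ} (hom : ∀ v, 0 ≤ om v) {Xi : ℝ} (hXi : 0 ≤ Xi)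
    {t : ℕ} {S : Finset ℕ} {w : ℕ → ℝ} (I : D.Inv t S w) (ht : t < D.M) :
    w t * Psi D om Xi (t + 1) (insert t S) (D.wsel t S w)
      + (1 - w t) * Psi D om Xi (t + 1) S (D.wnon t S w) ≤ Psi D om Xi t S w := by
  have hX := XX_step (om := om) I ht
  unfold Psi
  have h1 : w t * ∑ z ∈ Ico (t + 1) D.M, om z * (Real.exp (-D.Zm z) * D.Fz (t + 1) (insert t S) (D.wsel t S w) z)
      + (1 - w t) * ∑ z ∈ Ico (t + 1) D.M, om z * (Real.exp (-D.Zm z) * D.Fz (t + 1) S (D.wnon t S w) z)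
      ≤ ∑ z ∈ Ico t D.M, om z * (Real.exp (-D.Zm z) * D.Fz t S w z) := by
    rw [Finset.sum_eq_sum_Ico_succ_bot ht]
    have h0 : 0 ≤ om t * (Real.exp (-D.Zm t) * D.Fz t S w t) :=
      mul_nonneg (hom t) (mul_nonneg (Real.exp_pos _).le (Fz_nonneg _ _ _ _))
    have : w t * ∑ z ∈ Ico (t + 1) D.M, om z * (Real.exp (-D.Zm z) * D.Fz (t + 1) (insert t S) (D.wsel t S w) z)
      + (1 - w t) * ∑ z ∈ Ico (t + 1) D.M, om z * (Real.exp (-D.Zm z) * D.Fz (t + 1) S (D.wnon t S w) z)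
      ≤ ∑ z ∈ Ico (t + 1) D.M, om z * (Real.exp (-D.Zm z) * D.Fz t S w z) := by
      rw [mul_sum, mul_sum, ← sum_add_distrib]
      apply sum_le_sum
      intro z hz
      rw [mem_Ico] at hz
      have h2 := mul_le_mul_of_nonneg_left (Sys.F_step I hz.2 (by omega)) (Real.exp_pos (-D.Zm z)).le
      have h3 := mul_le_mul_of_nonneg_left h2 (hom z)
      linarith
    linarith
  have h3 : w t * ∑ e ∈ D.prs, D.xi (t + 1) (D.wsel t S w) e.1 e.2
      + (1 - w t) * ∑ e ∈ D.prs, D.xi (t + 1) (D.wnon t S w) e.1 e.2 ≤ ∑ e ∈ D.prs, D.xi t w e.1 e.2 := by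
    rw [mul_sum, mul_sum, ← sum_add_distrib]
    apply sum_le_sum
    intro e he
    rw [Sys2.mem_prs] at he
    exact Sys.xi_step I he.1 he.2.1 he.2.2 ht
  have h4 := mul_le_mul_of_nonneg_left h3 hXi
  have h5 : Xi * (w t * ∑ e ∈ D.prs, D.xi (t + 1) (D.wsel t S w) e.1 e.2
      + (1 - w t) * ∑ e ∈ D.prs, D.xi (t + 1) (D.wnon t S w) e.1 e.2)
      = w t * (Xi * ∑ e ∈ D.prs, D.xi (t + 1) (D.wsel t S w) e.1 e.2)
      + (1 - w t) * (Xi * ∑ e ∈ D.prs, D.xi (t + 1) (D.wnon t S w) e.1 e.2) := by ring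
  rw [h5] at h4
  linarith

lemma XX_le {om : ℕ → ℝ} (hom : ∀ v, 0 ≤ om v) {t : ℕ} {S : Finset ℕ} {w : ℕ → ℝ} (hS : ∀ a ∈ S, a < t)
    (ht : t ≤ D.M) (hok : ∀ v, D.Ok2 v (w v)) : XX D om t S w ≤ ∑ v ∈ range D.M, om v := by
  unfold XX
  have h1 : ∑ v ∈ S, om v ≤ ∑ v ∈ Ico 0 t, om v := by
    apply sum_le_sum_of_subset_of_nonneg
    · intro a ha
      have := hS a ha
      rw [mem_Ico]; omega
    · intro v _ _; exact hom v
  have h2 : ∑ v ∈ Ico t D.M, om v * w v ≤ ∑ v ∈ Ico t D.M, om v := by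
    apply sum_le_sum
    intro v _
    have h3 : w v ≤ 1 := by
      have h4 := D.pm_le v
      rcases hok v with h | h
      · rw [h]; norm_num
      · linarith [h.2]
    have := hom v
    nlinarith
  have h3 := Finset.sum_Ico_consecutive om (Nat.zero_le t) ht
  rw [range_eq_Ico, ← h3]
  linarith

structure GoodW (D : Sys2) (om : ℕ → ℝ) (Xi : ℝ) (c : ℝ) (t : ℕ) (S : Finset ℕ) (w : ℕ → ℝ) : Prop where
  inv : D.Inv t S w
  nt : D.NT S
  al' : D.AL t S w
  psi : Psi D om Xi t S w ≤ c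

lemma nextW {om : ℕ → ℝ} (hom : ∀ v, 0 ≤ om v) {Xi c : ℝ} (hXi : ∑ v ∈ range D.M, om v < Xi) (hc : c ≤ 0)
    {t : ℕ} {S : Finset ℕ} {w : ℕ → ℝ} (hS : ∀ a ∈ S, a < t) (ht : t ≤ D.M) (hok : ∀ v, D.Ok2 v (w v))
    (hlt : ∀ v < t, D.Ok v (w v)) (nt : D.NT S) (hal' : D.AL t S w)
    (hpsi : Psi D om Xi t S w ≤ c) : GoodW D om Xi c t S (D.wd t S w) := by
  have hom0 : 0 ≤ ∑ v ∈ range D.M, om v := sum_nonneg (fun v _ => hom v)
  have hXi0 : 0 < Xi := lt_of_le_of_lt hom0 hXi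
  have hok' : ∀ v, D.Ok v (D.wd t S w v) := fun v => Sys2.wd_ok hok hlt v
  have hpsi' := (Psi_wd (S := S) (t := t) hom hXi0.le hok).trans hpsi
  refine ⟨⟨hS, hok', ?_⟩, nt, ?_, hpsi'⟩
  · intro P Q h1 h2 h3
    have hX := XX_le hom hS ht (fun v => (hok' v).ok2)
    have hF : 0 ≤ ∑ z ∈ Ico t D.M, om z * (Real.exp (-D.Zm z) * D.Fz t S (D.wd t S w) z) :=
      sum_nonneg (fun z _ => mul_nonneg (hom z) (mul_nonneg (Real.exp_pos _).le (Fz_nonneg _ _ _ _)))
    have hxs : Xi * ∑ e ∈ D.prs, D.xi t (D.wd t S w) e.1 e.2 < Xi * 1 := by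
      unfold Psi at hpsi'
      linarith
    have hx1 := lt_of_mul_lt_mul_left hxs hXi0.le
    have h4' : ∀ e ∈ D.prs, 0 ≤ D.xi t (D.wd t S w) e.1 e.2 := fun e _ => (Real.exp_pos _).le
    have h4 : D.xi t (D.wd t S w) P Q < 1 :=
      lt_of_le_of_lt (single_le_sum h4' (Sys2.mem_prs.2 ⟨h1, h2, h3⟩ : (P, Q) ∈ D.prs)) hx1
    unfold Sys.xi at h4
    rw [Real.exp_lt_one_iff] at h4
    have := D.s_pos Q
    by_contra hcon
    push Not at hcon
    have := mul_nonneg this.le hcon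
    linarith
  · intro v hv hw
    apply hal' v hv
    intro h0
    apply hw
    unfold Sys2.wd
    split_ifs
    · rfl
    · exact h0

lemma GoodW_step {om : ℕ → ℝ} (hom : ∀ v, 0 ≤ om v) {Xi c : ℝ} (hXi : ∑ v ∈ range D.M, om v < Xi) (hc : c ≤ 0)
    {t : ℕ} (ht : t < D.M) {S : Finset ℕ} {w : ℕ → ℝ} (G : GoodW D om Xi c t S w) :
    ∃ S' w', GoodW D om Xi c (t + 1) S' w' := by
  have I := G.inv
  have hp := I.p_le t
  have h1p : 0 < 1 - w t := by linarith
  have hp0 := I.w_nonneg t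
  have hom0 : 0 ≤ ∑ v ∈ range D.M, om v := sum_nonneg (fun v _ => hom v)
  have hXi0 : 0 ≤ Xi := hom0.trans hXi.le
  have hstep := Psi_step hom hXi0 I ht
  have hpsi := G.psi
  by_cases hsel : w t ≠ 0 ∧ Psi D om Xi (t + 1) (insert t S) (D.wsel t S w) ≤ c
  · obtain ⟨hwt, hsel⟩ := hsel
    have hAL := G.al' t le_rfl hwt
    refine ⟨_, _, nextW hom hXi hc (t := t + 1) (S := insert t S) (w := D.wsel t S w) ?_ (by omega) ?_ ?_ ?_ ?_ hsel⟩
    · intro a ha
      rw [mem_insert] at ha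
      rcases ha with ha | ha
      · omega
      · have := I.hS a ha; omega
    · intro v; exact (I.ok_sel v).ok2
    · intro v _; exact I.ok_sel v
    · intro a ha b hb c hc hab hac hbc hC
      rw [mem_insert] at ha hb hc
      rcases ha with rfl | ha
      · rcases hb with rfl | hb
        · exact hab rfl
        · rcases hc with rfl | hc
          · exact hac rfl
          · exact hAL b hb c hc hbc (D.C231 hC)
      · rcases hb with rfl | hb
        · rcases hc with rfl | hc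
          · exact hbc rfl
          · exact hAL a ha c hc hac (D.C23 _ _ _ hC)
        · rcases hc with rfl | hc
          · exact hAL a ha b hb hab hC
          · exact G.nt a ha b hb c hc hab hac hbc hC
    · intro v hv hw a ha b hb hab hC
      have h1 : ¬ (t < v ∧ D.Sp S v t) := by
        intro h
        apply hw
        unfold Sys.wsel
        rw [if_pos h]
      have h2 : w v ≠ 0 := by
        unfold Sys.wsel at hw
        rw [if_neg h1] at hw
        exact hw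
      have h3 : ¬ D.Sp S v t := fun h => h1 ⟨by omega, h⟩
      rw [mem_insert] at ha hb
      rcases ha with rfl | ha
      · rcases hb with rfl | hb
        · exact hab rfl
        · exact h3 ⟨b, hb, D.C12 _ _ _ hC⟩
      · rcases hb with rfl | hb
        · exact h3 ⟨a, ha, hC⟩
        · exact G.al' v (by omega) h2 a ha b hb hab hC
  · have hnon : Psi D om Xi (t + 1) S (D.wnon t S w) ≤ c := by
      by_contra hcon
      push Not at hcon hsel
      by_cases hwt : w t = 0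
      · rw [hwt] at hstep
        simp only [zero_mul, zero_add, sub_zero, one_mul] at hstep
        linarith
      · have h1 := hsel hwt
        have hwpos : 0 < w t := lt_of_le_of_ne hp0 (Ne.symm hwt)
        have h2 := mul_lt_mul_of_pos_left h1 hwpos
        have h3 := mul_lt_mul_of_pos_left hcon h1p
        linarith
    refine ⟨_, _, nextW hom hXi hc (t := t + 1) (S := S) (w := D.wnon t S w) ?_ (by omega) ?_ ?_ G.nt ?_ hnon⟩
    · intro a ha
      have := I.hS a ha; omega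
    · intro v; exact I.ok_non v
    · intro v hv
      rw [Sys.wnon_le_t v (by omega)]
      exact I.hok v
    · intro v hv hw a ha b hb hab hC
      have h2 : w v ≠ 0 := by
        intro h0
        apply hw
        unfold Sys.wnon
        rw [h0]
        simp
      exact G.al' v (by omega) h2 a ha b hb hab hC

lemma GoodW_all {om : ℕ → ℝ} (hom : ∀ v, 0 ≤ om v) {Xi c : ℝ} (hXi : ∑ v ∈ range D.M, om v < Xi) (hc : c ≤ 0)
    (h0 : ∃ S w, GoodW D om Xi c 0 S w) : ∀ t ≤ D.M, ∃ S w, GoodW D om Xi c t S w := by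
  intro t
  induction t with
  | zero => intro _; exact h0
  | succ t ih =>
    intro ht
    obtain ⟨S, w, G⟩ := ih (by omega)
    exact GoodW_step hom hXi hc (by omega) G

theorem processW (D : Sys2) {om : ℕ → ℝ} (hom : ∀ v, 0 ≤ om v) (hpos : 0 < ∑ v ∈ range D.M, om v)
    (hinit : ∑ z ∈ range D.M, om z * (D.w0 z * Real.exp (D.T0 z - D.Zm z))
      + 2 * (∑ v ∈ range D.M, om v) *
        ∑ e ∈ D.prs, Real.exp (D.s e.2 * (∑ v ∈ range D.M, (if D.C e.1 e.2 v then D.w0 v else 0) - 1 / 128))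
      ≤ (∑ z ∈ range D.M, om z * D.w0 z) / 2) :
    ∃ S : Finset ℕ, S ⊆ range D.M ∧ D.NT S ∧ (∑ z ∈ range D.M, om z * D.w0 z) / 2 ≤ ∑ v ∈ S, om v := by
  set X0 := ∑ z ∈ range D.M, om z * D.w0 z with hX0
  have hX0n : 0 ≤ X0 := sum_nonneg (fun z _ => mul_nonneg (hom z) (D.w0_pos z).le)
  have hok0 : ∀ v, D.Ok v (D.w0 v) := fun v => Or.inr ⟨le_rfl, D.w0_le_pm v⟩
  set Xi := 2 * (∑ v ∈ range D.M, om v) with hXid
  have hXi : ∑ v ∈ range D.M, om v < Xi := by rw [hXid]; linarith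
  have hpsi0 : Psi D om Xi 0 ∅ D.w0 ≤ -(X0 / 2) := by
    unfold Psi XX
    have e1 : ∑ z ∈ Ico 0 D.M, om z * (Real.exp (-D.Zm z) * D.Fz 0 ∅ D.w0 z)
        = ∑ z ∈ range D.M, om z * (D.w0 z * Real.exp (D.T0 z - D.Zm z)) := by
      rw [← range_eq_Ico]
      apply sum_congr rfl
      intro z _
      unfold Sys.Fz
      rw [Sys2.Ex0, Real.exp_sub, Real.exp_neg]
      have := (D.w0_pos z).ne'
      have := (Real.exp_pos (D.Zm z)).ne'
      field_simp
    have e4 : ∑ e ∈ D.prs, D.xi 0 D.w0 e.1 e.2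
        = ∑ e ∈ D.prs, Real.exp (D.s e.2 * (∑ v ∈ range D.M, (if D.C e.1 e.2 v then D.w0 v else 0) - 1 / 128)) := by
      apply sum_congr rfl
      intro e _
      unfold Sys.xi Sys.ez Sys.rm Sys.bb
      simp only [Sys2.hh_w0, Finset.range_eq_Ico, Ico_self, sum_empty, mul_zero, add_zero]
    rw [e1, e4, sum_empty, zero_add, ← range_eq_Ico, ← hX0]
    linarith
  have hc : -(X0 / 2) ≤ 0 := by linarith
  have hinv0 : D.Inv 0 ∅ D.w0 := by
    refine ⟨by simp, hok0, ?_⟩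
    intro P Q h1 h2 h3
    have hX := XX_le (D := D) hom (t := 0) (S := ∅) (w := D.w0) (by simp) (Nat.zero_le _) (fun v => (hok0 v).ok2)
    have hF : 0 ≤ ∑ z ∈ Ico 0 D.M, om z * (Real.exp (-D.Zm z) * D.Fz 0 ∅ D.w0 z) :=
      sum_nonneg (fun z _ => mul_nonneg (hom z) (mul_nonneg (Real.exp_pos _).le (Fz_nonneg _ _ _ _)))
    have hXi0 : 0 < Xi := hpos.trans hXi
    have hxs : Xi * ∑ e ∈ D.prs, D.xi 0 D.w0 e.1 e.2 < Xi * 1 := by
      have := hpsi0
      unfold Psi at this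
      linarith
    have hx1 := lt_of_mul_lt_mul_left hxs hXi0.le
    have h4' : ∀ e ∈ D.prs, 0 ≤ D.xi 0 D.w0 e.1 e.2 := fun e _ => (Real.exp_pos _).le
    have h4 : D.xi 0 D.w0 P Q < 1 :=
      lt_of_le_of_lt (single_le_sum h4' (Sys2.mem_prs.2 ⟨h1, h2, h3⟩ : (P, Q) ∈ D.prs)) hx1
    unfold Sys.xi at h4
    rw [Real.exp_lt_one_iff] at h4
    have := D.s_pos Q
    by_contra hcon
    push Not at hcon
    have := mul_nonneg this.le hcon
    linarith
  have hgood0 : GoodW D om Xi (-(X0 / 2)) 0 ∅ D.w0 := by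
    refine ⟨hinv0, ?_, ?_, hpsi0⟩
    · intro a ha; simp at ha
    · intro v _ _ a ha; simp at ha
  obtain ⟨S, w, G⟩ := GoodW_all hom hXi hc ⟨_, _, hgood0⟩ D.M le_rfl
  refine ⟨S, ?_, G.nt, ?_⟩
  · intro a ha
    rw [mem_range]
    exact G.inv.hS a ha
  · have h1 := G.psi
    unfold Psi XX at h1
    rw [Ico_self, sum_empty, sum_empty] at h1
    have h2 : 0 ≤ Xi * ∑ e ∈ D.prs, D.xi D.M w e.1 e.2 := by
      apply mul_nonneg (hpos.trans hXi).le
      exact sum_nonneg (fun e _ => (Real.exp_pos _).le)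
    linarith

end Pool.Agent.W284.PW
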