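import Pool.Agent.W284.Samp
import Pool.Agent.W284.ProcW

set_option autoImplicit false

/-! Applying the weighted process to a sampled set. -/

namespace Pool.Agent.W284.PW

open Finset Pool.Agent.Helper64.Gow
open Pool.Agent.Helper64
open scoped Classical

lemma exists_enumW {W : Finset Pt} {rk : Pt → ℕ} (hrk : Set.InjOn rk (W : Set Pt)) :
    ∃ pt : ℕ → Pt, Function.Injective pt ∧ (∀ i < W.card, pt i ∈ W) ∧ ((range W.card).image pt = W) ∧
      ∀ i j, i < j → j < W.card → rk (pt i) < rk (pt j) := by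
  obtain ⟨M0, hM0⟩ : ∃ M0 : ℝ, ∀ p ∈ W, p.1 ≤ M0 := by
    obtain ⟨M, hM⟩ := (W.image Prod.fst).bddAbove
    refine ⟨M, fun p hp => hM ?_⟩
    rw [mem_coe]
    exact mem_image_of_mem _ hp
  have hc : (W.image rk).card = W.card := card_image_of_injOn hrk
  have hex : ∀ i : ℕ, ∀ h : i < W.card, ∃ x ∈ W, rk x = (W.image rk).orderEmbOfFin hc ⟨i, h⟩ := by
    intro i h
    have := orderEmbOfFin_mem (W.image rk) hc ⟨i, h⟩
    rw [mem_image] at this
    exact this
  choose g hg1 hg2 using hex
  have hmono : ∀ i j (hi : i < W.card) (hj : j < W.card), i < j → rk (g i hi) < rk (g j hj) := by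
    intro i j hi hj hij
    rw [hg2, hg2]
    exact ((W.image rk).orderEmbOfFin hc).strictMono (by exact_mod_cast hij)
  have hinj : Function.Injective (fun i => if h : i < W.card then g i h else ((M0 + 1 + i, 0) : Pt)) := by
    intro i j hij
    simp only at hij
    by_cases hi : i < W.card
    · by_cases hj : j < W.card
      · rw [dif_pos hi, dif_pos hj] at hij
        rcases lt_trichotomy i j with h | h | h
        · have := hmono i j hi hj h
          rw [hij] at this
          exact absurd this (lt_irrefl _)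
        · exact h
        · have := hmono j i hj hi h
          rw [hij] at this
          exact absurd this (lt_irrefl _)
      · rw [dif_pos hi, dif_neg hj] at hij
        have h1 := hM0 _ (hg1 i hi)
        rw [hij] at h1
        simp only at h1
        have : (0 : ℝ) ≤ j := Nat.cast_nonneg _
        linarith
    · by_cases hj : j < W.card
      · rw [dif_neg hi, dif_pos hj] at hij
        have h1 := hM0 _ (hg1 j hj)
        rw [← hij] at h1
        simp only at h1
        have : (0 : ℝ) ≤ i := Nat.cast_nonneg _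
        linarith
      · rw [dif_neg hi, dif_neg hj] at hij
        have := congrArg Prod.fst hij
        simp only at this
        have h2 : (i : ℝ) = j := by linarith
        exact_mod_cast h2
  have hmem : ∀ i < W.card, (fun i => if h : i < W.card then g i h else ((M0 + 1 + i, 0) : Pt)) i ∈ W := by
    intro i hi
    simp only [hi, dif_pos]
    exact hg1 i hi
  refine ⟨_, hinj, hmem, ?_, ?_⟩
  · apply eq_of_subset_of_card_le
    · intro p hp
      rw [mem_image] at hp
      obtain ⟨i, hi, rfl⟩ := hp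
      exact hmem i (mem_range.1 hi)
    · rw [card_image_of_injective _ hinj, card_range]
  · intro i j hij hj
    rw [dif_pos hj, dif_pos (hij.trans hj)]
    exact hmono i j _ _ hij

/-- numeric and structural hypotheses -/
structure PDataW (W : Finset Pt) (rk : Pt → ℕ) (om Z g s Dg : ℝ) : Prop where
  om0 : 0 < om
  Z0 : 0 ≤ Z
  s0 : 0 < s
  gZ : g * (Z + 1) ≤ 1 / 256
  pg : (5 / 4) * (om * Real.exp Z) ≤ g
  sg : s * (om * Real.exp Z) ≤ g
  rkinj : Set.InjOn rk (W : Set Pt)
  deg : ∀ z ∈ W, (od W rk z : ℝ) ≤ Dg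
  line : ∀ a ∈ W, ∀ b ∈ W, a ≠ b → ((W.filter (fun v => col a b v)).card : ℝ) * om ≤ 1 / 256
  notri : ∀ a ∈ W, ∀ b ∈ W, ∀ c ∈ W, ∀ e ∈ W, ∀ f ∈ W, ∀ g ∈ W, ¬ col a b c → e ≠ a → e ≠ b → col a b e →
    f ≠ b → f ≠ c → col b c f → g ≠ a → g ≠ c → col a c g → False
  noquad : ∀ a ∈ W, ∀ b ∈ W, ∀ c ∈ W, ∀ d ∈ W, ∀ e ∈ W, ∀ f ∈ W, ∀ g ∈ W, ∀ h ∈ W,
    ¬ col a b c → ¬ col b c d → ¬ col c d a → ¬ col d a b → e ≠ a → e ≠ b → col a b e →
    f ≠ b → f ≠ c → col b c f → g ≠ c → g ≠ d → col c d g → h ≠ d → h ≠ a → col d a h → False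

noncomputable def mkW (W : Finset Pt) (rk : Pt → ℕ) (om Z g s Dg : ℝ) (H : PDataW W rk om Z g s Dg) (pt : ℕ → Pt)
    (inj : Function.Injective pt) (mem : ∀ i < W.card, pt i ∈ W) : Proc.Sys2 where
  M := W.card
  C := fun a b c => col (pt a) (pt b) (pt c)
  C12 := fun _ _ _ h => col_12 h
  C23 := fun _ _ _ h => col_23 h
  Cd := fun _ _ => col_self3 _ _
  Ctr := fun _ _ _ _ hab h1 h2 => col_trans (fun h => hab (inj h)) h1 h2
  w0 := fun _ => om
  Zm := fun _ => Z
  ga := fun _ => g
  s := fun _ => s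
  w0_pos := fun _ => H.om0
  Zm_nonneg := fun _ => H.Z0
  gaZ := fun _ => H.gZ
  pm_ga := fun _ => H.pg
  s_pos := fun _ => H.s0
  s_le := fun _ _ _ _ _ _ _ _ => H.sg
  notri := fun a b c ha hb hc hn r1 r2 r3 => by
    obtain ⟨e, he, h1, h2, h3⟩ := r1
    obtain ⟨f, hf, h4, h5, h6⟩ := r2
    obtain ⟨g, hg, h7, h8, h9⟩ := r3
    exact H.notri _ (mem a ha) _ (mem b hb) _ (mem c hc) _ (mem e he) _ (mem f hf) _ (mem g hg) hn
      (fun h => h1 (inj h)) (fun h => h2 (inj h)) h3 (fun h => h4 (inj h)) (fun h => h5 (inj h)) h6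
      (fun h => h7 (inj h)) (fun h => h8 (inj h)) h9
  noquad := fun a b c d ha hb hc hd n1 n2 n3 n4 r1 r2 r3 r4 => by
    obtain ⟨e, he, h1, h2, h3⟩ := r1
    obtain ⟨f, hf, h4, h5, h6⟩ := r2
    obtain ⟨g, hg, h7, h8, h9⟩ := r3
    obtain ⟨i, hi, h10, h11, h12⟩ := r4
    exact H.noquad _ (mem a ha) _ (mem b hb) _ (mem c hc) _ (mem d hd) _ (mem e he) _ (mem f hf) _ (mem g hg) _ (mem i hi)
      n1 n2 n3 n4
      (fun h => h1 (inj h)) (fun h => h2 (inj h)) h3 (fun h => h4 (inj h)) (fun h => h5 (inj h)) h6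
      (fun h => h7 (inj h)) (fun h => h8 (inj h)) h9 (fun h => h10 (inj h)) (fun h => h11 (inj h)) h12
  cls := fun _ => 0
  cd := fun _ => (W.card : ℝ)
  cd_nonneg := fun _ => Nat.cast_nonneg _
  deg := fun t k ht => by
    have h1 := card_le_card (filter_subset (fun v => (0 : ℕ) = k ∧ ∃ a, a < t ∧ col (pt a) (pt t) (pt v))
      (Ico (t + 1) W.card))
    rw [Nat.card_Ico] at h1
    exact_mod_cast h1.trans (Nat.sub_le _ _)

theorem apply_processW {W : Finset Pt} {rk : Pt → ℕ} {om Z g s Dg : ℝ} (H : PDataW W rk om Z g s Dg)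
    {f : Pt → ℝ} (hf : ∀ x, 0 ≤ f x) (hfpos : 0 < ∑ x ∈ W, f x)
    (hnum : Real.exp (om ^ 2 * Dg - Z) ≤ 1 / 4)
    (hnum2 : 2 * ((W.card : ℝ) ^ 2 * Real.exp (-(s / 256))) ≤ om / 4) :
    ∃ S ⊆ W, (∀ a ∈ S, ∀ b ∈ S, ∀ c ∈ S, a ≠ b → a ≠ c → b ≠ c → ¬ col a b c) ∧
      om * (∑ x ∈ W, f x) / 2 ≤ ∑ x ∈ S, f x := by
  obtain ⟨pt, inj, mem, img, hmono⟩ := exists_enumW H.rkinj
  set D := mkW W rk om Z g s Dg H pt inj mem with hDd
  have hom := H.om0
  have hM : D.M = W.card := rfl
  have hsum : ∑ v ∈ range D.M, f (pt v) = ∑ x ∈ W, f x := by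
    rw [hM]
    conv_rhs => rw [← img]
    rw [sum_image (fun a _ b _ h => inj h)]
  have hw0 : ∀ v, D.w0 v = om := fun v => rfl
  have hsum2 : ∑ z ∈ range D.M, f (pt z) * D.w0 z = om * ∑ x ∈ W, f x := by
    simp only [hw0]
    rw [← sum_mul, hsum, mul_comm]
  have main := processW D (om := fun v => f (pt v)) (fun v => hf _) (by rw [hsum]; exact hfpos) ?_
  · obtain ⟨S, hS1, hS2, hS3⟩ := main
    rw [hsum2] at hS3
    refine ⟨S.image pt, ?_, ?_, ?_⟩
    · intro p hp
      rw [mem_image] at hp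
      obtain ⟨i, hi, rfl⟩ := hp
      exact mem i (mem_range.1 (hS1 hi))
    · intro a ha b hb c hc hab hac hbc hcol
      rw [mem_image] at ha hb hc
      obtain ⟨i, hi, rfl⟩ := ha
      obtain ⟨j, hj, rfl⟩ := hb
      obtain ⟨k, hk, rfl⟩ := hc
      exact hS2 i hi j hj k hk (fun h => hab (by rw [h])) (fun h => hac (by rw [h])) (fun h => hbc (by rw [h])) hcol
    · rw [sum_image (fun a _ b _ h => inj h)]
      exact hS3
  · rw [hsum2, hsum]
    have hT : ∀ z ∈ range D.M, D.T0 z ≤ om ^ 2 * Dg := by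
      intro z hz
      have hz' : z < W.card := mem_range.1 hz
      unfold Proc.Sys2.T0
      have e1 : ∑ v ∈ range z, ∑ x ∈ range z, (if x ≠ v ∧ D.C x v z then D.w0 x * D.w0 v else 0)
          = om ^ 2 * (((range z ×ˢ range z).filter (fun q => q.2 ≠ q.1 ∧ D.C q.2 q.1 z)).card : ℝ) := by
        rw [← sum_product', card_filter]
        push_cast
        rw [mul_sum]
        apply sum_congr rfl
        intro q _
        rw [hw0, hw0]
        split_ifs <;> ring
      rw [e1]
      apply mul_le_mul_of_nonneg_left _ (by positivity)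
      refine le_trans ?_ (H.deg (pt z) (mem z hz'))
      have : ((range z ×ˢ range z).filter (fun q => q.2 ≠ q.1 ∧ D.C q.2 q.1 z)).card ≤ od W rk (pt z) := by
        unfold od
        apply card_le_card_of_injOn (fun q => (pt q.1, pt q.2))
        · intro q hq
          rw [mem_coe, mem_filter, mem_product, mem_range, mem_range] at hq
          obtain ⟨⟨h1, h2⟩, h3, h4⟩ := hq
          have h5 : col (pt q.2) (pt q.1) (pt z) := h4
          rw [mem_coe, mem_filter, mem_product]
          refine ⟨⟨mem _ (h1.trans hz'), mem _ (h2.trans hz')⟩, ⟨hmono _ _ h1 hz', hmono _ _ h2 hz'⟩, ?_, ?_, ?_, ?_⟩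
          · exact fun h => absurd (inj h) (by omega)
          · exact fun h => absurd (inj h) (by omega)
          · exact fun h => h3 (inj h)
          · exact col_12 (col_23 (col_12 h5))
        · intro q _ r _ hqr
          simp only [Prod.mk.injEq] at hqr
          exact Prod.ext (inj hqr.1) (inj hqr.2)
      exact_mod_cast this
    have s1 : ∑ z ∈ range D.M, f (pt z) * (D.w0 z * Real.exp (D.T0 z - D.Zm z)) ≤ (om * ∑ x ∈ W, f x) / 4 := by
      calc ∑ z ∈ range D.M, f (pt z) * (D.w0 z * Real.exp (D.T0 z - D.Zm z))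
          ≤ ∑ z ∈ range D.M, f (pt z) * (om * (1 / 4)) := by
            apply sum_le_sum
            intro z hz
            apply mul_le_mul_of_nonneg_left _ (hf _)
            rw [hw0]
            apply mul_le_mul_of_nonneg_left _ hom.le
            refine le_trans ?_ hnum
            rw [Real.exp_le_exp]
            have e : D.Zm z = Z := rfl
            rw [e]
            have := hT z hz
            linarith
        _ = _ := by rw [← sum_mul, hsum]; ring
    have s2 : ∑ e ∈ D.prs, Real.exp (D.s e.2 * (∑ v ∈ range D.M, (if D.C e.1 e.2 v then D.w0 v else 0) - 1 / 128))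
        ≤ (W.card : ℝ) ^ 2 * Real.exp (-(s / 256)) := by
      have hsub : D.prs ⊆ range W.card ×ˢ range W.card := filter_subset _ _
      have h1 : ∀ e ∈ D.prs, Real.exp (D.s e.2 * (∑ v ∈ range D.M, (if D.C e.1 e.2 v then D.w0 v else 0) - 1 / 128))
          ≤ Real.exp (-(s / 256)) := by
        intro e he
        obtain ⟨he1, he2, _⟩ := Proc.Sys2.mem_prs.1 he
        have he2' : e.2 < W.card := he2
        rw [Real.exp_le_exp]
        have e2 : D.s e.2 = s := rfl
        rw [e2]
        have e3 : ∑ v ∈ range D.M, (if D.C e.1 e.2 v then D.w0 v else 0)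
            = (((range W.card).filter (fun v => col (pt e.1) (pt e.2) (pt v))).card : ℝ) * om := by
          rw [card_filter]
          push_cast
          rw [sum_mul]
          apply sum_congr rfl
          intro v _
          have e4 : D.C e.1 e.2 v ↔ col (pt e.1) (pt e.2) (pt v) := Iff.rfl
          rw [hw0]
          by_cases hc : col (pt e.1) (pt e.2) (pt v)
          · rw [if_pos (e4.2 hc), if_pos hc, one_mul]
          · rw [if_neg (fun h => hc (e4.1 h)), if_neg hc, zero_mul]
        rw [e3]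
        have h2 : (((range W.card).filter (fun v => col (pt e.1) (pt e.2) (pt v))).card : ℝ)
            ≤ ((W.filter (fun v => col (pt e.1) (pt e.2) v)).card : ℝ) := by
          have : ((range W.card).filter (fun v => col (pt e.1) (pt e.2) (pt v))).card
              ≤ (W.filter (fun v => col (pt e.1) (pt e.2) v)).card := by
            apply card_le_card_of_injOn pt
            · intro v hv
              rw [mem_coe, mem_filter, mem_range] at hv
              rw [mem_coe, mem_filter]
              exact ⟨mem v hv.1, hv.2⟩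
            · intro x _ y _ hxy
              exact inj hxy
          exact_mod_cast this
        have h3 := H.line (pt e.1) (mem _ (he1.trans he2')) (pt e.2) (mem _ he2') (fun h => he1.ne (inj h))
        have h4 := mul_le_mul_of_nonneg_right h2 hom.le
        have h5 := H.s0
        nlinarith
      calc _ ≤ ∑ e ∈ D.prs, Real.exp (-(s / 256)) := sum_le_sum h1
        _ = (D.prs.card : ℝ) * Real.exp (-(s / 256)) := by rw [sum_const, nsmul_eq_mul]
        _ ≤ (W.card : ℝ) ^ 2 * Real.exp (-(s / 256)) := by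
          apply mul_le_mul_of_nonneg_right _ (Real.exp_pos _).le
          have h2 := card_le_card hsub
          rw [card_product, card_range, ← sq] at h2
          exact_mod_cast h2
    have s3 : 2 * (∑ x ∈ W, f x) *
        ∑ e ∈ D.prs, Real.exp (D.s e.2 * (∑ v ∈ range D.M, (if D.C e.1 e.2 v then D.w0 v else 0) - 1 / 128))
        ≤ (om * ∑ x ∈ W, f x) / 4 := by
      calc 2 * (∑ x ∈ W, f x) *
            ∑ e ∈ D.prs, Real.exp (D.s e.2 * (∑ v ∈ range D.M, (if D.C e.1 e.2 v then D.w0 v else 0) - 1 / 128))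
          ≤ 2 * (∑ x ∈ W, f x) * ((W.card : ℝ) ^ 2 * Real.exp (-(s / 256))) :=
            mul_le_mul_of_nonneg_left s2 (by linarith)
        _ = (∑ x ∈ W, f x) * (2 * ((W.card : ℝ) ^ 2 * Real.exp (-(s / 256)))) := by ring
        _ ≤ (∑ x ∈ W, f x) * (om / 4) := mul_le_mul_of_nonneg_left hnum2 hfpos.le
        _ = _ := by ring
    linarith

end Pool.Agent.W284.PW
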