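import Pool.Agent.W217.BE.Stm

/-!
Project BE, part HTPY: a chain map over zero between a complex of projectives and a resolution is
null homotopic.
-/

set_option autoImplicit false

namespace Pool.Agent.W284.BEHTPY

open Pool.Agent.W217.BE

theorem lft {S A B P : Type} [CommRing S] [AddCommGroup A] [Module S A] [AddCommGroup B]
    [Module S B] [AddCommGroup P] [Module S P] [Module.Projective S P] (f : A →ₗ[S] B)
    (g : P →ₗ[S] B) (hg : ∀ x, g x ∈ LinearMap.range f) :
    ∃ h : P →ₗ[S] A, ∀ x, f (h x) = g x := by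
  obtain ⟨h, hh⟩ := Module.projective_lifting_property f.rangeRestrict
    (g.codRestrict (LinearMap.range f) hg) f.surjective_rangeRestrict
  refine ⟨h, fun x => ?_⟩
  have := congrArg Subtype.val (LinearMap.congr_fun hh x)
  simpa using this

theorem main : HTPY := by
  intro S _ N _ _ X Y _ _ _ _ _ dX dY εY f hdX hres hf0 hf
  obtain ⟨-, hr0, hri⟩ := hres
  let T : ℕ → Type := fun i =>
    {h : X i →ₗ[S] Y (i + 1) // ∀ x, dY i (f (i + 1) x - h (dX i x)) = 0}
  have base : ∃ h : T 0, ∀ x, f 0 x = dY 0 (h.1 x) := by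
    obtain ⟨h, hh⟩ := lft (dY 0) (f 0) (fun x => by
      rw [hr0, LinearMap.mem_ker]; exact hf0 x)
    refine ⟨⟨h, fun x => ?_⟩, fun x => (hh x).symm⟩
    rw [map_sub, hf, hh, sub_self]
  have step : ∀ (i : ℕ) (h : T i), ∃ h' : T (i + 1), ∀ x,
      f (i + 1) x = dY (i + 1) (h'.1 x) + h.1 (dX i x) := by
    intro i h
    obtain ⟨h', hh'⟩ := lft (dY (i + 1)) (f (i + 1) - h.1 ∘ₗ dX i) (fun x => by
      rw [hri, LinearMap.mem_ker]
      simpa using h.2 x)
    have hh2 : ∀ x, dY (i + 1) (h' x) = f (i + 1) x - h.1 (dX i x) := by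
      intro x
      simpa using hh' x
    refine ⟨⟨h', fun x => ?_⟩, fun x => ?_⟩
    · rw [map_sub, hf, hh2, hdX, map_zero, sub_zero, sub_self]
    · show f (i + 1) x = dY (i + 1) (h' x) + h.1 (dX i x)
      rw [hh2, sub_add_cancel]
  choose nxt hn using step
  obtain ⟨h0, hh0⟩ := base
  let sq : ∀ i, T i := fun i => Nat.rec h0 (fun i h => nxt i h) i
  exact ⟨fun i => (sq i).1, hh0, fun i x => hn i (sq i) x⟩

end Pool.Agent.W284.BEHTPY
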