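import Pool.Agent.Helper64.Gow9

set_option autoImplicit false

/-! Counting collinear triples in sets with long lines. -/

namespace Pool.Agent.W284.PW

open Finset Pool.Agent.Helper64.Gow
open scoped Classical

variable {V : Finset Pt}

lemma sq_aux (r : ℕ) : r + r ≤ 1 + r * r + 0 := by
  rcases r with _ | _ | r
  · norm_num
  · norm_num
  · ring_nf; nlinarith

/-- incidences of a family of lines -/
lemma inc_bound (Hs : Finset Pt) : ∑ L ∈ Hs, (pl V L).card ≤ V.card + Hs.card ^ 2 := by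
  have h1 : ∑ L ∈ Hs, (pl V L).card = ∑ v ∈ V, (Hs.filter (fun L => on L v)).card := by
    unfold pl
    simp only [card_filter]
    rw [sum_comm]
  set r : Pt → ℕ := fun v => (Hs.filter (fun L => on L v)).card with hr
  have h2 : ∀ v, r v * r v = r v + (((Hs ×ˢ Hs).filter (fun q => q.1 ≠ q.2 ∧ on q.1 v ∧ on q.2 v)).card) := by
    intro v
    have e1 : r v * r v = ((Hs ×ˢ Hs).filter (fun q => on q.1 v ∧ on q.2 v)).card := by
      rw [hr]
      simp only
      rw [← card_product, ← filter_product]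
    rw [e1]
    have e2 : (Hs ×ˢ Hs).filter (fun q => on q.1 v ∧ on q.2 v)
        = ((Hs ×ˢ Hs).filter (fun q => on q.1 v ∧ on q.2 v)).filter (fun q => q.1 = q.2)
          ∪ ((Hs ×ˢ Hs).filter (fun q => on q.1 v ∧ on q.2 v)).filter (fun q => ¬ q.1 = q.2) :=
      (filter_union_filter_not_eq _ _).symm
    rw [e2, card_union_of_disjoint (disjoint_filter_filter_not _ _ _)]
    congr 1
    · rw [hr]
      simp only
      symm
      apply card_bij (fun L _ => (L, L))
      · intro L hL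
        rw [mem_filter] at hL
        rw [mem_filter, mem_filter, mem_product]
        exact ⟨⟨⟨hL.1, hL.1⟩, hL.2, hL.2⟩, rfl⟩
      · intro a _ b _ h
        exact (Prod.mk.inj h).1
      · rintro ⟨a, b⟩ hab
        rw [mem_filter, mem_filter, mem_product] at hab
        obtain ⟨⟨⟨h1, h2⟩, h3, h4⟩, h5⟩ := hab
        simp only at h5
        subst h5
        exact ⟨a, mem_filter.2 ⟨h1, h3⟩, rfl⟩
    · congr 1
      ext q
      simp only [mem_filter, mem_product]
      tauto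
  have h3 : ∑ v ∈ V, (((Hs ×ˢ Hs).filter (fun q => q.1 ≠ q.2 ∧ on q.1 v ∧ on q.2 v)).card) ≤ Hs.card ^ 2 := by
    simp only [card_filter]
    rw [sum_comm]
    have h4 : ∀ q ∈ Hs ×ˢ Hs, (∑ v ∈ V, if (q.1 ≠ q.2 ∧ on q.1 v ∧ on q.2 v) then 1 else 0) ≤ 1 := by
      intro q _
      rw [← card_filter]
      rw [card_le_one]
      intro a ha b hb
      rw [mem_filter] at ha hb
      exact inter_unique ha.2.1 ha.2.2.1 ha.2.2.2 hb.2.2.1 hb.2.2.2
    calc _ ≤ ∑ q ∈ Hs ×ˢ Hs, 1 := sum_le_sum h4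
      _ = Hs.card ^ 2 := by rw [sum_const, smul_eq_mul, mul_one, card_product, sq]
  have h5 : ∀ v ∈ V, r v ≤ 1 + (((Hs ×ˢ Hs).filter (fun q => q.1 ≠ q.2 ∧ on q.1 v ∧ on q.2 v)).card) := by
    intro v _
    have := h2 v
    have h6 := sq_aux (r v)
    omega
  rw [h1]
  calc ∑ v ∈ V, r v ≤ ∑ v ∈ V, (1 + (((Hs ×ˢ Hs).filter (fun q => q.1 ≠ q.2 ∧ on q.1 v ∧ on q.2 v)).card)) :=
        sum_le_sum h5
    _ = V.card + ∑ v ∈ V, (((Hs ×ˢ Hs).filter (fun q => q.1 ≠ q.2 ∧ on q.1 v ∧ on q.2 v)).card) := by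
        rw [sum_add_distrib, sum_const, smul_eq_mul, mul_one]
    _ ≤ _ := Nat.add_le_add_left h3 _

/-- the cutoff -/
noncomputable def k0 (V : Finset Pt) : ℕ := Nat.sqrt (12 * V.card)

lemma k0_sq (V : Finset Pt) : k0 V ^ 2 ≤ 12 * V.card := by
  unfold k0; rw [sq]; exact Nat.sqrt_le _

lemma k0_lt (V : Finset Pt) : 12 * V.card < (k0 V + 1) ^ 2 := by
  unfold k0; rw [sq]; exact Nat.lt_succ_sqrt _

lemma heavy_k0 (hx : XI V) : (heavy V (k0 V)).card ^ 2 ≤ 18 * V.card := by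
  rcases Nat.eq_zero_or_pos V.card with h0 | h0
  · have hV : V = ∅ := card_eq_zero.1 h0
    have : heavy V (k0 V) = ∅ := by
      unfold heavy lines
      rw [hV]
      simp
    rw [this]; simp
  have h1 := ST_lines hx (k0_sq V)
  have h2 := k0_lt V
  have hk3 : 3 ≤ k0 V := by
    have : 3 ^ 2 ≤ 12 * V.card := by omega
    unfold k0
    rw [Nat.le_sqrt, ← sq]
    exact this
  have e : ((lines V).filter (fun L => k0 V < (pl V L).card)).card = (heavy V (k0 V)).card := rfl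
  rw [e] at h1
  set k := k0 V
  set H := (heavy V k).card
  set m := V.card
  -- 12 m < (k+1)^2 ≤ (16/9) k^2, so 27 m < 4 k^2
  have h3 : 27 * m < 4 * k ^ 2 := by nlinarith
  -- k^3 H ≤ 72 m^2
  have h4 : (k ^ 3 * H) ^ 2 ≤ (72 * m ^ 2) ^ 2 := Nat.pow_le_pow_left h1 2
  have h5 : (27 * m) ^ 3 ≤ (4 * k ^ 2) ^ 3 := Nat.pow_le_pow_left h3.le 3
  -- (27 m)^3 H^2 ≤ 64 k^6 H^2 ≤ 64 * 72^2 m^4
  have h6 : (27 * m) ^ 3 * H ^ 2 ≤ 64 * (72 * m ^ 2) ^ 2 := by
    calc (27 * m) ^ 3 * H ^ 2 ≤ (4 * k ^ 2) ^ 3 * H ^ 2 := Nat.mul_le_mul_right _ h5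
      _ = 64 * (k ^ 3 * H) ^ 2 := by ring
      _ ≤ _ := Nat.mul_le_mul_left _ h4
  have h7 : m ^ 3 * (19683 * H ^ 2) ≤ m ^ 3 * (331776 * m) := by
    calc m ^ 3 * (19683 * H ^ 2) = (27 * m) ^ 3 * H ^ 2 := by ring
      _ ≤ _ := h6
      _ = m ^ 3 * (331776 * m) := by ring
  have h8 : 19683 * H ^ 2 ≤ 331776 * m := Nat.le_of_mul_le_mul_left h7 (by positivity)
  omega

lemma heavy_k0_inc (hx : XI V) : ∑ L ∈ heavy V (k0 V), (pl V L).card ≤ 19 * V.card := by
  have h1 := inc_bound (V := V) (heavy V (k0 V))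
  have h2 := heavy_k0 hx
  omega

lemma light_part (hx : XI V) (k : ℕ) (hk : k ^ 2 ≤ 12 * V.card) :
    ((∑ L ∈ (lines V).filter (fun L => (pl V L).card ≤ k), (pl V L).card ^ 3 : ℕ) : ℝ)
      ≤ 72 * (V.card : ℝ) ^ 2 * (8 + 7 * Real.log k) := by
  rcases Nat.eq_zero_or_pos k with hB0 | hB0
  · have h0 : (lines V).filter (fun L => (pl V L).card ≤ k) = ∅ := by
      rw [eq_empty_iff_forall_notMem]
      intro L hL
      rw [mem_filter] at hL
      have := two_le_pl hx hL.1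
      omega
    rw [h0, sum_empty, hB0]
    simp
  have h1 : ∑ L ∈ (lines V).filter (fun L => (pl V L).card ≤ k), (pl V L).card ^ 3
      ≤ ∑ j ∈ range k, (3 * j ^ 2 + 3 * j + 1) * ((lines V).filter (fun L => j < (pl V L).card)).card := by
    calc ∑ L ∈ (lines V).filter (fun L => (pl V L).card ≤ k), (pl V L).card ^ 3
        = ∑ L ∈ (lines V).filter (fun L => (pl V L).card ≤ k),
            ∑ j ∈ range k, (if j < (pl V L).card then (3 * j ^ 2 + 3 * j + 1) else 0) := by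
          apply sum_congr rfl
          intro L hL
          rw [mem_filter] at hL
          rw [cube_sum, ← sum_filter]
          apply sum_congr _ (fun _ _ => rfl)
          ext j
          rw [mem_filter, mem_range, mem_range]
          constructor
          · intro h; exact ⟨by omega, h⟩
          · intro h; exact h.2
      _ ≤ ∑ L ∈ lines V, ∑ j ∈ range k, (if j < (pl V L).card then (3 * j ^ 2 + 3 * j + 1) else 0) :=
          sum_le_sum_of_subset (filter_subset _ _)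
      _ = ∑ j ∈ range k, ∑ L ∈ lines V, (if j < (pl V L).card then (3 * j ^ 2 + 3 * j + 1) else 0) := sum_comm
      _ = _ := by
          apply sum_congr rfl
          intro j _
          rw [← sum_filter, sum_const, smul_eq_mul, mul_comm]
  obtain ⟨B', rfl⟩ : ∃ B', k = B' + 1 := ⟨k - 1, by omega⟩
  have hmon : ((lines V).filter (fun L => 0 < (pl V L).card)).card ≤ ((lines V).filter (fun L => 1 < (pl V L).card)).card := by
    apply card_le_card
    intro L hL
    rw [mem_filter] at hL ⊢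
    have := two_le_pl hx hL.1
    exact ⟨hL.1, by omega⟩
  set m : ℕ → ℕ := fun j => ((lines V).filter (fun L => j < (pl V L).card)).card with hm
  have hmj : ∀ j, j < B' → (m (j + 1) : ℝ) ≤ 72 * (V.card : ℝ) ^ 2 / ((j : ℝ) + 1) ^ 3 := by
    intro j hj
    have h2 := ST_lines hx (j := j + 1) (by
      refine le_trans ?_ hk
      apply Nat.pow_le_pow_left; omega)
    rw [le_div_iff₀ (by positivity)]
    have h3 : (((j + 1 : ℕ) : ℝ)) ^ 3 * (m (j + 1) : ℝ) ≤ 72 * (V.card : ℝ) ^ 2 := by exact_mod_cast h2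
    push_cast at h3
    linarith
  have hm0 : (m 0 : ℝ) ≤ 72 * (V.card : ℝ) ^ 2 := by
    have h12 : (1 : ℕ) ^ 2 ≤ 12 * V.card := by
      refine le_trans ?_ hk
      apply Nat.pow_le_pow_left; omega
    have h2 := ST_lines hx (j := 1) h12
    have h3 : m 0 ≤ 72 * V.card ^ 2 := by
      have : m 1 ≤ 72 * V.card ^ 2 := by simpa using h2
      exact hmon.trans this
    exact_mod_cast h3
  have h2 : ((∑ L ∈ (lines V).filter (fun L => (pl V L).card ≤ B' + 1), (pl V L).card ^ 3 : ℕ) : ℝ)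
      ≤ ∑ j ∈ range (B' + 1), (3 * (j : ℝ) ^ 2 + 3 * j + 1) * (m j : ℝ) := by exact_mod_cast h1
  rw [sum_range_succ'] at h2
  have h3 : ∑ j ∈ range B', (3 * (((j + 1 : ℕ) : ℝ)) ^ 2 + 3 * ((j + 1 : ℕ) : ℝ) + 1) * (m (j + 1) : ℝ)
      ≤ ∑ j ∈ range B', 504 * (V.card : ℝ) ^ 2 * (1 / ((j : ℝ) + 1)) := by
    apply sum_le_sum
    intro j hj
    rw [mem_range] at hj
    have h4 := hmj j hj
    push_cast
    have h5 : (3 * ((j : ℝ) + 1) ^ 2 + 3 * ((j : ℝ) + 1) + 1) ≤ 7 * ((j : ℝ) + 1) ^ 2 := by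
      have : (0 : ℝ) ≤ j := Nat.cast_nonneg j
      nlinarith
    calc (3 * ((j : ℝ) + 1) ^ 2 + 3 * ((j : ℝ) + 1) + 1) * (m (j + 1) : ℝ)
        ≤ (7 * ((j : ℝ) + 1) ^ 2) * (72 * (V.card : ℝ) ^ 2 / ((j : ℝ) + 1) ^ 3) := by
          apply mul_le_mul h5 h4 (by positivity) (by positivity)
      _ = 504 * (V.card : ℝ) ^ 2 * (1 / ((j : ℝ) + 1)) := by
          have : (j : ℝ) + 1 ≠ 0 := by positivity
          field_simp
          ring
  rw [← mul_sum] at h3
  have h6 : ∑ j ∈ range B', 1 / ((j : ℝ) + 1) ≤ 1 + Real.log (B' + 1) := by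
    rcases Nat.eq_zero_or_pos B' with h0 | h0
    · rw [h0]; simp
    have h7 := harmonic_le_one_add_log B'
    have h8 : ((harmonic B' : ℚ) : ℝ) = ∑ j ∈ range B', 1 / ((j : ℝ) + 1) := by
      unfold harmonic
      push_cast
      apply sum_congr rfl
      intro j _
      rw [one_div]
    rw [← h8]
    refine h7.trans ?_
    have : Real.log B' ≤ Real.log (B' + 1) := by
      apply Real.log_le_log
      · exact_mod_cast h0
      · linarith
    linarith
  have h9 : 504 * (V.card : ℝ) ^ 2 * ∑ j ∈ range B', 1 / ((j : ℝ) + 1) ≤ 504 * (V.card : ℝ) ^ 2 * (1 + Real.log (B' + 1)) :=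
    mul_le_mul_of_nonneg_left h6 (by positivity)
  have h10 : (3 * (((0 : ℕ) : ℝ)) ^ 2 + 3 * ((0 : ℕ) : ℝ) + 1) * (m 0 : ℝ) ≤ 72 * (V.card : ℝ) ^ 2 := by
    push_cast
    simpa using hm0
  push_cast
  push_cast at h2 h3 h10
  linarith

/-- collinear triples in a set with at most `N` points and at most `√N` on a line -/
theorem Tr_bound (hx : XI V) {N : ℝ} (hN : (V.card : ℝ) ≤ N) (hB : ∀ L ∈ lines V, ((pl V L).card : ℝ) ^ 2 ≤ N) :
    (Tr V : ℝ) ≤ V.card * (N * (600 + 504 * Real.log (4 * N))) := by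
  rcases V.eq_empty_or_nonempty with h0 | hne
  · rw [h0]; unfold Tr; simp
  have hm1 : (1 : ℝ) ≤ V.card := by exact_mod_cast card_pos.2 hne
  have hN1 : 1 ≤ N := hm1.trans hN
  have h1 : (Tr V : ℝ) ≤ ((∑ L ∈ lines V, (pl V L).card ^ 3 : ℕ) : ℝ) := by
    rw [Tr_eq]; exact_mod_cast Tr_le hx
  have h2 : ∑ L ∈ lines V, (pl V L).card ^ 3
      = ∑ L ∈ (lines V).filter (fun L => (pl V L).card ≤ k0 V), (pl V L).card ^ 3
        + ∑ L ∈ heavy V (k0 V), (pl V L).card ^ 3 := by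
    rw [← sum_filter_add_sum_filter_not (lines V) (fun L => (pl V L).card ≤ k0 V)]
    congr 1
    unfold heavy
    apply sum_congr _ (fun _ _ => rfl)
    apply filter_congr
    intro L _
    exact not_le
  rw [h2] at h1
  have h3 := light_part hx (k0 V) (k0_sq V)
  have h4 : ((∑ L ∈ heavy V (k0 V), (pl V L).card ^ 3 : ℕ) : ℝ) ≤ 19 * V.card * N := by
    have h5 := heavy_k0_inc hx
    have h5' : (∑ L ∈ heavy V (k0 V), ((pl V L).card : ℝ)) ≤ 19 * V.card := by exact_mod_cast h5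
    calc ((∑ L ∈ heavy V (k0 V), (pl V L).card ^ 3 : ℕ) : ℝ) = ∑ L ∈ heavy V (k0 V), ((pl V L).card : ℝ) ^ 3 := by
          push_cast; rfl
      _ ≤ ∑ L ∈ heavy V (k0 V), ((pl V L).card : ℝ) * N := by
          apply sum_le_sum
          intro L hL
          have h6 := hB L (mem_filter.1 hL).1
          have h7 : (0 : ℝ) ≤ (pl V L).card := Nat.cast_nonneg _
          calc ((pl V L).card : ℝ) ^ 3 = ((pl V L).card : ℝ) * ((pl V L).card : ℝ) ^ 2 := by ring
            _ ≤ _ := mul_le_mul_of_nonneg_left h6 h7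
      _ = (∑ L ∈ heavy V (k0 V), ((pl V L).card : ℝ)) * N := by rw [sum_mul]
      _ ≤ _ := mul_le_mul_of_nonneg_right h5' (by linarith)
  have h5 : Real.log (k0 V) ≤ Real.log (4 * N) := by
    have hk3 : 3 ≤ k0 V := by
      have h1' : 1 ≤ V.card := card_pos.2 hne
      have : 3 ^ 2 ≤ 12 * V.card := by omega
      unfold k0
      rw [Nat.le_sqrt, ← sq]
      exact this
    apply Real.log_le_log
    · have : (3 : ℝ) ≤ k0 V := by exact_mod_cast hk3
      linarith
    · have h6 : ((k0 V : ℝ)) ^ 2 ≤ 12 * V.card := by exact_mod_cast k0_sq V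
      have h7 : (3 : ℝ) ≤ k0 V := by exact_mod_cast hk3
      nlinarith
  have h6 : 72 * (V.card : ℝ) ^ 2 * (8 + 7 * Real.log (k0 V)) ≤ 72 * ((V.card : ℝ) * N) * (8 + 7 * Real.log (4 * N)) := by
    have hlog : 0 ≤ Real.log (4 * N) := Real.log_nonneg (by linarith)
    have h8 : 8 + 7 * Real.log (k0 V) ≤ 8 + 7 * Real.log (4 * N) := by linarith
    have h9 : (V.card : ℝ) ^ 2 ≤ (V.card : ℝ) * N := by rw [sq]; exact mul_le_mul_of_nonneg_left hN (by linarith)
    calc 72 * (V.card : ℝ) ^ 2 * (8 + 7 * Real.log (k0 V)) ≤ 72 * (V.card : ℝ) ^ 2 * (8 + 7 * Real.log (4 * N)) :=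
          mul_le_mul_of_nonneg_left h8 (by positivity)
      _ ≤ _ := by
          apply mul_le_mul_of_nonneg_right _ (by linarith)
          linarith
  push_cast at h1 h3 h4
  nlinarith

/-- few heavy lines -/
theorem heavy_few (hx : XI V) {nu : ℝ} (hnu : 1 ≤ nu) (hN : (V.card : ℝ) ≤ nu ^ 1000) {j : ℕ}
    (hj : nu ^ 475 ≤ j) : ((heavy V j).card : ℝ) * nu ^ 425 ≤ 72 * V.card := by
  have hnu0 : 0 < nu := by linarith
  have hj0 : (0 : ℝ) < j := lt_of_lt_of_le (by positivity) hj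
  have hj0' : 0 < j := by exact_mod_cast hj0
  have hm0 : (0 : ℝ) ≤ V.card := Nat.cast_nonneg _
  by_cases h1 : j ^ 2 ≤ 12 * V.card
  · have h2 : ((heavy V j).card : ℝ) ≤ 72 * (V.card : ℝ) ^ 2 / (j : ℝ) ^ 3 := heavy_bound hx hj0' h1
    have h3 : (nu ^ 475) ^ 3 ≤ (j : ℝ) ^ 3 := pow_le_pow_left₀ (by positivity) hj 3
    have h4 : 72 * (V.card : ℝ) ^ 2 / (j : ℝ) ^ 3 ≤ 72 * (V.card : ℝ) ^ 2 / (nu ^ 475) ^ 3 :=
      div_le_div_of_nonneg_left (by positivity) (by positivity) h3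
    have h5 : 72 * (V.card : ℝ) ^ 2 / (nu ^ 475) ^ 3 * nu ^ 425 ≤ 72 * V.card := by
      have e : (nu ^ 475) ^ 3 = nu ^ 425 * nu ^ 1000 := by rw [← pow_mul, ← pow_add]
      rw [e]
      have e2 : 72 * (V.card : ℝ) ^ 2 / (nu ^ 425 * nu ^ 1000) * nu ^ 425 = 72 * (V.card : ℝ) ^ 2 / nu ^ 1000 := by
        field_simp
      rw [e2, div_le_iff₀ (by positivity)]
      nlinarith
    calc ((heavy V j).card : ℝ) * nu ^ 425 ≤ 72 * (V.card : ℝ) ^ 2 / (nu ^ 475) ^ 3 * nu ^ 425 :=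
          mul_le_mul_of_nonneg_right (h2.trans h4) (by positivity)
      _ ≤ _ := h5
  · push Not at h1
    have h2 : k0 V < j := by
      by_contra hcon
      push Not at hcon
      have := Nat.pow_le_pow_left hcon 2
      have := k0_sq V
      omega
    have h3 : heavy V j ⊆ heavy V (k0 V) := by
      intro L hL
      unfold heavy at hL ⊢
      rw [mem_filter] at hL ⊢
      exact ⟨hL.1, by omega⟩
    have h4 : (heavy V j).card * j ≤ 19 * V.card := by
      calc (heavy V j).card * j = ∑ L ∈ heavy V j, j := by rw [sum_const, smul_eq_mul]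
        _ ≤ ∑ L ∈ heavy V j, (pl V L).card := by
            apply sum_le_sum
            intro L hL
            exact (mem_filter.1 hL).2.le
        _ ≤ ∑ L ∈ heavy V (k0 V), (pl V L).card := sum_le_sum_of_subset h3
        _ ≤ _ := heavy_k0_inc hx
    have h5 : ((heavy V j).card : ℝ) * j ≤ 19 * V.card := by exact_mod_cast h4
    have h6 : nu ^ 425 ≤ nu ^ 475 := pow_le_pow_right₀ hnu (by norm_num)
    have h7 : (0 : ℝ) ≤ (heavy V j).card := Nat.cast_nonneg _
    calc ((heavy V j).card : ℝ) * nu ^ 425 ≤ ((heavy V j).card : ℝ) * j :=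
          mul_le_mul_of_nonneg_left (h6.trans hj) h7
      _ ≤ 19 * V.card := h5
      _ ≤ 72 * V.card := by nlinarith

end Pool.Agent.W284.PW
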