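import Pool.Agent.W284.Appl

set_option autoImplicit false

/-! Weighted general position subsets of a good set. -/

namespace Pool.Agent.W284.PW

open Finset Pool.Agent.Helper64.Gow
open Pool.Agent.Helper64
open scoped Classical

lemma choose_bound {nu : ℝ} (hnu1 : 1 ≤ nu) {B : ℕ} (hBR : (B : ℝ) ≤ nu ^ 500) {K : ℕ} (hK1 : 6 * nu ≤ K) :
    (1 / nu ^ 499) ^ K * (B.choose K : ℝ) ≤ Real.exp (-nu) := by
  have hnu0 : (0 : ℝ) < nu := by linarith
  set p : ℝ := 1 / nu ^ 499 with hp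
  have hp0 : 0 < p := by rw [hp]; positivity
  have hpB : p * B ≤ nu := by
    calc p * B ≤ p * nu ^ 500 := mul_le_mul_of_nonneg_left hBR hp0.le
      _ = nu := by
        have : nu ^ 500 = nu ^ 499 * nu := by rw [← pow_succ]
        rw [hp, this]
        field_simp
  have hch : (B.choose K : ℝ) ≤ (B : ℝ) ^ K / (K.factorial : ℝ) := Nat.choose_le_pow_div K B
  have hfac : (0 : ℝ) < K.factorial := by exact_mod_cast Nat.factorial_pos K
  calc p ^ K * (B.choose K : ℝ) ≤ p ^ K * ((B : ℝ) ^ K / (K.factorial : ℝ)) := by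
        apply mul_le_mul_of_nonneg_left hch (by positivity)
    _ = (p * B) ^ K / K.factorial := by rw [mul_pow]; ring
    _ ≤ nu ^ K / K.factorial := by
        apply div_le_div_of_nonneg_right _ hfac.le
        exact pow_le_pow_left₀ (by positivity) hpB K
    _ = ((6 * nu) ^ K / K.factorial) * (1 / 6) ^ K := by
        rw [mul_pow, one_div, inv_pow]
        field_simp
    _ ≤ Real.exp (6 * nu) * Real.exp (-(3 / 2) * K) := by
        apply mul_le_mul
        · exact Real.pow_div_factorial_le_exp _ (by positivity) K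
        · have h2 : (1 / 6 : ℝ) ≤ Real.exp (-(3 / 2)) := by
            rw [Real.exp_neg, one_div]
            apply inv_anti₀ (Real.exp_pos _)
            have h3 : Real.exp (3 / 2) ^ 2 ≤ 6 ^ 2 := by
              rw [← Real.exp_nat_mul]
              have : ((2 : ℕ) : ℝ) * (3 / 2) = 1 + 1 + 1 := by norm_num
              rw [this, Real.exp_add, Real.exp_add]
              have h4 := Real.exp_one_lt_d9
              have h5 := Real.exp_pos 1
              have h6 : Real.exp 1 ≤ 3 := by linarith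
              calc Real.exp 1 * Real.exp 1 * Real.exp 1 ≤ 3 * 3 * 3 := by gcongr
                _ ≤ 6 ^ 2 := by norm_num
            exact le_of_sq_le_sq h3 (by norm_num)
          calc (1 / 6 : ℝ) ^ K ≤ Real.exp (-(3 / 2)) ^ K := pow_le_pow_left₀ (by norm_num) h2 K
            _ = Real.exp (-(3 / 2) * K) := by rw [← Real.exp_nat_mul]; ring_nf
        · positivity
        · positivity
    _ = Real.exp (6 * nu + -(3 / 2) * K) := by rw [Real.exp_add]
    _ ≤ Real.exp (-nu) := by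
        rw [Real.exp_le_exp]
        linarith

lemma XI_mono {V W : Finset Pt} (h : XI V) (hW : W ⊆ V) : XI W :=
  fun p hp q hq hpq => h p (hW hp) q (hW hq) hpq

lemma line_mono {V W : Finset Pt} (hW : W ⊆ V) {N : ℝ} (h : ∀ L ∈ lines V, ((pl V L).card : ℝ) ^ 2 ≤ N) :
    ∀ L ∈ lines W, ((pl W L).card : ℝ) ^ 2 ≤ N := by
  intro L hL
  refine le_trans ?_ (h L (lines_sub hW hL))
  apply pow_le_pow_left₀ (Nat.cast_nonneg _)
  exact_mod_cast pl_mono hW L

lemma Tr_le_D0 {V : Finset Pt} (hx : XI V) {nu : ℝ} (hc : Cnd nu) (hN : (V.card : ℝ) ≤ nu ^ 1000)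
    (hline : ∀ L ∈ lines V, ((pl V L).card : ℝ) ^ 2 ≤ nu ^ 1000) :
    ∀ W ⊆ V, (Tr W : ℝ) ≤ W.card * (2 ^ 19 * nu ^ 1000 * Real.log nu) := by
  intro W hW
  have hnu24 := hc.c1
  have hnu1 : (1 : ℝ) ≤ nu := by linarith [show (1 : ℝ) ≤ 2 ^ 24 by norm_num]
  have hnu0 : (0 : ℝ) < nu := by linarith
  have hl2 := hc.c5
  have h1 := Tr_bound (XI_mono hx hW) (N := nu ^ 1000)
    ((by exact_mod_cast card_le_card hW : (W.card : ℝ) ≤ V.card).trans hN) (line_mono hW hline)
  refine h1.trans ?_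
  apply mul_le_mul_of_nonneg_left _ (Nat.cast_nonneg _)
  have h2 : Real.log (4 * nu ^ 1000) = Real.log 4 + 1000 * Real.log nu := by
    rw [Real.log_mul (by norm_num) (by positivity), Real.log_pow]
    push_cast
    ring
  have h3 : Real.log 4 ≤ 2 := by
    have : Real.log 4 = 2 * Real.log 2 := by
      rw [show (4 : ℝ) = 2 ^ 2 by norm_num, Real.log_pow]; push_cast; ring
    have := Real.log_two_lt_d9
    linarith
  rw [h2]
  have h4 : (600 + 504 * (Real.log 4 + 1000 * Real.log nu)) ≤ 2 ^ 19 * Real.log nu := by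
    have : (2 : ℝ) ^ 19 = 524288 := by norm_num
    rw [this]
    nlinarith
  have h5 := mul_le_mul_of_nonneg_left h4 (pow_nonneg hnu0.le 1000)
  linarith

theorem good_case {V : Finset Pt} (hx : XI V) {nu : ℝ} (hc : Cnd nu) (hN : (V.card : ℝ) ≤ nu ^ 1000)
    (hline : ∀ L ∈ lines V, ((pl V L).card : ℝ) ^ 2 ≤ nu ^ 1000)
    (h6 : ∀ v ∈ V, (c6 V v : ℝ) ≤ nu ^ 2495 / 16) (h8 : ∀ v ∈ V, (c8 V v : ℝ) ≤ nu ^ 3493 / 16)
    {f : Pt → ℝ} (hf : ∀ x, 0 ≤ f x) :
    ∃ S ⊆ V, (∀ a ∈ S, ∀ b ∈ S, ∀ c ∈ S, a ≠ b → a ≠ c → b ≠ c → ¬ col a b c) ∧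
      (∑ x ∈ V, f x) / (2 ^ 14 * nu ^ 500) ≤ ∑ x ∈ S, f x := by
  by_cases hfpos : 0 < ∑ x ∈ V, f x
  swap
  · have h0 : ∑ x ∈ V, f x = 0 := le_antisymm (not_lt.1 hfpos) (sum_nonneg (fun x _ => hf x))
    exact ⟨∅, empty_subset _, by simp, by rw [h0]; simp⟩
  have hnu24 := hc.c1
  have hnu1 : (1 : ℝ) ≤ nu := by linarith [show (1 : ℝ) ≤ 2 ^ 24 by norm_num]
  have hnu0 : (0 : ℝ) < nu := by linarith
  set l := Real.log nu with hl
  have hl2 : 2 ≤ l := hc.c5
  set D0 : ℝ := 2 ^ 19 * nu ^ 1000 * l with hD0d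
  have hD0 : 0 < D0 := by rw [hD0d]; positivity
  obtain ⟨rk, hrk, hod⟩ := exists_rank (Tr_le_D0 hx hc hN hline)
  set B := ⌊nu ^ 500⌋₊ with hBd
  have hBR : (B : ℝ) ≤ nu ^ 500 := Nat.floor_le (by positivity)
  have hBl : ∀ L ∈ lines V, (pl V L).card ≤ B := by
    intro L hL
    rw [hBd, Nat.le_floor_iff (by positivity)]
    have h1 := hline L hL
    have h2 : nu ^ 1000 = (nu ^ 500) ^ 2 := by rw [← pow_mul]
    rw [h2] at h1
    exact le_of_sq_le_sq h1 (by positivity)
  set p : ℝ := 1 / nu ^ 499 with hp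
  have hp0 : 0 < p := by rw [hp]; positivity
  have hp1 : p ≤ 1 := by
    rw [hp, div_le_one (by positivity)]
    exact one_le_pow₀ hnu1
  set K := ⌈6 * nu⌉₊ with hK
  have hK1 : 6 * nu ≤ K := Nat.le_ceil _
  have hK2 : (K : ℝ) ≤ 7 * nu := by
    have h1 : (K : ℝ) < 6 * nu + 1 := Nat.ceil_lt_add_one (by positivity)
    linarith
  have hKb : p ^ K * ((V.card : ℝ) ^ 2 * (B.choose K : ℝ)) ≤ p / 32 := by
    have h1 := choose_bound hnu1 hBR hK1
    rw [← hp] at h1
    have h3 : (V.card : ℝ) ^ 2 ≤ nu ^ 2000 := by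
      calc (V.card : ℝ) ^ 2 ≤ (nu ^ 1000) ^ 2 := pow_le_pow_left₀ (Nat.cast_nonneg _) hN 2
        _ = nu ^ 2000 := by rw [← pow_mul]
    calc p ^ K * ((V.card : ℝ) ^ 2 * (B.choose K : ℝ)) = (V.card : ℝ) ^ 2 * (p ^ K * (B.choose K : ℝ)) := by ring
      _ ≤ nu ^ 2000 * Real.exp (-nu) := by
          apply mul_le_mul h3 h1 (by positivity) (by positivity)
      _ ≤ p / 32 := by
          rw [hp, div_div, le_div_iff₀ (by positivity)]
          have e : nu ^ 2000 * Real.exp (-nu) * (nu ^ 499 * 32) = 32 * (nu ^ 2499 * Real.exp (-nu)) := by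
            have : nu ^ 2499 = nu ^ 2000 * nu ^ 499 := by rw [← pow_add]
            rw [this]; ring
          rw [e]
          have h4 : nu ^ 2499 * Real.exp (-nu) ≤ nu ^ 3000 * Real.exp (-nu) := by
            apply mul_le_mul_of_nonneg_right _ (Real.exp_pos _).le
            exact pow_le_pow_right₀ hnu1 (by norm_num)
          have := hc.c2
          linarith
  have e6 : 1 / (16 * p ^ 5) = nu ^ 2495 / 16 := by
    have : nu ^ 2495 = (nu ^ 499) ^ 5 := by rw [← pow_mul]
    rw [hp, this]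
    field_simp
  have e8 : 1 / (16 * p ^ 7) = nu ^ 3493 / 16 := by
    have : nu ^ 3493 = (nu ^ 499) ^ 7 := by rw [← pow_mul]
    rw [hp, this]
    field_simp
  obtain ⟨W, hW⟩ := sampleW (V := V) (rk := rk) hf hfpos hBl hod hD0 hp0 hp1 (by rw [e6]; exact h6) (by rw [e8]; exact h8) hKb
  have hWV := hW.sub
  have hWpos : 0 < ∑ x ∈ W, f x := lt_of_lt_of_le (by positivity) hW.big
  have hWle : (W.card : ℝ) ≤ nu ^ 1000 :=
    (by exact_mod_cast card_le_card hWV : (W.card : ℝ) ≤ V.card).trans hN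
  have hDg : 4 * p ^ 2 * D0 = 2 ^ 21 * nu ^ 2 * l := by
    rw [hp, hD0d]
    have : nu ^ 1000 = (nu ^ 499) ^ 2 * nu ^ 2 := by rw [← pow_mul, ← pow_add]
    rw [this]
    field_simp
    norm_num
  set Z : ℝ := l / 2 with hZ
  have hZ1 : 1 ≤ Z := by rw [hZ]; linarith
  have hexpl : Real.exp l = nu := by rw [hl, Real.exp_log hnu0]
  have hexpZ : Real.exp Z * Real.exp Z = nu := by
    rw [← Real.exp_add, ← hexpl]; congr 1; rw [hZ]; ring
  set om : ℝ := 1 / (4096 * nu) with hom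
  have hom0 : 0 < om := by rw [hom]; positivity
  have homZ : om * Real.exp Z = Real.exp (-Z) / 4096 := by
    rw [hom, ← hexpZ, Real.exp_neg]
    have := (Real.exp_pos Z).ne'
    field_simp
  have hPD : PDataW W rk om Z (1 / (256 * (Z + 1))) (256 * 2003 * l) (4 * p ^ 2 * D0) := by
    refine ⟨hom0, by linarith, by positivity, ?_, ?_, ?_, hrk.mono (by exact_mod_cast hWV), hW.deg, ?_, hW.notri, hW.noquad⟩
    · have : Z + 1 ≠ 0 := by linarith
      rw [div_mul_eq_mul_div, one_mul, div_le_div_iff₀ (by positivity) (by norm_num)]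
      linarith
    · rw [homZ, le_div_iff₀ (by positivity)]
      have h1 : (Z + 1) * Real.exp (-Z) ≤ 1 := by
        rw [Real.exp_neg, ← div_eq_mul_inv, div_le_one (Real.exp_pos _)]
        exact Real.add_one_le_exp Z
      nlinarith
    · rw [homZ, le_div_iff₀ (by positivity)]
      have h1 : Z ^ 2 * Real.exp (-Z) ≤ 1 / 300000 := hc.c4
      have h2 : l = 2 * Z := by rw [hZ]; ring
      rw [h2]
      have h3 : 0 < Real.exp (-Z) := Real.exp_pos _
      have h4 : Z * (Z + 1) * Real.exp (-Z) ≤ 2 * (Z ^ 2 * Real.exp (-Z)) := by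
        have : Z * (Z + 1) ≤ 2 * Z ^ 2 := by nlinarith
        have := mul_le_mul_of_nonneg_right this h3.le
        linarith
      have e : 256 * 2003 * (2 * Z) * (Real.exp (-Z) / 4096) * (256 * (Z + 1)) = 64096 * (Z * (Z + 1) * Real.exp (-Z)) := by
        ring
      rw [e]
      linarith
    · intro a ha b hb hab
      have haV := hWV ha
      have hbV := hWV hb
      have hne := hx.ne haV hbV hab
      have h1 : W.filter (fun v => col a b v) = pl W (ln (a, b)) := by
        unfold pl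
        apply filter_congr
        intro v _
        exact col_on hne
      rw [h1]
      have h2 := hW.line (ln (a, b)) (mem_lines.2 ⟨a, haV, b, hbV, hab, rfl⟩)
      have h3 : ((pl W (ln (a, b))).card : ℝ) ≤ 7 * nu := by
        refine le_trans ?_ hK2
        exact_mod_cast h2.le
      calc ((pl W (ln (a, b))).card : ℝ) * om ≤ 7 * nu * om := mul_le_mul_of_nonneg_right h3 hom0.le
        _ = 7 / 4096 := by rw [hom]; field_simp
        _ ≤ 1 / 256 := by norm_num
  obtain ⟨S, hS1, hS2, hS3⟩ := apply_processW hPD hf hWpos (by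
    have e1 : om ^ 2 * (4 * p ^ 2 * D0) - Z = -(3 * l / 8) := by
      rw [hDg, hom, hZ]
      field_simp
      ring
    rw [e1]
    have h1 : Real.exp (-(3 * l / 8)) ≤ Real.exp (-(l / 4)) := by
      rw [Real.exp_le_exp]; linarith
    have := hc.c3
    linarith) (by
    have e1 : -((256 * 2003 * l) / 256) = -(((2003 : ℕ) : ℝ) * l) := by push_cast; ring
    rw [e1, Real.exp_neg, Real.exp_nat_mul, hexpl]
    have h1 : (W.card : ℝ) ^ 2 ≤ nu ^ 2000 := by
      calc (W.card : ℝ) ^ 2 ≤ (nu ^ 1000) ^ 2 := pow_le_pow_left₀ (Nat.cast_nonneg _) hWle 2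
        _ = nu ^ 2000 := by rw [← pow_mul]
    have h2 : (W.card : ℝ) ^ 2 * (nu ^ 2003)⁻¹ ≤ 1 / nu ^ 3 := by
      rw [← div_eq_mul_inv, div_le_div_iff₀ (by positivity) (by positivity)]
      have h2 : nu ^ 2003 = nu ^ 2000 * nu ^ 3 := by rw [← pow_add]
      rw [h2, one_mul]
      exact mul_le_mul_of_nonneg_right h1 (by positivity)
    have h3 : 2 * (1 / nu ^ 3) ≤ om / 4 := by
      rw [hom, div_div, ← mul_div_assoc, mul_one, div_le_div_iff₀ (by positivity) (by positivity)]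
      have h5 : (2 ^ 24 : ℝ) ^ 2 ≤ nu ^ 2 := pow_le_pow_left₀ (by norm_num) hnu24 2
      have h7 : (32768 : ℝ) ≤ (2 ^ 24) ^ 2 := by norm_num
      have h6 : nu ^ 3 = nu * nu ^ 2 := by ring
      rw [h6]
      nlinarith
    linarith)
  refine ⟨S, hS1.trans hWV, hS2, ?_⟩
  refine le_trans ?_ hS3
  have hb := hW.big
  have h1 : om * (p * (∑ x ∈ V, f x) / 2) / 2 = (∑ x ∈ V, f x) / (2 ^ 14 * nu ^ 500) := by
    have : nu ^ 500 = nu ^ 499 * nu := by rw [← pow_succ]
    rw [hom, hp, this]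
    field_simp
    norm_num
  rw [← h1]
  have h2 := mul_le_mul_of_nonneg_left hb hom0.le
  linarith

end Pool.Agent.W284.PW
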