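import Pool.Agent.W960.HC.Defs

/-! Part M of project HC: differentiability of the Melnikov function and regular zeros. -/

open Set Topology Filter MeasureTheory

namespace Pool.Agent.W284.HC

open Pool.Agent.W960.HC

theorem kp_lt_one {X : ℝ} (hX : 0 < X) : kp X < 1 := by
  unfold kp
  have h : X ^ 2 + 1 < Real.exp (X ^ 2) := Real.add_one_lt_exp (by positivity)
  rw [Real.exp_neg, inv_mul_lt_one₀ (Real.exp_pos _)]
  linarith

theorem differentiableAt_et {X : ℝ} (hX : 0 < X) : DifferentiableAt ℝ et X := by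
  have h1 : DifferentiableAt ℝ (fun X : ℝ => 1 - kp X) X := by
    unfold kp
    fun_prop
  have h2 : (1 - kp X) ≠ 0 := by
    have := kp_lt_one hX
    linarith
  exact h1.sqrt h2

theorem differentiableAt_Mel (hF : ∀ a c R : ℝ, ∃ Z W, Flw a c R Z W)
    (hH : ∀ {a c R X₀ : ℝ}, 0 < X₀ → 2 + X₀ < R →
      ∀ {Z : ℝ → ℝ × ℝ → ℝ → ℝ × ℝ} {W : ℝ → ℝ × ℝ → ℝ → ℝ}, Flw a c R Z W →
      ∃ τ δ, Half a c R X₀ Z W τ δ)
    (a c : ℝ) {X : ℝ} (hX : 0 < X) : DifferentiableAt ℝ (Mel a c) X := by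
  obtain ⟨Z, W, F⟩ := hF a c (3 + X)
  obtain ⟨τ, δ, H⟩ := hH hX (by linarith) F
  have hδ := H.hδ
  have hτ : DifferentiableAt ℝ τ (X, 0) := by
    refine (H.smooth.contDiffAt (IsOpen.mem_nhds (isOpen_Ioo.prod isOpen_Ioo) ?_)).differentiableAt
      (by norm_num)
    exact ⟨⟨by simp; linarith, by simp; linarith⟩, ⟨by simp; linarith, by simp; linarith⟩⟩
  have hW : DifferentiableAt ℝ (fun q : ℝ × (ℝ × ℝ) × ℝ => W q.1 q.2.1 q.2.2)
      (τ (X, 0), ((0 : ℝ), et X), (0 : ℝ)) := F.smW.differentiable (by norm_num) _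
  have e : Mel a c =ᶠ[𝓝 X] fun X' => W (τ (X', 0)) (0, et X') 0 / 2 := by
    filter_upwards [Ioo_mem_nhds (show X - δ < X by linarith) (show X < X + δ by linarith)]
      with X' hX'
    rw [H.mel X' hX']
    ring
  refine DifferentiableAt.congr_of_eventuallyEq ?_ e
  have hg : DifferentiableAt ℝ (fun X' : ℝ => (τ (X', 0), ((0 : ℝ), et X'), (0 : ℝ))) X := by
    have h1 : DifferentiableAt ℝ (fun X' : ℝ => τ (X', 0)) X := by
      have h0 : DifferentiableAt ℝ (fun X' : ℝ => (X', (0 : ℝ))) X := by fun_prop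
      exact DifferentiableAt.comp (g := τ) X hτ h0
    exact h1.prodMk (((differentiableAt_const _).prodMk (differentiableAt_et hX)).prodMk
      (differentiableAt_const _))
  have h3 := DifferentiableAt.comp (g := fun q : ℝ × (ℝ × ℝ) × ℝ => W q.1 q.2.1 q.2.2) X hW hg
  exact h3.div_const 2

/-- the coefficient of `a` -/
noncomputable def I0 (X : ℝ) : ℝ := ∫ x in (0:ℝ)..X, Real.exp (-x ^ 2) * Y (kp X) x

theorem contY (κ : ℝ) : Continuous (Y κ) := by
  unfold Y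
  fun_prop

theorem Mel_eq (a c X : ℝ) : Mel a c X = a * I0 X + Mel 0 c X := by
  unfold Mel I0
  have hY := contY (kp X)
  rw [← intervalIntegral.integral_const_mul, ← intervalIntegral.integral_add]
  · refine intervalIntegral.integral_congr fun x _ => ?_
    ring
  · exact Continuous.intervalIntegrable (by fun_prop) _ _
  · exact Continuous.intervalIntegrable (by fun_prop) _ _

theorem I0_pos {X : ℝ} (hX : 0 < X) : 0 < I0 X := by
  unfold I0
  have hY := contY (kp X)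
  refine intervalIntegral.integral_pos hX (Continuous.continuousOn (by fun_prop))
    (fun x _ => mul_nonneg (Real.exp_nonneg _) (Real.sqrt_nonneg _)) ⟨0, ⟨le_rfl, hX.le⟩, ?_⟩
  have := kp_lt_one hX
  refine mul_pos (Real.exp_pos _) (Real.sqrt_pos.2 ?_)
  simp
  exact this

theorem exists_regular (hA : ∃ a c X1 X2 X3 X4 : ℝ, 0 < X1 ∧ X1 < X2 ∧ X2 < X3 ∧ X3 < X4 ∧
      0 < Mel a c X1 ∧ Mel a c X2 < 0 ∧ 0 < Mel a c X3 ∧ Mel a c X4 < 0)
    (hM : ∀ (a c : ℝ) {X : ℝ}, 0 < X → DifferentiableAt ℝ (Mel a c) X) :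
    ∃ a c x₁ x₂ x₃ m₁ m₂ m₃ : ℝ, 0 < x₁ ∧ x₁ < x₂ ∧ x₂ < x₃ ∧
    Mel a c x₁ = 0 ∧ Mel a c x₂ = 0 ∧ Mel a c x₃ = 0 ∧
    HasDerivAt (Mel a c) m₁ x₁ ∧ HasDerivAt (Mel a c) m₂ x₂ ∧ HasDerivAt (Mel a c) m₃ x₃ ∧
    m₁ ≠ 0 ∧ m₂ ≠ 0 ∧ m₃ ≠ 0 := by
  obtain ⟨a, c, X1, X2, X3, X4, h1, h12, h23, h34, s1, s2, s3, s4⟩ := hA
  have hI : ∀ {X : ℝ}, 0 < X → DifferentiableAt ℝ I0 X := by
    intro X hX
    have e : I0 = fun X => Mel 1 c X - Mel 0 c X := by
      funext x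
      rw [Mel_eq 1 c x]
      ring
    rw [e]
    exact (hM 1 c hX).sub (hM 0 c hX)
  set φ : ℝ → ℝ := fun X => -Mel 0 c X / I0 X with hφ
  have hφd : ∀ {X : ℝ}, 0 < X → DifferentiableAt ℝ φ X := fun {X} hX =>
    (hM 0 c hX).neg.div (hI hX) (I0_pos hX).ne'
  have hMel : ∀ (a' : ℝ) {X : ℝ}, 0 < X → Mel a' c X = I0 X * (a' - φ X) := by
    intro a' X hX
    have := (I0_pos hX).ne'
    rw [Mel_eq a' c X, hφ]
    field_simp
    ring
  have hlt : ∀ {X : ℝ}, 0 < X → 0 < Mel a c X → φ X < a := by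
    intro X hX h
    rw [hMel a hX] at h
    have := (mul_pos_iff_of_pos_left (I0_pos hX)).1 h
    linarith
  have hgt : ∀ {X : ℝ}, 0 < X → Mel a c X < 0 → a < φ X := by
    intro X hX h
    rw [hMel a hX] at h
    have := (mul_neg_iff.1 h)
    rcases this with h | h
    · linarith [h.2]
    · linarith [h.1, I0_pos hX]
  have p2 : 0 < X2 := h1.trans h12
  have p3 : 0 < X3 := p2.trans h23
  have p4 : 0 < X4 := p3.trans h34
  have t1 := hlt h1 s1
  have t2 := hgt p2 s2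
  have t3 := hlt p3 s3
  have t4 := hgt p4 s4
  -- critical values
  set C : Set ℝ := {x | 0 < x ∧ deriv φ x = 0} with hC
  have hnull : volume (φ '' C) = 0 := by
    refine MeasureTheory.addHaar_image_eq_zero_of_det_fderivWithin_eq_zero volume
      (f' := fun x => ContinuousLinearMap.toSpanSingleton ℝ (deriv φ x)) ?_ ?_
    · intro x hx
      exact ((hφd hx.1).hasDerivAt.hasFDerivAt).hasFDerivWithinAt
    · intro x hx
      rw [ContinuousLinearMap.det_toSpanSingleton, hx.2]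
  obtain ⟨a', ha', hna⟩ : ∃ a' ∈ Ioo (max (φ X1) (φ X3)) (min (φ X2) (φ X4)), a' ∉ φ '' C := by
    by_contra hcon
    push Not at hcon
    have hsub : Ioo (max (φ X1) (φ X3)) (min (φ X2) (φ X4)) ⊆ φ '' C := hcon
    have hz := measure_mono_null hsub hnull
    rw [Real.volume_Ioo, ENNReal.ofReal_eq_zero] at hz
    have : max (φ X1) (φ X3) < min (φ X2) (φ X4) :=
      (max_lt t1 t3).trans (lt_min t2 t4)
    linarith
  have a1 : φ X1 < a' := lt_of_le_of_lt (le_max_left _ _) ha'.1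
  have a3 : φ X3 < a' := lt_of_le_of_lt (le_max_right _ _) ha'.1
  have a2 : a' < φ X2 := lt_of_lt_of_le ha'.2 (min_le_left _ _)
  have a4 : a' < φ X4 := lt_of_lt_of_le ha'.2 (min_le_right _ _)
  have hcont : ∀ {u v : ℝ}, 0 < u → ContinuousOn φ (Icc u v) := fun {u v} hu x hx =>
    (hφd (lt_of_lt_of_le hu hx.1)).continuousAt.continuousWithinAt
  obtain ⟨x₁, hx₁, e₁⟩ := intermediate_value_Ioo h12.le (hcont h1) ⟨a1, a2⟩
  obtain ⟨x₂, hx₂, e₂⟩ := intermediate_value_Ioo' h23.le (hcont p2) ⟨a3, a2⟩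
  obtain ⟨x₃, hx₃, e₃⟩ := intermediate_value_Ioo h34.le (hcont p3) ⟨a3, a4⟩
  have hreg : ∀ {x : ℝ}, 0 < x → φ x = a' → HasDerivAt (Mel a' c) (-(I0 x * deriv φ x)) x ∧
      -(I0 x * deriv φ x) ≠ 0 := by
    intro x hx hx'
    constructor
    · have e : Mel a' c =ᶠ[𝓝 x] fun X => I0 X * (a' - φ X) := by
        filter_upwards [lt_mem_nhds hx] with X hX
        exact hMel a' hX
      refine HasDerivAt.congr_of_eventuallyEq ?_ e
      have hd := (hI hx).hasDerivAt.mul ((hφd hx).hasDerivAt.const_sub a')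
      have e5 : deriv I0 x * (a' - φ x) + I0 x * -deriv φ x = -(I0 x * deriv φ x) := by
        rw [hx', sub_self]
        ring
      rw [e5] at hd
      exact hd
    · refine neg_ne_zero.2 (mul_ne_zero (I0_pos hx).ne' fun h => hna ⟨x, ⟨hx, h⟩, hx'⟩)
  have q1 : 0 < x₁ := h1.trans hx₁.1
  have q2 : 0 < x₂ := p2.trans hx₂.1
  have q3 : 0 < x₃ := p3.trans hx₃.1
  have z : ∀ {x : ℝ}, 0 < x → φ x = a' → Mel a' c x = 0 := by
    intro x hx hx'
    rw [hMel a' hx, hx', sub_self, mul_zero]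
  exact ⟨a', c, x₁, x₂, x₃, _, _, _, q1, hx₁.2.trans hx₂.1, hx₂.2.trans hx₃.1, z q1 e₁, z q2 e₂,
    z q3 e₃, (hreg q1 e₁).1, (hreg q2 e₂).1, (hreg q3 e₃).1, (hreg q1 e₁).2, (hreg q2 e₂).2,
    (hreg q3 e₃).2⟩

end Pool.Agent.W284.HC
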