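import Pool.Agent.W284.Good

set_option autoImplicit false

/-! Weighted general position subsets of an arbitrary set: layers. -/

namespace Pool.Agent.W284.PW

open Finset Pool.Agent.Helper64.Gow
open Pool.Agent.Helper64
open scoped Classical

lemma third_mono {V W : Finset Pt} (h : W ⊆ V) (a b : Pt) : third W a b ⊆ third V a b :=
  filter_subset_filter _ h

lemma S6_mono {V W : Finset Pt} (h : W ⊆ V) : S6 W ⊆ S6 V := by
  intro s hs
  unfold S6 at hs ⊢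
  rw [mem_biUnion] at hs ⊢
  obtain ⟨t, ht, hs⟩ := hs
  refine ⟨t, ?_, ?_⟩
  · obtain ⟨a, b, c⟩ := t
    rw [mem_N3] at ht ⊢
    exact ⟨⟨h ht.1.1, h ht.1.2.1, h ht.1.2.2⟩, ht.2⟩
  · simp only [mem_product] at hs ⊢
    exact ⟨hs.1, third_mono h _ _ hs.2.1, third_mono h _ _ hs.2.2.1, third_mono h _ _ hs.2.2.2⟩

lemma S8_mono {V W : Finset Pt} (h : W ⊆ V) : S8 W ⊆ S8 V := by
  intro s hs
  unfold S8 at hs ⊢
  rw [mem_biUnion] at hs ⊢
  obtain ⟨t, ht, hs⟩ := hs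
  refine ⟨t, ?_, ?_⟩
  · obtain ⟨a, b, c, d⟩ := t
    rw [mem_N4] at ht ⊢
    exact ⟨⟨h ht.1.1, h ht.1.2.1, h ht.1.2.2.1, h ht.1.2.2.2⟩, ht.2⟩
  · simp only [mem_product] at hs ⊢
    exact ⟨hs.1, third_mono h _ _ hs.2.1, third_mono h _ _ hs.2.2.1, third_mono h _ _ hs.2.2.2.1,
      third_mono h _ _ hs.2.2.2.2⟩

lemma c6_mono {V W : Finset Pt} (h : W ⊆ V) (v : Pt) : c6 W v ≤ c6 V v :=
  card_le_card (filter_subset_filter _ (S6_mono h))

lemma c8_mono {V W : Finset Pt} (h : W ⊆ V) (v : Pt) : c8 W v ≤ c8 V v :=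
  card_le_card (filter_subset_filter _ (S8_mono h))

lemma c6_sum (V : Finset Pt) : ∑ v ∈ V, c6 V v = (S6 V).card :=
  (card_eq_sum_card_fiberwise (fun s hs => S6_mem hs)).symm

lemma c8_sum (V : Finset Pt) : ∑ v ∈ V, c8 V v = (S8 V).card :=
  (card_eq_sum_card_fiberwise (fun s hs => S8_mem hs)).symm

/-- Markov -/
lemma markov {V : Finset Pt} (g : Pt → ℕ) {T : ℝ} (hT : 0 ≤ T) :
    ((V.filter (fun v => ¬ (g v : ℝ) ≤ T)).card : ℝ) * T ≤ ((∑ v ∈ V, g v : ℕ) : ℝ) := by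
  calc ((V.filter (fun v => ¬ (g v : ℝ) ≤ T)).card : ℝ) * T = ∑ v ∈ V.filter (fun v => ¬ (g v : ℝ) ≤ T), T := by
        rw [sum_const, nsmul_eq_mul]
    _ ≤ ∑ v ∈ V.filter (fun v => ¬ (g v : ℝ) ≤ T), (g v : ℝ) := by
        apply sum_le_sum
        intro v hv
        have := (mem_filter.1 hv).2
        push Not at this
        exact this.le
    _ ≤ ∑ v ∈ V, (g v : ℝ) :=
        sum_le_sum_of_subset_of_nonneg (filter_subset _ _) (fun v _ _ => Nat.cast_nonneg _)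
    _ = _ := by push_cast; rfl

structure Cnd2 (nu : ℝ) : Prop where
  c : Cnd nu
  d1 : 2 ^ 21 * Real.log nu ≤ nu
  d2 : 2 ^ 32 ≤ nu

lemma cnd2_eventually : ∀ᶠ nu : ℝ in Filter.atTop, Cnd2 nu := by
  have h1 : ∀ᶠ nu : ℝ in Filter.atTop, 2 ^ 21 * Real.log nu ≤ nu := by
    have := Real.isLittleO_log_id_atTop.bound (show (0 : ℝ) < 1 / 2 ^ 21 by norm_num)
    filter_upwards [this, Filter.eventually_ge_atTop (1 : ℝ)] with x hx hx1
    have h2 : 0 ≤ Real.log x := Real.log_nonneg hx1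
    simp only [id, Real.norm_eq_abs, abs_of_nonneg h2, abs_of_nonneg (by linarith : (0:ℝ) ≤ x)] at hx
    have : 2 ^ 21 * Real.log x ≤ 2 ^ 21 * (1 / 2 ^ 21 * x) := mul_le_mul_of_nonneg_left hx (by norm_num)
    calc 2 ^ 21 * Real.log x ≤ 2 ^ 21 * (1 / 2 ^ 21 * x) := this
      _ = x := by ring
  filter_upwards [cnd_eventually, h1, Filter.eventually_ge_atTop (2 ^ 32 : ℝ)] with x a b c
  exact ⟨a, b, c⟩

theorem layer {V : Finset Pt} (hx : XI V) {nu : ℝ} (hc2 : Cnd2 nu) (hN : (V.card : ℝ) ≤ nu ^ 1000)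
    (hline : ∀ L ∈ lines V, ((pl V L).card : ℝ) ^ 2 ≤ nu ^ 1000) :
    ∃ G ⊆ V, ((V \ G).card : ℝ) * nu ≤ V.card ∧ (∀ v ∈ G, (c6 G v : ℝ) ≤ nu ^ 2495 / 16) ∧
      (∀ v ∈ G, (c8 G v : ℝ) ≤ nu ^ 3493 / 16) := by
  have hc := hc2.c
  have hd2 := hc2.d2
  have hnu1 : (1 : ℝ) ≤ nu := by linarith [show (1 : ℝ) ≤ 2 ^ 32 by norm_num]
  have hnu0 : (0 : ℝ) < nu := by linarith
  have hm0 : (0 : ℝ) ≤ V.card := Nat.cast_nonneg _
  set V1 := V.filter (fun v => (deg V v : ℝ) ≤ nu ^ 1002) with hV1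
  have hV1V : V1 ⊆ V := filter_subset _ _
  have hx1 := XI_mono hx hV1V
  have hline1 := line_mono hV1V hline
  have hm1V : (V1.card : ℝ) ≤ V.card := by exact_mod_cast card_le_card hV1V
  have hN1 : (V1.card : ℝ) ≤ nu ^ 1000 := hm1V.trans hN
  have hm10 : (0 : ℝ) ≤ V1.card := Nat.cast_nonneg _
  -- high degree points
  have hdeg : ((V.filter (fun v => ¬ (deg V v : ℝ) ≤ nu ^ 1002)).card : ℝ) * (4 * nu) ≤ V.card := by
    have h1 := markov (V := V) (fun v => deg V v) (T := nu ^ 1002) (by positivity)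
    have h2 := Tr_le_D0 hx hc hN hline V (Subset.refl _)
    unfold Tr at h2
    have h3 := h1.trans h2
    have h4 : (V.card : ℝ) * (2 ^ 19 * nu ^ 1000 * Real.log nu) ≤ (V.card : ℝ) * (nu ^ 1001 / 4) := by
      apply mul_le_mul_of_nonneg_left _ hm0
      have e : nu ^ 1001 = nu ^ 1000 * nu := by rw [← pow_succ]
      rw [e]
      have h5 := mul_le_mul_of_nonneg_left hc2.d1 (pow_nonneg hnu0.le 1000)
      linarith
    have h5 := h3.trans h4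
    have e : nu ^ 1002 = nu ^ 1001 * nu := by rw [← pow_succ]
    rw [e] at h5
    have h6 : nu ^ 1001 * (((V.filter (fun v => ¬ (deg V v : ℝ) ≤ nu ^ 1002)).card : ℝ) * (4 * nu))
        ≤ nu ^ 1001 * (V.card : ℝ) := by linarith
    exact le_of_mul_le_mul_left h6 (by positivity)
  have hdV1 : ∀ a ∈ V1, (deg V1 a : ℝ) ≤ nu ^ 1002 := by
    intro a ha
    refine le_trans ?_ (mem_filter.1 ha).2
    exact_mod_cast deg_mono hV1V a
  -- lines
  set B := ⌊nu ^ 500⌋₊ with hBd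
  have hBR : (B : ℝ) ≤ nu ^ 500 := Nat.floor_le (by positivity)
  have hBl : ∀ L ∈ lines V1, (pl V1 L).card ≤ B := by
    intro L hL
    rw [hBd, Nat.le_floor_iff (by positivity)]
    have h1 := hline1 L hL
    have h2 : nu ^ 1000 = (nu ^ 500) ^ 2 := by rw [← pow_mul]
    rw [h2] at h1
    exact le_of_sq_le_sq h1 (by positivity)
  have hB0 : (0 : ℝ) ≤ B := Nat.cast_nonneg _
  set j := ⌈nu ^ 475⌉₊ with hj
  have hj1 : nu ^ 475 ≤ j := Nat.le_ceil _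
  have hj2 : (j : ℝ) ≤ 2 * nu ^ 475 := by
    have h1 : (j : ℝ) < nu ^ 475 + 1 := Nat.ceil_lt_add_one (by positivity)
    have h2 : (1 : ℝ) ≤ nu ^ 475 := one_le_pow₀ hnu1
    linarith
  have hHb := heavy_few hx1 hnu1 hN1 hj1
  set H : ℝ := ((heavy V1 j).card : ℝ) with hH
  have hH0 : 0 ≤ H := Nat.cast_nonneg _
  set m : ℝ := (V1.card : ℝ) with hm
  have hHm : H ≤ 72 * m / nu ^ 425 := by
    rw [le_div_iff₀ (by positivity)]; exact hHb
  have hS6 : ((S6 V1).card : ℝ) ≤ m * (2 ^ 20 * nu ^ 2479) := by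
    refine (S6_bound hx1 hBl hdV1 (by positivity) j).trans ?_
    have e1 : 3 * (j : ℝ) * m * (nu ^ 1002) ^ 2 ≤ m * (6 * nu ^ 2479) := by
      calc 3 * (j : ℝ) * m * (nu ^ 1002) ^ 2 ≤ 3 * (2 * nu ^ 475) * m * (nu ^ 1002) ^ 2 := by gcongr
        _ = m * (6 * nu ^ 2479) := by
          have : nu ^ 2479 = nu ^ 475 * (nu ^ 1002) ^ 2 := by rw [← pow_mul, ← pow_add]
          rw [this]; ring
    have e2 : H ^ 3 * (B : ℝ) ^ 3 ≤ m * (373248 * nu ^ 2225) := by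
      calc H ^ 3 * (B : ℝ) ^ 3 ≤ (72 * m / nu ^ 425) ^ 3 * (nu ^ 500) ^ 3 := by gcongr
        _ = m * (373248 * m ^ 2 * nu ^ 225) := by
          have : (nu ^ 500) ^ 3 = (nu ^ 425) ^ 3 * nu ^ 225 := by rw [← pow_mul, ← pow_mul, ← pow_add]
          rw [this, div_pow]
          field_simp
          ring
        _ ≤ m * (373248 * (nu ^ 1000) ^ 2 * nu ^ 225) := by gcongr
        _ = _ := by
          have : nu ^ 2225 = (nu ^ 1000) ^ 2 * nu ^ 225 := by rw [← pow_mul, ← pow_add]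
          rw [this]; ring
    have e3 : nu ^ 2225 ≤ nu ^ 2479 := pow_le_pow_right₀ hnu1 (by norm_num)
    have e4 : m * (6 * nu ^ 2479) + m * (373248 * nu ^ 2225) ≤ m * (2 ^ 20 * nu ^ 2479) := by
      rw [← mul_add]
      apply mul_le_mul_of_nonneg_left _ hm10
      have : (2 : ℝ) ^ 20 = 1048576 := by norm_num
      have hp : (0 : ℝ) < nu ^ 2479 := by positivity
      rw [this]
      nlinarith
    linarith
  have hS8 : ((S8 V1).card : ℝ) ≤ m * (2 ^ 26 * nu ^ 3481) := by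
    refine (S8_bound hx1 hBl hdV1 (by positivity) j).trans ?_
    have e1 : 4 * (j : ℝ) * m * (nu ^ 1002) ^ 3 ≤ m * (8 * nu ^ 3481) := by
      calc 4 * (j : ℝ) * m * (nu ^ 1002) ^ 3 ≤ 4 * (2 * nu ^ 475) * m * (nu ^ 1002) ^ 3 := by gcongr
        _ = m * (8 * nu ^ 3481) := by
          have : nu ^ 3481 = nu ^ 475 * (nu ^ 1002) ^ 3 := by rw [← pow_mul, ← pow_add]
          rw [this]; ring
    have e2 : H ^ 4 * (B : ℝ) ^ 4 ≤ m * (26873856 * nu ^ 3300) := by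
      calc H ^ 4 * (B : ℝ) ^ 4 ≤ (72 * m / nu ^ 425) ^ 4 * (nu ^ 500) ^ 4 := by gcongr
        _ = m * (26873856 * m ^ 3 * nu ^ 300) := by
          have : (nu ^ 500) ^ 4 = (nu ^ 425) ^ 4 * nu ^ 300 := by rw [← pow_mul, ← pow_mul, ← pow_add]
          rw [this, div_pow]
          field_simp
          ring
        _ ≤ m * (26873856 * (nu ^ 1000) ^ 3 * nu ^ 300) := by gcongr
        _ = _ := by
          have : nu ^ 3300 = (nu ^ 1000) ^ 3 * nu ^ 300 := by rw [← pow_mul, ← pow_add]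
          rw [this]; ring
    have e3 : nu ^ 3300 ≤ nu ^ 3481 := pow_le_pow_right₀ hnu1 (by norm_num)
    have e4 : m * (8 * nu ^ 3481) + m * (26873856 * nu ^ 3300) ≤ m * (2 ^ 26 * nu ^ 3481) := by
      rw [← mul_add]
      apply mul_le_mul_of_nonneg_left _ hm10
      have : (2 : ℝ) ^ 26 = 67108864 := by norm_num
      have hp : (0 : ℝ) < nu ^ 3481 := by positivity
      rw [this]
      nlinarith
    linarith
  have hb6 : ((V1.filter (fun v => ¬ (c6 V1 v : ℝ) ≤ nu ^ 2495 / 16)).card : ℝ) * (4 * nu) ≤ m := by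
    have h1 := markov (V := V1) (fun v => c6 V1 v) (T := nu ^ 2495 / 16) (by positivity)
    rw [c6_sum] at h1
    have h2 := h1.trans hS6
    have e : nu ^ 2495 = nu ^ 2479 * (nu ^ 15 * nu) := by rw [← pow_succ, ← pow_add]
    rw [e] at h2
    set q : ℝ := ((V1.filter (fun v => ¬ (c6 V1 v : ℝ) ≤ nu ^ 2495 / 16)).card : ℝ) with hq
    rw [← e, ← hq] at h2
    rw [e] at h2
    have hq0 : 0 ≤ q := Nat.cast_nonneg _
    have h3 : nu ^ 2479 * (q * (nu ^ 15 * nu)) ≤ nu ^ 2479 * (2 ^ 24 * m) := by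
      have : (2 : ℝ) ^ 24 = 16 * 2 ^ 20 := by norm_num
      rw [this]; linarith
    have h4 := le_of_mul_le_mul_left h3 (by positivity)
    have h5 : (2 : ℝ) ^ 26 ≤ nu ^ 15 := by
      calc (2 : ℝ) ^ 26 ≤ (2 ^ 32) ^ 15 := by norm_num
        _ ≤ nu ^ 15 := pow_le_pow_left₀ (by norm_num) hd2 15
    have h6 : q * (2 ^ 26 * nu) ≤ q * (nu ^ 15 * nu) := by gcongr
    have h7 : (2 : ℝ) ^ 26 = 4 * 2 ^ 24 := by norm_num
    rw [h7] at h6
    have h8 : (2 : ℝ) ^ 24 * (q * (4 * nu)) ≤ 2 ^ 24 * m := by linarith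
    exact le_of_mul_le_mul_left h8 (by norm_num)
  have hb8 : ((V1.filter (fun v => ¬ (c8 V1 v : ℝ) ≤ nu ^ 3493 / 16)).card : ℝ) * (4 * nu) ≤ m := by
    have h1 := markov (V := V1) (fun v => c8 V1 v) (T := nu ^ 3493 / 16) (by positivity)
    rw [c8_sum] at h1
    have h2 := h1.trans hS8
    have e : nu ^ 3493 = nu ^ 3481 * (nu ^ 11 * nu) := by rw [← pow_succ, ← pow_add]
    set q : ℝ := ((V1.filter (fun v => ¬ (c8 V1 v : ℝ) ≤ nu ^ 3493 / 16)).card : ℝ) with hq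
    rw [e] at h2
    have hq0 : 0 ≤ q := Nat.cast_nonneg _
    have h3 : nu ^ 3481 * (q * (nu ^ 11 * nu)) ≤ nu ^ 3481 * (2 ^ 30 * m) := by
      have : (2 : ℝ) ^ 30 = 16 * 2 ^ 26 := by norm_num
      rw [this]; linarith
    have h4 := le_of_mul_le_mul_left h3 (by positivity)
    have h5 : (2 : ℝ) ^ 32 ≤ nu ^ 11 := by
      calc (2 : ℝ) ^ 32 ≤ (2 ^ 32) ^ 11 := by norm_num
        _ ≤ nu ^ 11 := pow_le_pow_left₀ (by norm_num) hd2 11
    have h6 : q * (2 ^ 32 * nu) ≤ q * (nu ^ 11 * nu) := by gcongr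
    have h7 : (2 : ℝ) ^ 32 = 4 * 2 ^ 30 := by norm_num
    rw [h7] at h6
    have h8 : (2 : ℝ) ^ 30 * (q * (4 * nu)) ≤ 2 ^ 30 * m := by linarith
    exact le_of_mul_le_mul_left h8 (by norm_num)
  set G := V1.filter (fun v => (c6 V1 v : ℝ) ≤ nu ^ 2495 / 16 ∧ (c8 V1 v : ℝ) ≤ nu ^ 3493 / 16) with hG
  have hGV1 : G ⊆ V1 := filter_subset _ _
  refine ⟨G, hGV1.trans hV1V, ?_, ?_, ?_⟩
  · have hsub : V \ G ⊆ V.filter (fun v => ¬ (deg V v : ℝ) ≤ nu ^ 1002)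
        ∪ (V1.filter (fun v => ¬ (c6 V1 v : ℝ) ≤ nu ^ 2495 / 16)
          ∪ V1.filter (fun v => ¬ (c8 V1 v : ℝ) ≤ nu ^ 3493 / 16)) := by
      intro v hv
      rw [mem_sdiff] at hv
      rw [mem_union, mem_union, mem_filter]
      by_cases h1 : (deg V v : ℝ) ≤ nu ^ 1002
      · right
        have hvV1 : v ∈ V1 := mem_filter.2 ⟨hv.1, h1⟩
        by_cases h2 : (c6 V1 v : ℝ) ≤ nu ^ 2495 / 16
        · by_cases h3 : (c8 V1 v : ℝ) ≤ nu ^ 3493 / 16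
          · exfalso
            apply hv.2
            rw [hG, mem_filter]
            exact ⟨hvV1, h2, h3⟩
          · exact Or.inr (mem_filter.2 ⟨hvV1, h3⟩)
        · exact Or.inl (mem_filter.2 ⟨hvV1, h2⟩)
      · exact Or.inl ⟨hv.1, h1⟩
    have h1 := card_le_card hsub
    have h2 : ((V \ G).card : ℝ) ≤ (V.filter (fun v => ¬ (deg V v : ℝ) ≤ nu ^ 1002)).card
        + ((V1.filter (fun v => ¬ (c6 V1 v : ℝ) ≤ nu ^ 2495 / 16)).card
          + (V1.filter (fun v => ¬ (c8 V1 v : ℝ) ≤ nu ^ 3493 / 16)).card) := by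
      have h3 := card_union_le (V.filter (fun v => ¬ (deg V v : ℝ) ≤ nu ^ 1002))
        (V1.filter (fun v => ¬ (c6 V1 v : ℝ) ≤ nu ^ 2495 / 16)
          ∪ V1.filter (fun v => ¬ (c8 V1 v : ℝ) ≤ nu ^ 3493 / 16))
      have h4 := card_union_le (V1.filter (fun v => ¬ (c6 V1 v : ℝ) ≤ nu ^ 2495 / 16))
        (V1.filter (fun v => ¬ (c8 V1 v : ℝ) ≤ nu ^ 3493 / 16))
      exact_mod_cast h1.trans (h3.trans (Nat.add_le_add_left h4 _))
    have h3 := mul_le_mul_of_nonneg_right h2 (by positivity : (0 : ℝ) ≤ 4 * nu)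
    linarith
  · intro v hv
    refine le_trans ?_ (mem_filter.1 hv).2.1
    exact_mod_cast c6_mono hGV1 v
  · intro v hv
    refine le_trans ?_ (mem_filter.1 hv).2.2
    exact_mod_cast c8_mono hGV1 v

/-- no three points on a line -/
def GP (S : Finset Pt) : Prop := ∀ a ∈ S, ∀ b ∈ S, ∀ c ∈ S, a ≠ b → a ≠ c → b ≠ c → ¬ col a b c

theorem weighted_aux {nu : ℝ} (hc2 : Cnd2 nu) {f : Pt → ℝ} (hf : ∀ x, 0 ≤ f x) (k : ℕ) (hk : k ≤ 1000) :
    ∀ V : Finset Pt, XI V → (V.card : ℝ) ≤ nu ^ k → (∀ L ∈ lines V, ((pl V L).card : ℝ) ^ 2 ≤ nu ^ 1000) →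
    ∃ S ⊆ V, GP S ∧ ∑ x ∈ V, f x ≤ ((k : ℝ) + 1) * (2 ^ 14 * nu ^ 500) * ∑ x ∈ S, f x := by
  have hnu1 : (1 : ℝ) ≤ nu := by linarith [hc2.d2, show (1 : ℝ) ≤ 2 ^ 32 by norm_num]
  have hnu0 : (0 : ℝ) < nu := by linarith
  have hC1 : (1 : ℝ) ≤ 2 ^ 14 * nu ^ 500 := by
    have : (1 : ℝ) ≤ nu ^ 500 := one_le_pow₀ hnu1
    nlinarith
  induction k with
  | zero =>
    intro V hx hV _
    rw [pow_zero] at hV
    have hV1 : V.card ≤ 1 := by exact_mod_cast hV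
    refine ⟨V, Subset.refl _, ?_, ?_⟩
    · intro a ha b hb c hc hab
      rw [card_le_one] at hV1
      exact absurd (hV1 a ha b hb) hab
    · push_cast
      have : 0 ≤ ∑ x ∈ V, f x := sum_nonneg (fun x _ => hf x)
      nlinarith
  | succ k ih =>
    intro V hx hV hline
    have hV' : (V.card : ℝ) ≤ nu ^ 1000 := hV.trans (pow_le_pow_right₀ hnu1 hk)
    obtain ⟨G, hGV, hG1, hG2, hG3⟩ := layer hx hc2 hV' hline
    set R := V \ G with hR
    have hRV : R ⊆ V := sdiff_subset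
    have hRc : (R.card : ℝ) ≤ nu ^ k := by
      have : (R.card : ℝ) * nu ≤ nu ^ k * nu := by
        refine hG1.trans (hV.trans (le_of_eq ?_))
        rw [pow_succ]
      exact le_of_mul_le_mul_right this hnu0
    obtain ⟨S1, hS1, hS1g, hS1s⟩ := ih (by omega) R (XI_mono hx hRV) hRc (line_mono hRV hline)
    obtain ⟨S2, hS2, hS2g, hS2s⟩ := good_case (XI_mono hx hGV) hc2.c
      ((by exact_mod_cast card_le_card hGV : (G.card : ℝ) ≤ V.card).trans hV') (line_mono hGV hline) hG2 hG3 hf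
    have hsum : ∑ x ∈ R, f x + ∑ x ∈ G, f x = ∑ x ∈ V, f x := sum_sdiff hGV
    rw [div_le_iff₀ (by positivity)] at hS2s
    set C : ℝ := 2 ^ 14 * nu ^ 500 with hC
    have hC0 : 0 < C := by linarith
    have hk0 : (0 : ℝ) ≤ k := Nat.cast_nonneg _
    by_cases h : ∑ x ∈ V, f x ≤ ((k : ℝ) + 2) * ∑ x ∈ G, f x
    · refine ⟨S2, hS2.trans hGV, hS2g, ?_⟩
      push_cast
      have h1 : ((k : ℝ) + 2) * ∑ x ∈ G, f x ≤ ((k : ℝ) + 2) * ((∑ x ∈ S2, f x) * C) :=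
        mul_le_mul_of_nonneg_left hS2s (by linarith)
      calc ∑ x ∈ V, f x ≤ ((k : ℝ) + 2) * ((∑ x ∈ S2, f x) * C) := h.trans h1
        _ = _ := by ring
    · refine ⟨S1, hS1.trans hRV, hS1g, ?_⟩
      push Not at h
      push_cast
      have h1 : ((k : ℝ) + 1) * ∑ x ∈ V, f x ≤ ((k : ℝ) + 2) * ∑ x ∈ R, f x := by nlinarith
      have h2 : ((k : ℝ) + 2) * ∑ x ∈ R, f x ≤ ((k : ℝ) + 2) * (((k : ℝ) + 1) * C * ∑ x ∈ S1, f x) :=
        mul_le_mul_of_nonneg_left hS1s (by linarith)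
      have h3 : ((k : ℝ) + 1) * ∑ x ∈ V, f x ≤ ((k : ℝ) + 1) * (((k : ℝ) + 1 + 1) * C * ∑ x ∈ S1, f x) := by
        calc ((k : ℝ) + 1) * ∑ x ∈ V, f x ≤ ((k : ℝ) + 2) * (((k : ℝ) + 1) * C * ∑ x ∈ S1, f x) := h1.trans h2
          _ = _ := by ring
      exact le_of_mul_le_mul_left h3 (by linarith)

/-- **Weighted theorem.** -/
theorem weighted : ∃ N1 : ℝ, 1 ≤ N1 ∧ ∀ N : ℝ, N1 ≤ N → ∀ V : Finset Pt, XI V → (V.card : ℝ) ≤ N →
    (∀ L ∈ lines V, ((pl V L).card : ℝ) ^ 2 ≤ N) → ∀ f : Pt → ℝ, (∀ x, 0 ≤ f x) →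
    ∃ S ⊆ V, GP S ∧ ∑ x ∈ V, f x ≤ 2 ^ 24 * Real.sqrt N * ∑ x ∈ S, f x := by
  obtain ⟨nu0, hnu0⟩ := Filter.eventually_atTop.1 cnd2_eventually
  set m := max nu0 1 with hm
  have hm1 : (1 : ℝ) ≤ m := le_max_right _ _
  refine ⟨m ^ 1000, one_le_pow₀ hm1, ?_⟩
  intro N hN V hx hV hline f hf
  have hN0 : 0 ≤ N := le_trans (by positivity) hN
  set nu : ℝ := N ^ ((1 : ℝ) / 1000) with hnu
  have hpow : nu ^ 1000 = N := by
    rw [hnu, ← Real.rpow_natCast, ← Real.rpow_mul hN0]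
    norm_num
  have hnun : 0 ≤ nu := by rw [hnu]; positivity
  have hnu_ge : nu0 ≤ nu := by
    have h1 : m ^ 1000 ≤ nu ^ 1000 := by rw [hpow]; exact hN
    have h2 : m ≤ nu := le_of_pow_le_pow_left₀ (by norm_num) hnun h1
    exact (le_max_left _ _).trans h2
  have hc := hnu0 nu hnu_ge
  have hsq : Real.sqrt N = nu ^ 500 := by
    have : N = (nu ^ 500) ^ 2 := by rw [← pow_mul, ← hpow]
    rw [this, Real.sqrt_sq (pow_nonneg hnun 500)]
  obtain ⟨S, hS1, hS2, hS3⟩ := weighted_aux hc hf 1000 le_rfl V hx (by rw [hpow]; exact hV) (by rw [hpow]; exact hline)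
  refine ⟨S, hS1, hS2, hS3.trans ?_⟩
  rw [hsq]
  push_cast
  have h0 : 0 ≤ ∑ x ∈ S, f x := sum_nonneg (fun x _ => hf x)
  apply mul_le_mul_of_nonneg_right _ h0
  have h1 : (0 : ℝ) ≤ nu ^ 500 := pow_nonneg hnun 500
  nlinarith

end Pool.Agent.W284.PW
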