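import Pool.Agent.W988.RA.Defs

/-!
# Half of the arrays in the cube are good
-/

open MeasureTheory
open scoped ENNReal BigOperators

set_option autoImplicit false
set_option linter.unusedSimpArgs false

namespace Pool.Agent.W284.RA_GOOD

open Pool.Agent.W988.RA

/-- restricted Lebesgue measure -/
noncomputable def nu (a : ℝ) : Measure ℝ := (volume : Measure ℝ).restrict (Set.Icc (-a) a)

instance (a : ℝ) : IsFiniteMeasure (nu a) := by unfold nu; infer_instance

lemma i0 (a : ℝ) (ha : 0 < a) : ∫ _x : ℝ, (1 : ℝ) ∂(nu a) = 2 * a := by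
  unfold nu
  rw [integral_Icc_eq_integral_Ioc, ← intervalIntegral.integral_of_le (by linarith)]
  simp
  ring

lemma i1 (a s : ℝ) (ha : 0 < a) : ∫ x : ℝ, (1 + x * s) ∂(nu a) = 2 * a := by
  unfold nu
  rw [integral_Icc_eq_integral_Ioc, ← intervalIntegral.integral_of_le (by linarith)]
  rw [intervalIntegral.integral_eq_sub_of_hasDerivAt (f := fun x => x + x ^ 2 / 2 * s)]
  · ring
  · intro x _
    have h1 : HasDerivAt (fun x : ℝ => x + x ^ 2 / 2 * s) (1 + (2 * x ^ 1 * 1) / 2 * s) x := by
      have := (hasDerivAt_id' x).fun_add ((((hasDerivAt_id' x).fun_pow 2).div_const 2).mul_const s)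
      simpa using this
    have h2 : (1 + (2 * x ^ 1 * 1) / 2 * s) = 1 + x * s := by ring
    rw [h2] at h1
    exact h1
  · apply Continuous.intervalIntegrable
    fun_prop

lemma i2 (a s : ℝ) (ha : 0 < a) (hs : s ^ 2 = 1) :
    ∫ x : ℝ, (1 + x * s) * (1 + x * s) ∂(nu a) = 2 * a * (1 + a ^ 2 / 3) := by
  unfold nu
  rw [integral_Icc_eq_integral_Ioc, ← intervalIntegral.integral_of_le (by linarith)]
  rw [intervalIntegral.integral_eq_sub_of_hasDerivAt (f := fun x => x + x ^ 2 * s + x ^ 3 / 3 * s ^ 2)]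
  · rw [hs]
    ring
  · intro x _
    have h1 : HasDerivAt (fun x : ℝ => x + x ^ 2 * s + x ^ 3 / 3 * s ^ 2)
        (1 + (2 * x ^ 1 * 1) * s + (3 * x ^ 2 * 1) / 3 * s ^ 2) x := by
      have := ((hasDerivAt_id' x).fun_add (((hasDerivAt_id' x).fun_pow 2).mul_const s)).fun_add
        ((((hasDerivAt_id' x).fun_pow 3).div_const 3).mul_const (s ^ 2))
      simpa using this
    have h2 : (1 + (2 * x ^ 1 * 1) * s + (3 * x ^ 2 * 1) / 3 * s ^ 2)
        = (1 + x * s) * (1 + x * s) := by ring
    rw [h2] at h1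
    exact h1
  · apply Continuous.intervalIntegrable
    fun_prop

/-- the cube -/
def QB (n m : ℕ) (a : ℝ) : Set (AR n m) := Set.univ.pi fun _ => Set.Icc (-a) a

lemma mem_QB {n m : ℕ} {a : ℝ} {H : AR n m} : H ∈ QB n m a ↔ ∀ p, |H p| ≤ a := by
  simp only [QB, Set.mem_univ_pi, Set.mem_Icc, abs_le]

lemma restr (n m : ℕ) (a : ℝ) :
    (volume : Measure (AR n m)).restrict (QB n m a) = Measure.pi (fun _ => nu a) := by
  rw [volume_pi]
  exact Measure.restrict_pi_pi (fun _ => volume) (fun _ => Set.Icc (-a) a)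

lemma sg_sq {n : ℕ} (ε : Fin n → Bool) (k : Fin n) : sg ε k ^ 2 = 1 := by
  unfold sg
  split_ifs <;> norm_num

/-- the Riesz product of a column -/
noncomputable def R {n m : ℕ} (H : AR n m) (ε : Fin n → Bool) (i : Fin m) : ℝ :=
  ∏ k, (1 + H (k, i) * sg ε k)

lemma R_eq {n m : ℕ} (H : AR n m) (ε : Fin n → Bool) (i : Fin m) :
    R H ε i = ∏ p : Fin n × Fin m, (if p.2 = i then (1 + H p * sg ε p.1) else 1) := by
  unfold R
  rw [Fintype.prod_prod_type]
  refine Finset.prod_congr rfl fun k _ => ?_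
  rw [Finset.prod_ite_eq' Finset.univ i (fun l => 1 + H (k, l) * sg ε k)]
  simp

lemma cont_R {n m : ℕ} (ε : Fin n → Bool) (i : Fin m) : Continuous (fun H : AR n m => R H ε i) := by
  unfold R
  fun_prop

lemma int_RR {n m : ℕ} (a : ℝ) (ha : 0 < a) (ε : Fin n → Bool) (i j : Fin m) :
    ∫ H in QB n m a, R H ε i * R H ε j
      = (2 * a) ^ (n * m) * (if i = j then (1 + a ^ 2 / 3) ^ n else 1) := by
  rw [restr]
  have h1 : ∀ H : AR n m, R H ε i * R H ε j = ∏ p : Fin n × Fin m,
      (fun (p : Fin n × Fin m) (x : ℝ) => (if p.2 = i then (1 + x * sg ε p.1) else 1) *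
        (if p.2 = j then (1 + x * sg ε p.1) else 1)) p (H p) := by
    intro H
    rw [R_eq, R_eq, ← Finset.prod_mul_distrib]
  rw [integral_congr_ae (Filter.Eventually.of_forall h1),
    integral_fintype_prod_eq_prod (μ := fun _ => nu a)
      (fun (p : Fin n × Fin m) (x : ℝ) => (if p.2 = i then (1 + x * sg ε p.1) else 1) *
        (if p.2 = j then (1 + x * sg ε p.1) else 1))]
  have h2 : ∀ p : Fin n × Fin m, ∫ x : ℝ, (if p.2 = i then (1 + x * sg ε p.1) else 1) *
        (if p.2 = j then (1 + x * sg ε p.1) else 1) ∂(nu a)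
      = (2 * a) * (if p.2 = i ∧ p.2 = j then (1 + a ^ 2 / 3) else 1) := by
    intro p
    by_cases hi : p.2 = i
    · by_cases hj : p.2 = j
      · simp only [hi, hj, and_self, if_true]
        have hij : i = j := hi.symm.trans hj
        subst hij
        simpa using i2 a (sg ε p.1) ha (sg_sq ε p.1)
      · have hij : i ≠ j := fun h => hj (hi.trans h)
        simp only [hi, hij, if_true, if_false, and_false, mul_one]
        exact i1 a _ ha
    · by_cases hj : p.2 = j
      · simp only [hi, hj, if_true, false_and, if_false, mul_one, one_mul]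
        have hij : ¬ j = i := fun h => hi (hj.trans h)
        simp only [hij, if_false, one_mul]
        simpa using i1 a (sg ε p.1) ha
      · simp only [hi, hj, if_false, false_and, mul_one]
        exact i0 a ha
  simp only [h2]
  rw [Finset.prod_mul_distrib, Finset.prod_const, Finset.card_univ, Fintype.card_prod,
    Fintype.card_fin, Fintype.card_fin]
  congr 1
  by_cases hij : i = j
  · subst hij
    simp only [and_self, if_true]
    rw [Fintype.prod_prod_type]
    simp
  · rw [if_neg hij]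
    refine Finset.prod_eq_one fun p _ => ?_
    rw [if_neg]
    rintro ⟨h1, h2⟩
    exact hij (h1.symm.trans h2)

lemma int_R {n m : ℕ} (a : ℝ) (ha : 0 < a) (ε : Fin n → Bool) (i : Fin m) :
    ∫ H in QB n m a, R H ε i = (2 * a) ^ (n * m) := by
  rw [restr]
  have h1 : ∀ H : AR n m, R H ε i = ∏ p : Fin n × Fin m,
      (fun (p : Fin n × Fin m) (x : ℝ) => (if p.2 = i then (1 + x * sg ε p.1) else 1)) p (H p) := by
    intro H
    rw [R_eq]
  rw [integral_congr_ae (Filter.Eventually.of_forall h1),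
    integral_fintype_prod_eq_prod (μ := fun _ => nu a)
      (fun (p : Fin n × Fin m) (x : ℝ) => (if p.2 = i then (1 + x * sg ε p.1) else 1))]
  have h2 : ∀ p : Fin n × Fin m, ∫ x : ℝ, (if p.2 = i then (1 + x * sg ε p.1) else 1) ∂(nu a)
      = 2 * a := by
    intro p
    by_cases hi : p.2 = i
    · simp only [hi, if_true]
      exact i1 a _ ha
    · simp only [hi, if_false]
      exact i0 a ha
  simp only [h2]
  rw [Finset.prod_const, Finset.card_univ, Fintype.card_prod,
    Fintype.card_fin, Fintype.card_fin]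

lemma int_one {n m : ℕ} (a : ℝ) (ha : 0 < a) :
    ∫ _H in QB n m a, (1 : ℝ) = (2 * a) ^ (n * m) := by
  rw [restr]
  have h1 : ∀ H : AR n m, (1 : ℝ) = ∏ p : Fin n × Fin m,
      (fun (_p : Fin n × Fin m) (_x : ℝ) => (1 : ℝ)) p (H p) := by
    intro H
    simp
  rw [integral_congr_ae (Filter.Eventually.of_forall h1),
    integral_fintype_prod_eq_prod (μ := fun _ => nu a)
      (fun (_p : Fin n × Fin m) (_x : ℝ) => (1 : ℝ))]
  simp only [i0 a ha]
  rw [Finset.prod_const, Finset.card_univ, Fintype.card_prod,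
    Fintype.card_fin, Fintype.card_fin]

lemma cpt (n m : ℕ) (a : ℝ) : IsCompact (QB n m a) := isCompact_univ_pi fun _ => isCompact_Icc

lemma intg {n m : ℕ} (a : ℝ) {f : AR n m → ℝ} (hf : Continuous f) :
    Integrable f (volume.restrict (QB n m a)) :=
  hf.continuousOn.integrableOn_compact (cpt n m a)

lemma int_Z {n m : ℕ} (a : ℝ) (ha : 0 < a) (ε : Fin n → Bool) :
    ∫ H in QB n m a, (ZZ H ε - m) ^ 2
      = (2 * a) ^ (n * m) * (m * ((1 + a ^ 2 / 3) ^ n - 1)) := by
  have h1 : ∀ H : AR n m, (ZZ H ε - m) ^ 2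
      = (∑ i, ∑ j, R H ε i * R H ε j) - 2 * m * (∑ i, R H ε i) + m ^ 2 * 1 := by
    intro H
    have : ZZ H ε = ∑ i, R H ε i := rfl
    rw [this, ← Finset.sum_mul_sum]
    ring
  simp_rw [h1]
  have c1 : ∀ i : Fin m, Continuous (fun H : AR n m => R H ε i) := cont_R ε
  have c2 : Continuous (fun H : AR n m => ∑ i, ∑ j, R H ε i * R H ε j) :=
    continuous_finsetSum _ fun i _ => continuous_finsetSum _ fun j _ => (c1 i).mul (c1 j)
  have c3 : Continuous (fun H : AR n m => 2 * (m : ℝ) * (∑ i, R H ε i)) :=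
    continuous_const.mul (continuous_finsetSum _ fun i _ => c1 i)
  have c5 : ∀ i j : Fin m, Continuous (fun H : AR n m => R H ε i * R H ε j) :=
    fun i j => (c1 i).mul (c1 j)
  have c6 : ∀ i : Fin m, Continuous (fun H : AR n m => ∑ j, R H ε i * R H ε j) :=
    fun i => continuous_finsetSum _ fun j _ => c5 i j
  have c4 : Continuous (fun H : AR n m => (∑ i, ∑ j, R H ε i * R H ε j)
      - 2 * (m : ℝ) * (∑ i, R H ε i)) := c2.sub c3
  rw [integral_add (intg a c4) (intg a continuous_const),
    integral_sub (intg a c2) (intg a c3), integral_const_mul, integral_const_mul, int_one a ha,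
    integral_finsetSum _ fun i _ => intg a (c6 i),
    integral_finsetSum _ fun i _ => intg a (c1 i)]
  simp_rw [int_R a ha ε]
  have h3 : ∀ i : Fin m, ∫ H in QB n m a, ∑ j, R H ε i * R H ε j
      = (2 * a) ^ (n * m) * ((m - 1) + (1 + a ^ 2 / 3) ^ n) := by
    intro i
    rw [integral_finsetSum _ fun j _ => intg a (c5 i j)]
    simp_rw [int_RR a ha ε]
    rw [← Finset.mul_sum]
    congr 1
    rw [← Finset.add_sum_erase _ _ (Finset.mem_univ i), if_pos rfl]
    have : ∑ j ∈ Finset.univ.erase i, (if i = j then (1 + a ^ 2 / 3) ^ n else 1)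
        = ∑ j ∈ Finset.univ.erase i, (1 : ℝ) :=
      Finset.sum_congr rfl fun j hj => if_neg (Finset.ne_of_mem_erase hj).symm
    rw [this, Finset.sum_const, Finset.card_erase_of_mem (Finset.mem_univ i), Finset.card_univ,
      Fintype.card_fin, nsmul_eq_mul, mul_one]
    have hm : 1 ≤ m := Nat.one_le_iff_ne_zero.2 (fun h => by subst h; exact Fin.elim0 i)
    rw [Nat.cast_sub hm, Nat.cast_one]
    ring
  simp_rw [h3]
  simp only [Finset.sum_const, Finset.card_univ, Fintype.card_fin, nsmul_eq_mul]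
  ring

theorem result : S_GOOD := by
  intro n m L hn hm hL hLn hbig
  have hn' : (0 : ℝ) < n := by exact_mod_cast hn
  have hm' : (0 : ℝ) < m := by exact_mod_cast hm
  have hsq : 0 < Real.sqrt n := Real.sqrt_pos.2 hn'
  set a : ℝ := L / Real.sqrt n with ha
  have hapos : 0 < a := div_pos hL hsq
  have ha2 : a ^ 2 = L ^ 2 / n := by rw [ha, div_pow, Real.sq_sqrt hn'.le]
  set V : ℝ := (2 * a) ^ (n * m) with hV
  have hVpos : 0 < V := by positivity
  set c1 : ℝ := 27 * Real.exp (2 * L ^ 2) with hc1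
  have hc1pos : 0 < c1 := by positivity
  have hpw : (1 + a ^ 2 / 3) ^ n - 1 ≤ Real.exp (L ^ 2) := by
    have h1 : (1 + a ^ 2 / 3) ^ n ≤ Real.exp (L ^ 2 / 3) := by
      calc (1 + a ^ 2 / 3) ^ n ≤ (Real.exp (a ^ 2 / 3)) ^ n := by
            gcongr
            have := Real.add_one_le_exp (a ^ 2 / 3)
            linarith
        _ = Real.exp (L ^ 2 / 3) := by
            rw [← Real.exp_nat_mul, ha2]
            congr 1
            field_simp
    have h2 : Real.exp (L ^ 2 / 3) ≤ Real.exp (L ^ 2) := by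
      apply Real.exp_le_exp.2
      nlinarith [sq_nonneg L]
    linarith
  -- the comparison function
  let G : AR n m → ℝ := fun H => c1 * ((∑ ε : Fin n → Bool, (ZZ H ε - m) ^ 2 / (m : ℝ) ^ 2) / 2 ^ n)
  have hZc : ∀ ε : Fin n → Bool, Continuous (fun H : AR n m => ZZ H ε) := fun ε =>
    continuous_finsetSum _ fun i _ => cont_R ε i
  have hGc : Continuous G := by
    refine continuous_const.mul ((continuous_finsetSum _ fun ε _ => ?_).div_const _)
    exact (((hZc ε).sub continuous_const).pow 2).div_const _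
  have hG0 : ∀ H, 0 ≤ G H := fun H => by positivity
  have hfG : ∀ H : AR n m, c1 * frac H ≤ G H := by
    intro H
    refine mul_le_mul_of_nonneg_left ?_ hc1pos.le
    unfold frac av
    refine div_le_div_of_nonneg_right (Finset.sum_le_sum fun ε _ => ?_) (by positivity)
    by_cases h : 2 * (m : ℝ) < ZZ H ε
    rotate_left
    · simp only [h, if_false]
      positivity
    simp only [h, if_true]
    · rw [le_div_iff₀ (by positivity), one_mul]
      have : (m : ℝ) ≤ ZZ H ε - m := by linarith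
      exact pow_le_pow_left₀ hm'.le this 2
  have hGint : ∫ H in QB n m a, G H ≤ V / 2 := by
    have h1 : ∫ H in QB n m a, G H
        = c1 * ((∑ _ε : Fin n → Bool, V * (m * ((1 + a ^ 2 / 3) ^ n - 1)) / (m : ℝ) ^ 2) / 2 ^ n) := by
      change ∫ H in QB n m a, c1 * ((∑ ε : Fin n → Bool, (ZZ H ε - m) ^ 2 / (m : ℝ) ^ 2) / 2 ^ n) = _
      have hz : ∀ ε : Fin n → Bool, ∫ H in QB n m a, (ZZ H ε - m) ^ 2 / (m : ℝ) ^ 2
          = V * (m * ((1 + a ^ 2 / 3) ^ n - 1)) / (m : ℝ) ^ 2 := fun ε => by
        rw [integral_div, int_Z a hapos ε]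
      rw [integral_const_mul, integral_div, integral_finsetSum]
      · rw [Finset.sum_congr rfl fun ε _ => hz ε]
      · intro ε _
        exact intg a ((((hZc ε).sub continuous_const).pow 2).div_const _)
    rw [h1, Finset.sum_const, Finset.card_univ, Fintype.card_fun, Fintype.card_bool,
      Fintype.card_fin, nsmul_eq_mul]
    push_cast
    have h2 : (2 : ℝ) ^ n * (V * (m * ((1 + a ^ 2 / 3) ^ n - 1)) / (m : ℝ) ^ 2) / 2 ^ n
        = V * ((1 + a ^ 2 / 3) ^ n - 1) / m := by
      field_simp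
    rw [h2]
    have h3 : c1 * (V * ((1 + a ^ 2 / 3) ^ n - 1) / m) ≤ c1 * (V * Real.exp (L ^ 2) / m) := by
      gcongr
    refine h3.trans ?_
    have h4 : c1 * (V * Real.exp (L ^ 2) / m) = V * (27 * Real.exp (3 * L ^ 2)) / m := by
      have : Real.exp (3 * L ^ 2) = Real.exp (2 * L ^ 2) * Real.exp (L ^ 2) := by
        rw [← Real.exp_add]
        congr 1
        ring
      rw [hc1, this]
      ring
    rw [h4, div_le_div_iff₀ hm' (by norm_num)]
    nlinarith
  set μ : Measure (AR n m) := volume.restrict (QB n m a) with hμ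
  have : IsFiniteMeasure μ := ⟨by
    rw [hμ, Measure.restrict_apply_univ]
    exact (cpt n m a).measure_lt_top⟩
  have hmark := mul_meas_ge_le_integral_of_nonneg (μ := μ) (f := G)
    (Filter.Eventually.of_forall hG0) (intg a hGc) 1
  rw [one_mul] at hmark
  have huniv : μ.real Set.univ = V := by
    have := int_one (n := n) (m := m) a hapos
    rw [integral_const, smul_eq_mul, mul_one] at this
    exact this
  have hms : MeasurableSet {H : AR n m | (1 : ℝ) ≤ G H} :=
    measurableSet_le measurable_const hGc.measurable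
  have hcompl : μ.real {H : AR n m | (1 : ℝ) ≤ G H}ᶜ = V - μ.real {H : AR n m | (1 : ℝ) ≤ G H} := by
    rw [measureReal_compl hms, huniv]
  have hge : V / 2 ≤ μ.real {H : AR n m | (1 : ℝ) ≤ G H}ᶜ := by
    rw [hcompl]
    linarith
  have hfinal : μ {H : AR n m | (1 : ℝ) ≤ G H}ᶜ ≤
      volume {H : AR n m | (∀ p, |H p| ≤ L / Real.sqrt n) ∧
        27 * Real.exp (2 * L ^ 2) * frac H ≤ 1} := by
    rw [hμ, Measure.restrict_apply hms.compl]
    apply measure_mono
    rintro H ⟨h1, h2⟩
    refine ⟨mem_QB.1 h2, ?_⟩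
    have h3 : G H < 1 := by
      simpa using h1
    exact (hfG H).trans h3.le
  refine le_trans ?_ hfinal
  rw [ENNReal.ofReal_le_iff_le_toReal (measure_ne_top _ _)]
  refine le_trans (le_of_eq ?_) hge
  rw [hV, ha]
  ring

end Pool.Agent.W284.RA_GOOD
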