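import Pool.Agent.W284.Cnt

set_option autoImplicit false

/-! Ordering by degeneracy, and the weighted sampling lemma. -/

namespace Pool.Agent.W284.PW

open Finset Pool.Agent.Helper64.Gow Pool.Agent.Helper64.Res
open scoped Classical

/-- number of collinear (ordered) pairs which come earlier than `z` -/
noncomputable def od (V : Finset Pt) (rk : Pt → ℕ) (z : Pt) : ℕ :=
  ((V ×ˢ V).filter (fun q => (rk q.1 < rk z ∧ rk q.2 < rk z) ∧ z ≠ q.1 ∧ q.2 ≠ z ∧ q.2 ≠ q.1 ∧ col z q.1 q.2)).card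

lemma deg_eq (W : Finset Pt) (z : Pt) :
    deg W z = ((W ×ˢ W).filter (fun q => z ≠ q.1 ∧ q.2 ≠ z ∧ q.2 ≠ q.1 ∧ col z q.1 q.2)).card := by
  unfold deg ll
  simp only [card_filter, sum_product]

lemma od_le_deg (V : Finset Pt) (rk : Pt → ℕ) (z : Pt) : od V rk z ≤ deg V z := by
  rw [deg_eq]
  apply card_le_card
  intro q hq
  rw [mem_filter] at hq ⊢
  exact ⟨hq.1, hq.2.2⟩

lemma exists_rank_aux {D0 : ℝ} (n : ℕ) : ∀ V : Finset Pt, V.card = n →
    (∀ W ⊆ V, (Tr W : ℝ) ≤ W.card * D0) →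
    ∃ rk : Pt → ℕ, Set.InjOn rk (V : Set Pt) ∧ (∀ v ∈ V, rk v < n) ∧ ∀ v ∈ V, (od V rk v : ℝ) ≤ D0 := by
  induction n with
  | zero =>
    intro V hV _
    have : V = ∅ := card_eq_zero.1 hV
    subst this
    exact ⟨fun _ => 0, by simp, by simp, by simp⟩
  | succ n ih =>
    intro V hV h
    have hne : V.Nonempty := by rw [← card_pos]; omega
    obtain ⟨v, hv, hvd⟩ : ∃ v ∈ V, (deg V v : ℝ) ≤ D0 := by
      by_contra hcon
      push Not at hcon
      have h1 := h V (Subset.refl _)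
      have h2 : ∑ a ∈ V, D0 < ∑ a ∈ V, (deg V a : ℝ) := sum_lt_sum_of_nonempty hne hcon
      rw [sum_const, nsmul_eq_mul] at h2
      unfold Tr at h1
      push_cast at h1
      linarith
    have hc : (V.erase v).card = n := by rw [card_erase_of_mem hv, hV]; rfl
    obtain ⟨rk', i1, i2, i3⟩ := ih (V.erase v) hc (fun W hW => h W (hW.trans (erase_subset _ _)))
    have hrk : ∀ x, x ≠ v → (if x = v then n else rk' x) = rk' x := fun x hx => if_neg hx
    refine ⟨fun x => if x = v then n else rk' x, ?_, ?_, ?_⟩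
    · intro x hx y hy hxy
      simp only at hxy
      by_cases h1 : x = v
      · by_cases h2 : y = v
        · rw [h1, h2]
        · rw [if_pos h1, if_neg h2] at hxy
          have := i2 y (mem_erase.2 ⟨h2, hy⟩)
          omega
      · by_cases h2 : y = v
        · rw [if_neg h1, if_pos h2] at hxy
          have := i2 x (mem_erase.2 ⟨h1, hx⟩)
          omega
        · rw [if_neg h1, if_neg h2] at hxy
          exact i1 (mem_coe.2 (mem_erase.2 ⟨h1, hx⟩)) (mem_coe.2 (mem_erase.2 ⟨h2, hy⟩)) hxy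
    · intro x hx
      simp only
      split_ifs with h1
      · omega
      · have := i2 x (mem_erase.2 ⟨h1, hx⟩)
        omega
    · intro z hz
      by_cases hzv : z = v
      · rw [hzv]
        refine le_trans ?_ hvd
        exact_mod_cast od_le_deg V _ v
      · refine le_trans ?_ (i3 z (mem_erase.2 ⟨hzv, hz⟩))
        have : od V (fun x => if x = v then n else rk' x) z ≤ od (V.erase v) rk' z := by
          unfold od
          apply card_le_card
          intro q hq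
          rw [mem_filter, mem_product] at hq ⊢
          simp only at hq
          obtain ⟨⟨h1, h2⟩, ⟨h3, h4⟩, h5⟩ := hq
          have hzr := i2 z (mem_erase.2 ⟨hzv, hz⟩)
          rw [if_neg hzv] at h3 h4
          have n1 : q.1 ≠ v := by
            intro hh
            rw [if_pos hh] at h3
            omega
          have n2 : q.2 ≠ v := by
            intro hh
            rw [if_pos hh] at h4
            omega
          rw [if_neg n1] at h3
          rw [if_neg n2] at h4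
          exact ⟨⟨mem_erase.2 ⟨n1, h1⟩, mem_erase.2 ⟨n2, h2⟩⟩, ⟨h3, h4⟩, h5⟩
        exact_mod_cast this

lemma exists_rank {D0 : ℝ} {V : Finset Pt} (h : ∀ W ⊆ V, (Tr W : ℝ) ≤ W.card * D0) :
    ∃ rk : Pt → ℕ, Set.InjOn rk (V : Set Pt) ∧ ∀ v ∈ V, (od V rk v : ℝ) ≤ D0 := by
  obtain ⟨rk, h1, _, h3⟩ := exists_rank_aux V.card V rfl h
  exact ⟨rk, h1, h3⟩

noncomputable def trO (V : Finset Pt) (rk : Pt → ℕ) : Finset (Pt × Pt × Pt) :=
  (trs V).filter (fun q => rk q.2.1 < rk q.1 ∧ rk q.2.2 < rk q.1)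

lemma trO_fiber (V : Finset Pt) (rk : Pt → ℕ) {z : Pt} (hz : z ∈ V) :
    ((trO V rk).filter (fun q => q.1 = z)).card = od V rk z := by
  unfold od
  apply card_bij (fun q _ => q.2)
  · rintro ⟨a, b, c⟩ hq
    unfold trO trs at hq
    simp only [mem_filter, mem_product] at hq
    obtain ⟨⟨⟨⟨h1, h2, h3⟩, h4, h5, h6, h7⟩, h8, h9⟩, h10⟩ := hq
    subst h10
    simp only [mem_filter, mem_product]
    exact ⟨⟨h2, h3⟩, ⟨h8, h9⟩, h4, h5, h6, h7⟩
  · rintro ⟨a, b, c⟩ hq ⟨a', b', c'⟩ hq' h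
    rw [mem_filter] at hq hq'
    have e1 : a = z := hq.2
    have e2 : a' = z := hq'.2
    simp only [Prod.mk.injEq] at h
    rw [e1, e2, h.1, h.2]
  · rintro ⟨b, c⟩ hq
    simp only [mem_filter, mem_product] at hq
    obtain ⟨⟨h2, h3⟩, ⟨h8, h9⟩, h4, h5, h6, h7⟩ := hq
    refine ⟨(z, b, c), ?_, rfl⟩
    unfold trO trs
    simp only [mem_filter, mem_product]
    exact ⟨⟨⟨⟨hz, h2, h3⟩, h4, h5, h6, h7⟩, h8, h9⟩, trivial⟩

lemma trO_sum (V : Finset Pt) (rk : Pt → ℕ) (f : Pt → ℝ) :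
    ∑ q ∈ trO V rk, f q.1 = ∑ z ∈ V, f z * (od V rk z : ℝ) := by
  rw [← sum_fiberwise_of_maps_to (t := V) (g := fun q => q.1)]
  · apply sum_congr rfl
    intro z hz
    rw [← trO_fiber V rk hz, sum_congr rfl (fun q hq => by rw [(mem_filter.1 hq).2] : ∀ q ∈ (trO V rk).filter (fun q => q.1 = z), f q.1 = f z),
      sum_const, nsmul_eq_mul, mul_comm]
  · intro q hq
    unfold trO trs at hq
    simp only [mem_filter, mem_product] at hq
    exact hq.1.1.1

lemma trO_sub {V R : Finset Pt} (rk : Pt → ℕ) (hR : R ⊆ V) :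
    trO R rk ⊆ (trO V rk).filter (fun q => st3 q ⊆ R) := by
  intro q hq
  unfold trO trs at hq ⊢
  simp only [mem_filter, mem_product] at hq ⊢
  obtain ⟨⟨⟨h1, h2, h3⟩, h4⟩, h5⟩ := hq
  refine ⟨⟨⟨⟨hR h1, hR h2, hR h3⟩, h4⟩, h5⟩, ?_⟩
  unfold st3
  intro p hp
  simp only [mem_insert, mem_singleton] at hp
  rcases hp with rfl | rfl | rfl <;> assumption

/-- weight of an image -/
lemma sum_image_le' {ι : Type*} (F : Finset ι) (g : ι → Pt) {f : Pt → ℝ} (hf : ∀ x, 0 ≤ f x) :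
    ∑ x ∈ F.image g, f x ≤ ∑ s ∈ F, f (g s) := by
  rw [← sum_fiberwise_of_maps_to (s := F) (t := F.image g) (g := g) (fun s hs => mem_image_of_mem _ hs)]
  apply sum_le_sum
  intro x hx
  rw [mem_image] at hx
  obtain ⟨s, hs, rfl⟩ := hx
  exact single_le_sum (f := fun i => f (g i)) (fun i _ => hf _) (mem_filter.2 ⟨hs, rfl⟩)

noncomputable def c6 (V : Finset Pt) (v : Pt) : ℕ := ((S6 V).filter (fun s => s.1.1 = v)).card
noncomputable def c8 (V : Finset Pt) (v : Pt) : ℕ := ((S8 V).filter (fun s => s.1.1 = v)).card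

lemma S6_mem {V : Finset Pt} {s : (Pt × Pt × Pt) × (Pt × Pt × Pt)} (h : s ∈ S6 V) : s.1.1 ∈ V := by
  unfold S6 at h
  rw [mem_biUnion] at h
  obtain ⟨t, ht, hs⟩ := h
  rw [mem_product, mem_singleton] at hs
  rw [hs.1]
  unfold N3 at ht
  simp only [mem_filter, mem_product] at ht
  exact ht.1.1

lemma S8_mem {V : Finset Pt} {s : (Pt × Pt × Pt × Pt) × (Pt × Pt × Pt × Pt)} (h : s ∈ S8 V) : s.1.1 ∈ V := by
  unfold S8 at h
  rw [mem_biUnion] at h
  obtain ⟨t, ht, hs⟩ := h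
  rw [mem_product, mem_singleton] at hs
  rw [hs.1]
  unfold N4 at ht
  simp only [mem_filter, mem_product] at ht
  exact ht.1.1

lemma S6_wsum {V : Finset Pt} {f : Pt → ℝ} (hf : ∀ x, 0 ≤ f x) {c : ℝ} (hc : ∀ v ∈ V, (c6 V v : ℝ) ≤ c) :
    ∑ s ∈ R6 V, f s.1.1 ≤ (∑ v ∈ V, f v) * c := by
  calc ∑ s ∈ R6 V, f s.1.1 ≤ ∑ s ∈ S6 V, f s.1.1 :=
        sum_le_sum_of_subset_of_nonneg (filter_subset _ _) (fun s _ _ => hf _)
    _ = ∑ v ∈ V, ∑ s ∈ (S6 V).filter (fun s => s.1.1 = v), f s.1.1 :=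
        (sum_fiberwise_of_maps_to (fun s hs => S6_mem hs) _).symm
    _ = ∑ v ∈ V, f v * (c6 V v : ℝ) := by
        apply sum_congr rfl
        intro v _
        rw [sum_congr rfl (fun s hs => by rw [(mem_filter.1 hs).2] :
          ∀ s ∈ (S6 V).filter (fun s => s.1.1 = v), f s.1.1 = f v), sum_const, nsmul_eq_mul, mul_comm]
        rfl
    _ ≤ ∑ v ∈ V, f v * c := sum_le_sum (fun v hv => mul_le_mul_of_nonneg_left (hc v hv) (hf v))
    _ = _ := by rw [sum_mul]

lemma S8_wsum {V : Finset Pt} {f : Pt → ℝ} (hf : ∀ x, 0 ≤ f x) {c : ℝ} (hc : ∀ v ∈ V, (c8 V v : ℝ) ≤ c) :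
    ∑ s ∈ R8 V, f s.1.1 ≤ (∑ v ∈ V, f v) * c := by
  calc ∑ s ∈ R8 V, f s.1.1 ≤ ∑ s ∈ S8 V, f s.1.1 :=
        sum_le_sum_of_subset_of_nonneg (filter_subset _ _) (fun s _ _ => hf _)
    _ = ∑ v ∈ V, ∑ s ∈ (S8 V).filter (fun s => s.1.1 = v), f s.1.1 :=
        (sum_fiberwise_of_maps_to (fun s hs => S8_mem hs) _).symm
    _ = ∑ v ∈ V, f v * (c8 V v : ℝ) := by
        apply sum_congr rfl
        intro v _
        rw [sum_congr rfl (fun s hs => by rw [(mem_filter.1 hs).2] :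
          ∀ s ∈ (S8 V).filter (fun s => s.1.1 = v), f s.1.1 = f v), sum_const, nsmul_eq_mul, mul_comm]
        rfl
    _ ≤ ∑ v ∈ V, f v * c := sum_le_sum (fun v hv => mul_le_mul_of_nonneg_left (hc v hv) (hf v))
    _ = _ := by rw [sum_mul]

/-- the functional -/
noncomputable def Phw (V : Finset Pt) (rk : Pt → ℕ) (f : Pt → ℝ) (K : ℕ) (al : ℝ) (R : Finset Pt) : ℝ :=
  ∑ s ∈ R6 V, f s.1.1 * ind (st6 s) R + ∑ s ∈ R8 V, f s.1.1 * ind (st8 s) R
    + al * ∑ q ∈ trO V rk, f q.1 * ind (st3 q) R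
    + (∑ x ∈ V, f x) * ∑ T ∈ LK V K, ind T R + (-1) * ∑ x ∈ V, f x * ind {x} R

lemma Phw_exp {V : Finset Pt} {rk : Pt → ℕ} {f : Pt → ℝ} {K : ℕ} {al p : ℝ} :
    EE V (fun _ => p) (Phw V rk f K al) = p ^ 6 * ∑ s ∈ R6 V, f s.1.1 + p ^ 8 * ∑ s ∈ R8 V, f s.1.1
      + al * (p ^ 3 * ∑ q ∈ trO V rk, f q.1)
      + (∑ x ∈ V, f x) * (p ^ K * (LK V K).card) + (-1) * (p * ∑ x ∈ V, f x) := by
  unfold Phw
  rw [EE_add, EE_add, EE_add, EE_add, EE_mul, EE_mul, EE_mul, EE_sum, EE_sum, EE_sum, EE_sum, EE_sum]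
  have k6 : ∑ s ∈ R6 V, EE V (fun _ => p) (fun R => f s.1.1 * ind (st6 s) R) = p ^ 6 * ∑ s ∈ R6 V, f s.1.1 := by
    rw [mul_sum]
    apply sum_congr rfl
    intro s hs
    rw [EE_mul, EE_ind_const (mem_filter.1 hs).2.2 (mem_filter.1 hs).2.1, mul_comm]
  have k8 : ∑ s ∈ R8 V, EE V (fun _ => p) (fun R => f s.1.1 * ind (st8 s) R) = p ^ 8 * ∑ s ∈ R8 V, f s.1.1 := by
    rw [mul_sum]
    apply sum_congr rfl
    intro s hs
    rw [EE_mul, EE_ind_const (mem_filter.1 hs).2.2 (mem_filter.1 hs).2.1, mul_comm]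
  have k3 : ∑ q ∈ trO V rk, EE V (fun _ => p) (fun R => f q.1 * ind (st3 q) R) = p ^ 3 * ∑ q ∈ trO V rk, f q.1 := by
    rw [mul_sum]
    apply sum_congr rfl
    intro s hs
    have hs' : s ∈ trs V := (mem_filter.1 hs).1
    rw [EE_mul, EE_ind_const (st3_card hs').2 (st3_card hs').1, mul_comm]
  have kK : ∑ T ∈ LK V K, EE V (fun _ => p) (ind T) = p ^ K * (LK V K).card := by
    rw [sum_congr rfl (fun s hs => EE_ind_const (mem_LK hs).1 (mem_LK hs).2), sum_const,
      nsmul_eq_mul, mul_comm]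
  have k1 : ∑ x ∈ V, EE V (fun _ => p) (fun R => f x * ind {x} R) = p * ∑ x ∈ V, f x := by
    rw [mul_sum]
    apply sum_congr rfl
    intro x hx
    rw [EE_mul, EE_ind_const (singleton_subset_iff.2 hx) (card_singleton x), pow_one, mul_comm]
  rw [k6, k8, k3, kK, k1]

structure SampW (V W : Finset Pt) (rk : Pt → ℕ) (f : Pt → ℝ) (p D0 : ℝ) (K : ℕ) : Prop where
  sub : W ⊆ V
  big : p * (∑ x ∈ V, f x) / 2 ≤ ∑ x ∈ W, f x
  deg : ∀ z ∈ W, (od W rk z : ℝ) ≤ 4 * p ^ 2 * D0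
  line : ∀ L ∈ lines V, (pl W L).card < K
  notri : ∀ a ∈ W, ∀ b ∈ W, ∀ c ∈ W, ∀ e ∈ W, ∀ f ∈ W, ∀ g ∈ W, ¬ col a b c → e ≠ a → e ≠ b → col a b e →
    f ≠ b → f ≠ c → col b c f → g ≠ a → g ≠ c → col a c g → False
  noquad : ∀ a ∈ W, ∀ b ∈ W, ∀ c ∈ W, ∀ d ∈ W, ∀ e ∈ W, ∀ f ∈ W, ∀ g ∈ W, ∀ h ∈ W,
    ¬ col a b c → ¬ col b c d → ¬ col c d a → ¬ col d a b → e ≠ a → e ≠ b → col a b e →
    f ≠ b → f ≠ c → col b c f → g ≠ c → g ≠ d → col c d g → h ≠ d → h ≠ a → col d a h → False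

lemma ind_filter_sum {ι : Type*} (F : Finset ι) (g : ι → Finset Pt) (f : ι → ℝ) (R : Finset Pt) :
    ∑ s ∈ F, f s * ind (g s) R = ∑ s ∈ F.filter (fun s => g s ⊆ R), f s := by
  rw [sum_filter]
  apply sum_congr rfl
  intro s _
  unfold ind
  split_ifs <;> simp

lemma od_mono {V W : Finset Pt} (h : W ⊆ V) (rk : Pt → ℕ) (z : Pt) : od W rk z ≤ od V rk z :=
  card_le_card (filter_subset_filter _ (product_subset_product h h))

theorem sampleW {V : Finset Pt} {rk : Pt → ℕ} {f : Pt → ℝ} (hf : ∀ x, 0 ≤ f x) (hfpos : 0 < ∑ x ∈ V, f x)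
    {B K : ℕ} (hB : ∀ L ∈ lines V, (pl V L).card ≤ B) {p D0 : ℝ}
    (hD : ∀ a ∈ V, (od V rk a : ℝ) ≤ D0) (hD0 : 0 < D0) (hp0 : 0 < p) (hp1 : p ≤ 1)
    (h6 : ∀ v ∈ V, (c6 V v : ℝ) ≤ 1 / (16 * p ^ 5)) (h8 : ∀ v ∈ V, (c8 V v : ℝ) ≤ 1 / (16 * p ^ 7))
    (hK : p ^ K * ((V.card : ℝ) ^ 2 * (B.choose K : ℝ)) ≤ p / 32) :
    ∃ W, SampW V W rk f p D0 K := by
  set Om := ∑ x ∈ V, f x with hOm
  have hpV : 0 < p * Om := by positivity
  set al : ℝ := 1 / (4 * p ^ 2 * D0) with hal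
  have hal0 : 0 < al := by rw [hal]; positivity
  have hE : EE V (fun _ => p) (Phw V rk f K al) < - (p * Om / 2) := by
    rw [Phw_exp]
    have t6 : p ^ 6 * ∑ s ∈ R6 V, f s.1.1 ≤ p * Om / 16 := by
      calc p ^ 6 * ∑ s ∈ R6 V, f s.1.1 ≤ p ^ 6 * (Om * (1 / (16 * p ^ 5))) :=
            mul_le_mul_of_nonneg_left (S6_wsum hf h6) (by positivity)
        _ = p * Om / 16 := by field_simp
    have t8 : p ^ 8 * ∑ s ∈ R8 V, f s.1.1 ≤ p * Om / 16 := by
      calc p ^ 8 * ∑ s ∈ R8 V, f s.1.1 ≤ p ^ 8 * (Om * (1 / (16 * p ^ 7))) :=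
            mul_le_mul_of_nonneg_left (S8_wsum hf h8) (by positivity)
        _ = p * Om / 16 := by field_simp
    have tT : al * (p ^ 3 * ∑ q ∈ trO V rk, f q.1) ≤ p * Om / 4 := by
      have h1 : ∑ q ∈ trO V rk, f q.1 ≤ Om * D0 := by
        rw [trO_sum, hOm, sum_mul]
        exact sum_le_sum (fun z hz => mul_le_mul_of_nonneg_left (hD z hz) (hf z))
      calc al * (p ^ 3 * ∑ q ∈ trO V rk, f q.1) ≤ al * (p ^ 3 * (Om * D0)) := by
            apply mul_le_mul_of_nonneg_left _ hal0.le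
            apply mul_le_mul_of_nonneg_left h1 (by positivity)
        _ = p * Om / 4 := by rw [hal]; field_simp
    have tK : Om * (p ^ K * ((LK V K).card : ℝ)) ≤ p * Om / 32 := by
      have h1 : p ^ K * ((LK V K).card : ℝ) ≤ p / 32 := by
        refine le_trans ?_ hK
        apply mul_le_mul_of_nonneg_left _ (by positivity)
        exact_mod_cast LK_card hB
      have := mul_le_mul_of_nonneg_left h1 hfpos.le
      linarith
    linarith
  obtain ⟨R, hR, hPR⟩ := exists_lt (fun _ _ => hp0.le) (fun _ _ => hp1) hE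
  unfold Phw at hPR
  rw [ind_filter_sum, ind_filter_sum, ind_filter_sum, ind_filter_sum V] at hPR
  have hRsum : ∑ x ∈ V.filter (fun x => ({x} : Finset Pt) ⊆ R), f x = ∑ x ∈ R, f x := by
    apply sum_congr _ (fun _ _ => rfl)
    ext x
    rw [mem_filter, singleton_subset_iff]
    exact ⟨fun h => h.2, fun h => ⟨hR h, h⟩⟩
  rw [hRsum] at hPR
  set b3 := ((R6 V).filter (fun s => st6 s ⊆ R)).image (fun s => s.1.1) with hb3
  set b4 := ((R8 V).filter (fun s => st8 s ⊆ R)).image (fun s => s.1.1) with hb4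
  set bT := R.filter (fun z => ¬ (od R rk z : ℝ) ≤ 4 * p ^ 2 * D0) with hbT
  have c3 : ∑ x ∈ b3, f x ≤ ∑ s ∈ (R6 V).filter (fun s => st6 s ⊆ R), f s.1.1 := sum_image_le' _ _ hf
  have c4 : ∑ x ∈ b4, f x ≤ ∑ s ∈ (R8 V).filter (fun s => st8 s ⊆ R), f s.1.1 := sum_image_le' _ _ hf
  have cT : ∑ x ∈ bT, f x ≤ al * ∑ q ∈ (trO V rk).filter (fun q => st3 q ⊆ R), f q.1 := by
    have h1 : (∑ x ∈ bT, f x) * (4 * p ^ 2 * D0) ≤ ∑ q ∈ (trO V rk).filter (fun q => st3 q ⊆ R), f q.1 := by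
      calc (∑ x ∈ bT, f x) * (4 * p ^ 2 * D0) = ∑ z ∈ bT, f z * (4 * p ^ 2 * D0) := by rw [sum_mul]
        _ ≤ ∑ z ∈ bT, f z * (od R rk z : ℝ) := by
            apply sum_le_sum
            intro z hz
            have := (mem_filter.1 hz).2
            push Not at this
            exact mul_le_mul_of_nonneg_left this.le (hf z)
        _ ≤ ∑ z ∈ R, f z * (od R rk z : ℝ) := by
            apply sum_le_sum_of_subset_of_nonneg (filter_subset _ _)
            intro a _ _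
            exact mul_nonneg (hf a) (Nat.cast_nonneg _)
        _ = ∑ q ∈ trO R rk, f q.1 := (trO_sum R rk f).symm
        _ ≤ _ := sum_le_sum_of_subset_of_nonneg (trO_sub rk hR) (fun q _ _ => hf _)
    rw [hal, one_div_mul_eq_div, le_div_iff₀ (by positivity)]
    exact h1
  have n3 : 0 ≤ ∑ s ∈ (R6 V).filter (fun s => st6 s ⊆ R), f s.1.1 := sum_nonneg (fun _ _ => hf _)
  have n4 : 0 ≤ ∑ s ∈ (R8 V).filter (fun s => st8 s ⊆ R), f s.1.1 := sum_nonneg (fun _ _ => hf _)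
  have nT : 0 ≤ al * ∑ q ∈ (trO V rk).filter (fun q => st3 q ⊆ R), f q.1 :=
    mul_nonneg hal0.le (sum_nonneg (fun _ _ => hf _))
  have hXL : ∀ T ∈ LK V K, ¬ T ⊆ R := by
    intro T hT hTR
    have h1 : (1 : ℝ) ≤ ∑ T ∈ LK V K, ind T R := by
      rw [← card_filter_ind]
      have : 0 < ((LK V K).filter (fun T => T ⊆ R)).card := card_pos.2 ⟨T, mem_filter.2 ⟨hT, hTR⟩⟩
      exact_mod_cast this
    have h2 : ∑ x ∈ R, f x ≤ Om := sum_le_sum_of_subset_of_nonneg hR (fun x _ _ => hf x)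
    have h3 : Om * 1 ≤ Om * ∑ T ∈ LK V K, ind T R :=
      mul_le_mul_of_nonneg_left h1 hfpos.le
    linarith
  have hXL0 : (0 : ℝ) ≤ Om * ∑ T ∈ LK V K, ind T R := by
    apply mul_nonneg hfpos.le
    exact sum_nonneg (fun T _ => ind_nonneg _ _)
  set W := R \ (b3 ∪ (b4 ∪ bT)) with hW
  have hWR : W ⊆ R := sdiff_subset
  have hWn : ∀ a ∈ W, a ∉ b3 ∧ a ∉ b4 ∧ a ∉ bT := by
    intro a ha
    have := (mem_sdiff.1 ha).2
    rw [mem_union, mem_union, not_or, not_or] at this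
    exact this
  have hnotri : ∀ a ∈ W, ∀ b ∈ W, ∀ c ∈ W, ∀ e ∈ W, ∀ f ∈ W, ∀ g ∈ W, ¬ col a b c → e ≠ a → e ≠ b → col a b e →
    f ≠ b → f ≠ c → col b c f → g ≠ a → g ≠ c → col a c g → False := by
    intro a ha b hb c hc e he f hf g hg hn h1 h2 h3 h4 h5 h6' h7 h8' h9
    obtain ⟨n1, n2, n3⟩ := ne_of_ncol hn
    apply (hWn a ha).1
    rw [hb3, mem_image]
    refine ⟨((a, b, c), (f, g, e)), ?_, rfl⟩
    have hsub : st6 ((a, b, c), (f, g, e)) ⊆ R := by
      unfold st6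
      intro p hp
      simp only [mem_insert, mem_singleton] at hp
      rcases hp with rfl | rfl | rfl | rfl | rfl | rfl <;> apply hWR <;> assumption
    unfold R6
    rw [mem_filter, mem_filter]
    refine ⟨⟨?_, ?_, hsub.trans hR⟩, hsub⟩
    · unfold S6
      rw [mem_biUnion]
      refine ⟨(a, b, c), mem_N3.2 ⟨⟨hR (hWR ha), hR (hWR hb), hR (hWR hc)⟩, hn⟩, ?_⟩
      rw [mem_product, mem_product, mem_product, mem_singleton]
      refine ⟨rfl, ?_, ?_, ?_⟩
      · exact mem_third.2 ⟨hR (hWR hf), n2, h4, h5, h6'⟩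
      · exact mem_third.2 ⟨hR (hWR hg), n3.symm, h8', h7, col_12 h9⟩
      · exact mem_third.2 ⟨hR (hWR he), n1, h1, h2, h3⟩
    · unfold st6
      simp only
      have af : a ≠ f := fun h => hn (by rw [h]; exact col_12 (col_23 (by rw [h] at n1 n3; exact h6')))
      have bg : b ≠ g := fun h => hn (by rw [h]; exact col_23 h9)
      have ce : c ≠ e := fun h => hn (by rw [h]; exact h3)
      have fg : f ≠ g := by
        intro h
        rw [← h] at h9
        -- share c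
        have : col c b a := share h5 (col_12 h6') (col_12 h9)
        exact hn (col_12 (col_23 (col_12 this)))
      have fe' : f ≠ e := by
        intro h
        rw [← h] at h3
        have : col b a c := share h4 (col_12 h3) h6'
        exact hn (col_12 this)
      have ge' : g ≠ e := by
        intro h
        rw [← h] at h3
        have : col a b c := share h7 h3 h9
        exact hn this
      rw [card_insert_of_notMem, card_insert_of_notMem, card_insert_of_notMem, card_insert_of_notMem,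
        card_insert_of_notMem, card_singleton]
      · simpa using ge'
      · simp only [mem_insert, mem_singleton, not_or]
        exact ⟨fg, fe'⟩
      · simp only [mem_insert, mem_singleton, not_or]
        exact ⟨h5.symm, h8'.symm, ce⟩
      · simp only [mem_insert, mem_singleton, not_or]
        exact ⟨n2, h4.symm, bg, h2.symm⟩
      · simp only [mem_insert, mem_singleton, not_or]
        exact ⟨n1, n3, af, h7.symm, h1.symm⟩
  refine ⟨W, hWR.trans hR, ?_, ?_, ?_, hnotri, ?_⟩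
  · have h1 : ∑ x ∈ R, f x ≤ ∑ x ∈ W, f x + ∑ x ∈ b3 ∪ (b4 ∪ bT), f x := by
      have h2 : R ⊆ W ∪ (b3 ∪ (b4 ∪ bT)) := by
        intro x hx
        rw [mem_union]
        by_cases hx2 : x ∈ b3 ∪ (b4 ∪ bT)
        · exact Or.inr hx2
        · exact Or.inl (mem_sdiff.2 ⟨hx, hx2⟩)
      calc ∑ x ∈ R, f x ≤ ∑ x ∈ W ∪ (b3 ∪ (b4 ∪ bT)), f x :=
            sum_le_sum_of_subset_of_nonneg h2 (fun x _ _ => hf x)
        _ ≤ _ := by
            have := sum_union_inter (s₁ := W) (s₂ := b3 ∪ (b4 ∪ bT)) (f := f)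
            have h3 : 0 ≤ ∑ x ∈ W ∩ (b3 ∪ (b4 ∪ bT)), f x := sum_nonneg (fun x _ => hf x)
            linarith
    have h2 : ∑ x ∈ b3 ∪ (b4 ∪ bT), f x ≤ ∑ x ∈ b3, f x + (∑ x ∈ b4, f x + ∑ x ∈ bT, f x) := by
      have e1 := sum_union_inter (s₁ := b3) (s₂ := b4 ∪ bT) (f := f)
      have e2 := sum_union_inter (s₁ := b4) (s₂ := bT) (f := f)
      have e3 : 0 ≤ ∑ x ∈ b3 ∩ (b4 ∪ bT), f x := sum_nonneg (fun x _ => hf x)
      have e4 : 0 ≤ ∑ x ∈ b4 ∩ bT, f x := sum_nonneg (fun x _ => hf x)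
      linarith
    linarith
  · intro z hz
    have h1 := (hWn z hz).2.2
    rw [hbT, mem_filter, not_and, not_not] at h1
    have h2 := h1 (hWR hz)
    have h3 : (od W rk z : ℝ) ≤ od R rk z := by exact_mod_cast od_mono hWR rk z
    linarith
  · intro L hL
    by_contra hcon
    push Not at hcon
    obtain ⟨T, hT1, hT2⟩ := exists_subset_card_eq hcon
    apply hXL T
    · unfold LK
      rw [mem_biUnion]
      refine ⟨L, hL, mem_powersetCard.2 ⟨?_, hT2⟩⟩
      intro x hx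
      have := hT1 hx
      unfold pl at this ⊢
      rw [mem_filter] at this ⊢
      exact ⟨hR (hWR this.1), this.2⟩
    · intro x hx
      have := hT1 hx
      unfold pl at this
      exact hWR (mem_filter.1 this).1
  · intro a ha b hb c hc d hd e he f hf g hg h hh m1 m2 m3 m4 ea eb hce fb fc hcf gc gd hcg hd' ha' hch
    obtain ⟨nab, nbc, nac⟩ := ne_of_ncol m1
    obtain ⟨-, ncd, nbd⟩ := ne_of_ncol m2
    obtain ⟨-, nda, -⟩ := ne_of_ncol m3
    have ce : c ≠ e := fun h => m1 (by rw [h]; exact hce)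
    have de : d ≠ e := fun h => m4 (by rw [h]; exact col_12 (col_23 hce))
    have af : a ≠ f := fun h => m1 (by rw [h]; exact col_12 (col_23 (by exact hcf)))
    have df : d ≠ f := fun h => m2 (by rw [h]; exact hcf)
    have ag : a ≠ g := fun h => m3 (by rw [h]; exact hcg)
    have bg : b ≠ g := fun h => m2 (by rw [h]; exact col_12 (col_23 hcg))
    have bh : b ≠ h := fun h' => m4 (by rw [h']; exact hch)
    have ch : c ≠ h := fun h' => m3 (by rw [h']; exact col_12 (col_23 hch))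
    have ef : e ≠ f := by
      intro h'
      rw [← h'] at hcf
      exact m1 (col_12 (share eb (col_12 hce) hcf))
    have fg : f ≠ g := by
      intro h'
      rw [← h'] at hcg
      exact m2 (col_12 (share fc (col_12 hcf) hcg))
    have gh : g ≠ h := by
      intro h'
      rw [← h'] at hch
      exact m3 (col_12 (share gd (col_12 hcg) hch))
    have he' : h ≠ e := by
      intro h'
      rw [← h'] at hce
      exact m4 (col_12 (share ha' (col_12 hch) hce))
    have eg : e ≠ g := by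
      intro h'
      rw [← h'] at hcg
      -- triangle e b c
      refine hnotri e he b hb c hc a ha f hf d hd ?_ ea.symm nab (col_12 (col_23 (col_12 hce))) fb fc hcf de ncd.symm
        (col_12 (col_23 hcg))
      intro hc'
      exact m1 (col_12 (col_trans eb.symm (col_23 (col_12 hce)) (col_12 hc')))
    have fh : f ≠ h := by
      intro h'
      rw [← h'] at hch
      refine hnotri f hf c hc d hd b hb g hg a ha ?_ fb.symm nbc (col_12 (col_23 (col_12 hcf))) gc gd hcg af nda.symm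
        (col_12 (col_23 hch))
      intro hc'
      exact m2 (col_12 (col_trans fc.symm (col_23 (col_12 hcf)) (col_12 hc')))
    apply (hWn a ha).2.1
    rw [hb4, mem_image]
    refine ⟨((a, b, c, d), (e, f, g, h)), ?_, rfl⟩
    have hsub : st8 ((a, b, c, d), (e, f, g, h)) ⊆ R := by
      unfold st8
      intro p hp
      simp only [mem_insert, mem_singleton] at hp
      rcases hp with rfl | rfl | rfl | rfl | rfl | rfl | rfl | rfl <;> apply hWR <;> assumption
    unfold R8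
    rw [mem_filter, mem_filter]
    refine ⟨⟨?_, ?_, hsub.trans hR⟩, hsub⟩
    · unfold S8
      rw [mem_biUnion]
      refine ⟨(a, b, c, d), mem_N4.2 ⟨⟨hR (hWR ha), hR (hWR hb), hR (hWR hc), hR (hWR hd)⟩, m1, m2, m3, m4⟩, ?_⟩
      rw [mem_product, mem_product, mem_product, mem_product, mem_singleton]
      refine ⟨rfl, ?_, ?_, ?_, ?_⟩
      · exact mem_third.2 ⟨hR (hWR he), nab, ea, eb, hce⟩
      · exact mem_third.2 ⟨hR (hWR hf), nbc, fb, fc, hcf⟩
      · exact mem_third.2 ⟨hR (hWR hg), ncd, gc, gd, hcg⟩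
      · exact mem_third.2 ⟨hR (hWR hh), nda, hd', ha', hch⟩
    · unfold st8
      simp only
      rw [card_insert_of_notMem, card_insert_of_notMem, card_insert_of_notMem, card_insert_of_notMem,
        card_insert_of_notMem, card_insert_of_notMem, card_insert_of_notMem, card_singleton]
      · simpa using gh
      · simp only [mem_insert, mem_singleton, not_or]
        exact ⟨fg, fh⟩
      · simp only [mem_insert, mem_singleton, not_or]
        exact ⟨ef, eg, he'.symm⟩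
      · simp only [mem_insert, mem_singleton, not_or]
        exact ⟨de, df, gd.symm, hd'.symm⟩
      · simp only [mem_insert, mem_singleton, not_or]
        exact ⟨ncd, ce, fc.symm, gc.symm, ch⟩
      · simp only [mem_insert, mem_singleton, not_or]
        exact ⟨nbc, nbd, eb.symm, fb.symm, bg, bh⟩
      · simp only [mem_insert, mem_singleton, not_or]
        exact ⟨nab, nac, nda.symm, ea.symm, af, ag, ha'.symm⟩

end Pool.Agent.W284.PW
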