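import Pool.Agent.W982.TA.Stm

set_option autoImplicit false

namespace Pool.Agent.W982.TA

/-- barycentric coordinates -/
structure G7Bar (a b c : ℝ × ℝ) (α β γ : ℝ × ℝ → ℝ) : Prop where
  sum : ∀ p, α p + β p + γ p = 1
  rec' : ∀ p, p = α p • a + β p • b + γ p • c
  aα : ∀ (p q : ℝ × ℝ) (x y : ℝ), x + y = 1 → α (x • p + y • q) = x * α p + y * α q
  aβ : ∀ (p q : ℝ × ℝ) (x y : ℝ), x + y = 1 → β (x • p + y • q) = x * β p + y * β q
  αa : α a = 1
  βa : β a = 0
  αb : α b = 0
  βb : β b = 1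
  αc : α c = 0
  βc : β c = 0

lemma G7Bar.swap {a b c : ℝ × ℝ} {α β γ : ℝ × ℝ → ℝ} (h : G7Bar a b c α β γ) :
    G7Bar b a c β α γ where
  sum p := by rw [← h.sum p]; ring
  rec' p := by rw [add_comm (β p • b)]; exact h.rec' p
  aα := h.aβ
  aβ := h.aα
  αa := h.βb
  βa := h.αb
  αb := h.βa
  βb := h.αa
  αc := h.βc
  βc := h.αc

lemma g7_pos {t A B As Bs : ℝ} (ht0 : 0 < t) (ht1 : t < 1) (hBs : 0 ≤ Bs)
    (hs : 0 < t * As - (1 - t) * Bs) (h1 : 0 ≤ t * A - (1 - t) * B)
    (h3 : 0 < B * As - A * Bs) : 0 < A ∧ 0 < B := by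
  have hB : 0 < B := by
    have h : 0 < B * (t * As - (1 - t) * Bs) := by
      have e : B * (t * As - (1 - t) * Bs) =
          t * (B * As - A * Bs) + Bs * (t * A - (1 - t) * B) := by ring
      rw [e]
      have h2 := mul_pos ht0 h3
      have h4 := mul_nonneg hBs h1
      linarith
    exact pos_of_mul_pos_left h hs.le
  refine ⟨?_, hB⟩
  have h5 : 0 < (1 - t) * B := mul_pos (by linarith) hB
  have h6 : 0 < t * A := by linarith
  exact pos_of_mul_pos_right h6 ht0.le

/-- choice of the parameter -/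
lemma g7_param {P Q p q : ℝ} (hP : 0 < P) (hQ : 0 < Q) (h : p < 0 ∨ q < 0) :
    ∃ l : ℝ, 0 < l ∧ l < 1 ∧
      ((1 - l) * P + l * p = 0 ∧ 0 ≤ (1 - l) * Q + l * q ∨
        (1 - l) * Q + l * q = 0 ∧ 0 ≤ (1 - l) * P + l * p) := by
  rcases le_or_gt (p * Q) (q * P) with hc | hc
  · have hp : p < 0 := by
      rcases h with h | h
      · exact h
      · have : q * P < 0 := mul_neg_of_neg_of_pos h hP
        by_contra hn
        have : 0 ≤ p * Q := mul_nonneg (not_lt.1 hn) hQ.le
        linarith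
    have hd : 0 < P - p := by linarith
    refine ⟨P / (P - p), div_pos hP hd, (div_lt_one hd).2 (by linarith), Or.inl ⟨?_, ?_⟩⟩
    · field_simp
      ring
    · have e : (1 - P / (P - p)) * Q + P / (P - p) * q = (q * P - p * Q) / (P - p) := by
        field_simp
        ring
      rw [e]
      exact div_nonneg (by linarith) hd.le
  · have hq : q < 0 := by
      rcases h with h | h
      · have : p * Q < 0 := mul_neg_of_neg_of_pos h hQ
        by_contra hn
        have : 0 ≤ q * P := mul_nonneg (not_lt.1 hn) hP.le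
        linarith
      · exact h
    have hd : 0 < Q - q := by linarith
    refine ⟨Q / (Q - q), div_pos hQ hd, (div_lt_one hd).2 (by linarith), Or.inr ⟨?_, ?_⟩⟩
    · field_simp
      ring
    · have e : (1 - Q / (Q - q)) * P + Q / (Q - q) * p = (p * Q - q * P) / (Q - q) := by
        field_simp
        ring
      rw [e]
      exact div_nonneg (by linarith) hd.le

lemma g7_mem_ab {a b c : ℝ × ℝ} {α β γ : ℝ × ℝ → ℝ} (hB : G7Bar a b c α β γ) {p : ℝ × ℝ}
    (hα : 0 < α p) (hβ : 0 < β p) (hγ : γ p = 0) : p ∈ openSegment ℝ a b := by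
  have h := hB.sum p
  refine ⟨α p, β p, hα, hβ, by linarith, ?_⟩
  have h2 := hB.rec' p
  rw [hγ, zero_smul, add_zero] at h2
  exact h2.symm

lemma g7_key {S : Finset Pt} {T : Set (Sym2 Pt)} (hT : IsTriangulation S T) {a b c w : Pt}
    {α β γ : ℝ × ℝ → ℝ} (hB : G7Bar (emb a) (emb b) (emb c) α β γ)
    (hab : s(a, b) ∈ T) {z : ℝ × ℝ} {t : ℝ} (ht0 : 0 < t) (ht1 : t < 1)
    (hz : z = (1 - t) • emb a + t • emb b)
    (hsee : Sees S T z c)
    (hsβ : 0 ≤ β (emb w)) (hsγ : 0 < γ (emb w))
    (hside : (1 - t) * β (emb w) < t * α (emb w))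
    (hmin : ∀ r ∈ S, ¬ (0 ≤ t * α (emb r) - (1 - t) * β (emb r) ∧ 0 ≤ γ (emb r) ∧
      0 < β (emb r) * α (emb w) - α (emb r) * β (emb w))) :
    Sees S T z w := by
  have hγ : ∀ p, γ p = 1 - α p - β p := fun p => by linarith [hB.sum p]
  have haγ : ∀ (p q : ℝ × ℝ) (x y : ℝ), x + y = 1 → γ (x • p + y • q) = x * γ p + y * γ q := by
    intro p q x y h
    rw [hγ, hγ, hγ, hB.aα p q x y h, hB.aβ p q x y h]
    linear_combination (-1 : ℝ) * h
  have hαz : α z = 1 - t := by
    rw [hz, hB.aα _ _ _ _ (by ring), hB.αa, hB.αb]; ring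
  have hβz : β z = t := by
    rw [hz, hB.aβ _ _ _ _ (by ring), hB.βa, hB.βb]; ring
  have hγz : γ z = 0 := by rw [hγ, hαz, hβz]; ring
  have hs' : 0 < t * α (emb w) - (1 - t) * β (emb w) := by linarith
  -- positivity on the open segment `z w`
  have hy : ∀ y ∈ openSegment ℝ z (emb w), 0 < t * α y - (1 - t) * β y ∧ 0 < γ y ∧
      0 < β y * α (emb w) - α y * β (emb w) := by
    rintro y ⟨u, v, hu, hv, huv, rfl⟩
    rw [hB.aα _ _ _ _ huv, hB.aβ _ _ _ _ huv, haγ _ _ _ _ huv, hαz, hβz, hγz]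
    refine ⟨?_, ?_, ?_⟩
    · have e : t * (u * (1 - t) + v * α (emb w)) - (1 - t) * (u * t + v * β (emb w)) =
          v * (t * α (emb w) - (1 - t) * β (emb w)) := by ring
      rw [e]
      exact mul_pos hv hs'
    · have := mul_pos hv hsγ
      linarith
    · have e : (u * t + v * β (emb w)) * α (emb w) - (u * (1 - t) + v * α (emb w)) * β (emb w) =
          u * (t * α (emb w) - (1 - t) * β (emb w)) := by ring
      rw [e]
      exact mul_pos hu hs'
  have sub : ∀ g h : Pt, s(g, h) ∈ T → ∀ y ∈ openSegment ℝ z (emb w), y ∈ oseg g h →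
      0 < β (emb g) * α (emb w) - α (emb g) * β (emb w) → False := by
    intro g h hgh y hyz hygh hg3
    obtain ⟨hP, hQ, hR⟩ := hy y hyz
    have hgS : g ∈ S := (hT.seg g h hgh).1
    have hneg : t * α (emb g) - (1 - t) * β (emb g) < 0 ∨ γ (emb g) < 0 := by
      by_contra hn
      rw [not_or, not_lt, not_lt] at hn
      exact hmin g hgS ⟨hn.1, hn.2, hg3⟩
    obtain ⟨l, hl0, hl1, hl⟩ := g7_param hP hQ hneg
    set v : ℝ × ℝ := (1 - l) • y + l • emb g with hv
    have hvα : α v = (1 - l) * α y + l * α (emb g) := hB.aα _ _ _ _ (by ring)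
    have hvβ : β v = (1 - l) * β y + l * β (emb g) := hB.aβ _ _ _ _ (by ring)
    have hvγ : γ v = (1 - l) * γ y + l * γ (emb g) := haγ _ _ _ _ (by ring)
    have hvgh : v ∈ oseg g h := by
      obtain ⟨u', v', hu', hv', huv', hyy⟩ := hygh
      refine ⟨(1 - l) * u' + l, (1 - l) * v', ?_, ?_, ?_, ?_⟩
      · have := mul_pos (show (0 : ℝ) < 1 - l by linarith) hu'
        linarith
      · exact mul_pos (by linarith) hv'
      · linear_combination (1 - l) * huv'
      · rw [hv, ← hyy]
        module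
    have hv3 : 0 < β v * α (emb w) - α v * β (emb w) := by
      rw [hvα, hvβ]
      have e : ((1 - l) * β y + l * β (emb g)) * α (emb w) -
          ((1 - l) * α y + l * α (emb g)) * β (emb w) =
          (1 - l) * (β y * α (emb w) - α y * β (emb w)) +
          l * (β (emb g) * α (emb w) - α (emb g) * β (emb w)) := by ring
      rw [e]
      have h1 := mul_pos (show (0 : ℝ) < 1 - l by linarith) hR
      have h2 := mul_pos hl0 hg3
      linarith
    have hv1 : t * α v - (1 - t) * β v = (1 - l) * (t * α y - (1 - t) * β y) +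
        l * (t * α (emb g) - (1 - t) * β (emb g)) := by
      rw [hvα, hvβ]; ring
    have hab0 : ∀ x ∈ oseg a b, x ∈ oseg g h → False := by
      intro x hx1 hx2
      by_cases he : s(a, b) = s(g, h)
      · have hyab : y ∈ oseg a b := by
          rcases Sym2.eq_iff.1 he with ⟨h1, h2⟩ | ⟨h1, h2⟩
          · rw [h1, h2]; exact hygh
          · rw [h1, h2]
            unfold oseg
            rw [openSegment_symm]
            exact hygh
        obtain ⟨u', v', hu', hv', huv', hyy⟩ := hyab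
        have : γ y = 0 := by
          rw [← hyy, haγ _ _ _ _ huv', hγ (emb a), hγ (emb b), hB.αa, hB.βa, hB.αb, hB.βb]
          ring
        linarith
      · exact Set.disjoint_left.1 (hT.noncross a b g h hab hgh he) hx1 hx2
    rcases hl with ⟨hl1', hl2'⟩ | ⟨hl1', hl2'⟩
    · -- `v` is on the segment `z c`
      rw [← hv1] at hl1'
      rw [← hvγ] at hl2'
      obtain ⟨hA, hBp⟩ := g7_pos ht0 ht1 hsβ hs' hl1'.ge hv3
      have hk : α v = (1 - t) * (α v + β v) := by linear_combination hl1'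
      have hk' : β v = t * (α v + β v) := by linear_combination (-1 : ℝ) * hl1'
      have hkp : 0 < α v + β v := by linarith
      have hrec := hB.rec' v
      have hsum := hB.sum v
      have hvz : v = (α v + β v) • z + γ v • emb c := by
        rw [hz, smul_add, smul_smul, smul_smul]
        calc v = α v • emb a + β v • emb b + γ v • emb c := hrec
          _ = ((α v + β v) * (1 - t)) • emb a + ((α v + β v) * t) • emb b + γ v • emb c := by
            rw [mul_comm (α v + β v) (1 - t), ← hk, mul_comm (α v + β v) t, ← hk']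
      rcases hl2'.lt_or_eq with hlt | heq
      · exact Set.disjoint_left.1 (hsee.1 g h hgh)
          ⟨α v + β v, γ v, hkp, hlt, hsum, hvz.symm⟩ hvgh
      · have hvz' : v = z := by
          rw [hvz, ← heq, zero_smul, add_zero]
          have : α v + β v = 1 := by linarith
          rw [this, one_smul]
        have hzab : z ∈ oseg a b := ⟨1 - t, t, by linarith, ht0, by ring, hz.symm⟩
        rw [hvz'] at hvgh
        exact hab0 z hzab hvgh
    · rw [← hvγ] at hl1'
      rw [← hv1] at hl2'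
      obtain ⟨hA, hBp⟩ := g7_pos ht0 ht1 hsβ hs' hl2' hv3
      exact hab0 v (g7_mem_ab hB hA hBp hl1') hvgh
  refine ⟨?_, ?_⟩
  · intro g h hgh
    rw [Set.disjoint_left]
    intro y hyz hygh
    obtain ⟨u', v', hu', hv', huv', hyy⟩ := id hygh
    obtain ⟨-, -, hR⟩ := hy y hyz
    have e : β y * α (emb w) - α y * β (emb w) =
        u' * (β (emb g) * α (emb w) - α (emb g) * β (emb w)) +
        v' * (β (emb h) * α (emb w) - α (emb h) * β (emb w)) := by
      rw [← hyy, hB.aα _ _ _ _ huv', hB.aβ _ _ _ _ huv']; ring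
    by_cases hg : 0 < β (emb g) * α (emb w) - α (emb g) * β (emb w)
    · exact sub g h hgh y hyz hygh hg
    · by_cases hh : 0 < β (emb h) * α (emb w) - α (emb h) * β (emb w)
      · refine sub h g (by rw [Sym2.eq_swap]; exact hgh) y hyz ?_ hh
        unfold oseg
        rw [openSegment_symm]
        exact hygh
      · have h1 := mul_nonneg hu'.le (sub_nonneg.2 (not_lt.1 hg))
        have h2 := mul_nonneg hv'.le (sub_nonneg.2 (not_lt.1 hh))
        linarith
  · intro r hr hrz
    obtain ⟨h1, h2, h3⟩ := hy _ hrz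
    exact hmin r hr ⟨h1.le, h2.le, h3⟩

/-- the minimality of the angle gives the hypothesis of `g7_key` -/
lemma g7_side {S : Finset Pt} {T : Set (Sym2 Pt)} (hT : IsTriangulation S T) {a b c w : Pt}
    {α β γ : ℝ × ℝ → ℝ} (hB : G7Bar (emb a) (emb b) (emb c) α β γ)
    (hab : s(a, b) ∈ T) {z : ℝ × ℝ} {t : ℝ} (ht0 : 0 < t) (ht1 : t < 1)
    (hz : z = (1 - t) • emb a + t • emb b)
    (hsee : Sees S T z c)
    (hsα : 0 ≤ α (emb w)) (hsβ : 0 ≤ β (emb w)) (hsγ : 0 < γ (emb w))
    (hside : β (emb w) / (α (emb w) + β (emb w)) < t) (hpos : 0 < α (emb w) + β (emb w))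
    (hmin : ∀ r ∈ S, 0 ≤ α (emb r) → 0 ≤ β (emb r) → 0 < γ (emb r) →
      0 < α (emb r) + β (emb r) →
      |β (emb w) / (α (emb w) + β (emb w)) - t| ≤ |β (emb r) / (α (emb r) + β (emb r)) - t|) :
    Sees S T z w := by
  have hside' : (1 - t) * β (emb w) < t * α (emb w) := by
    rw [div_lt_iff₀ hpos] at hside
    linarith
  refine g7_key hT hB hab ht0 ht1 hz hsee hsβ hsγ hside' ?_
  rintro r hr ⟨h1, h2, h3⟩
  obtain ⟨hA, hBp⟩ := g7_pos ht0 ht1 hsβ (by linarith) h1 h3
  rcases h2.lt_or_eq with h2 | h2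
  · have hp : 0 < α (emb r) + β (emb r) := by linarith
    have h4 := hmin r hr hA.le hBp.le h2 hp
    have h5 : β (emb r) / (α (emb r) + β (emb r)) ≤ t := by
      rw [div_le_iff₀ hp]
      linarith
    rw [abs_of_nonpos (by linarith), abs_of_nonpos (by linarith)] at h4
    have h6 : β (emb r) / (α (emb r) + β (emb r)) ≤ β (emb w) / (α (emb w) + β (emb w)) := by
      linarith
    rw [div_le_div_iff₀ hp hpos] at h6
    linarith
  · exact (hT.seg a b hab).2.2.2 r hr (g7_mem_ab hB hA hBp h2.symm)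

theorem g7 : TaskG7 := by
  intro S T hT a b hab z hz c hc hd hsee hex
  have hD : (0 : ℝ) < (dt a b c : ℝ) := by exact_mod_cast hd
  have hD' : (0 : ℝ) < ((b.1 : ℝ) - a.1) * (c.2 - a.2) - (b.2 - a.2) * (c.1 - a.1) := by
    have : (dt a b c : ℝ) = ((b.1 : ℝ) - a.1) * (c.2 - a.2) - (b.2 - a.2) * (c.1 - a.1) := by
      unfold dt; push_cast; ring
    rw [← this]; exact hD
  set D : ℝ := ((b.1 : ℝ) - a.1) * (c.2 - a.2) - (b.2 - a.2) * (c.1 - a.1) with hDdef
  have hDne : D ≠ 0 := hD'.ne'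
  set α : ℝ × ℝ → ℝ := fun p =>
    (((c.1 : ℝ) - b.1) * (p.2 - b.2) - (c.2 - b.2) * (p.1 - b.1)) / D with hα
  set β : ℝ × ℝ → ℝ := fun p =>
    (((a.1 : ℝ) - c.1) * (p.2 - c.2) - (a.2 - c.2) * (p.1 - c.1)) / D with hβ
  set γ : ℝ × ℝ → ℝ := fun p =>
    (((b.1 : ℝ) - a.1) * (p.2 - a.2) - (b.2 - a.2) * (p.1 - a.1)) / D with hγ
  have hB : G7Bar (emb a) (emb b) (emb c) α β γ := by
    constructor
    · intro p
      simp only [hα, hβ, hγ]
      rw [← add_div, ← add_div, div_eq_one_iff_eq hDne, hDdef]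
      ring
    · intro p
      simp only [hα, hβ, hγ, emb]
      ext
      · simp only [Prod.fst_add, Prod.smul_fst, smul_eq_mul]
        field_simp
        rw [hDdef]
        ring
      · simp only [Prod.snd_add, Prod.smul_snd, smul_eq_mul]
        field_simp
        rw [hDdef]
        ring
    · intro p q x y hxy
      simp only [hα, Prod.fst_add, Prod.smul_fst, smul_eq_mul, Prod.snd_add, Prod.smul_snd]
      have hy : y = 1 - x := by linarith
      rw [hy]
      field_simp
      ring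
    · intro p q x y hxy
      simp only [hβ, Prod.fst_add, Prod.smul_fst, smul_eq_mul, Prod.snd_add, Prod.smul_snd]
      have hy : y = 1 - x := by linarith
      rw [hy]
      field_simp
      ring
    · simp only [hα, emb]
      rw [div_eq_one_iff_eq hDne, hDdef]; ring
    · simp only [hβ, emb]
      rw [div_eq_zero_iff]; left; ring
    · simp only [hα, emb]
      rw [div_eq_zero_iff]; left; ring
    · simp only [hβ, emb]
      rw [div_eq_one_iff_eq hDne, hDdef]; ring
    · simp only [hα, emb]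
      rw [div_eq_zero_iff]; left; ring
    · simp only [hβ, emb]
      rw [div_eq_zero_iff]; left; ring
  have eα : ∀ r : Pt, α (emb r) = (dt b c r : ℝ) / D := by
    intro r; simp only [hα, emb, dt]; push_cast; ring
  have eβ : ∀ r : Pt, β (emb r) = (dt c a r : ℝ) / D := by
    intro r; simp only [hβ, emb, dt]; push_cast; ring
  have eγ : ∀ r : Pt, γ (emb r) = (dt a b r : ℝ) / D := by
    intro r; simp only [hγ, emb, dt]; push_cast; ring
  have nα : ∀ r : Pt, 0 ≤ α (emb r) ↔ 0 ≤ dt b c r := by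
    intro r; rw [eα, le_div_iff₀ hD', zero_mul]; exact_mod_cast Iff.rfl
  have nβ : ∀ r : Pt, 0 ≤ β (emb r) ↔ 0 ≤ dt c a r := by
    intro r; rw [eβ, le_div_iff₀ hD', zero_mul]; exact_mod_cast Iff.rfl
  have nγ : ∀ r : Pt, 0 < γ (emb r) ↔ 0 < dt a b r := by
    intro r; rw [eγ, lt_div_iff₀ hD', zero_mul]; exact_mod_cast Iff.rfl
  have nγ0 : ∀ r : Pt, 0 ≤ γ (emb r) ↔ 0 ≤ dt a b r := by
    intro r; rw [eγ, le_div_iff₀ hD', zero_mul]; exact_mod_cast Iff.rfl
  obtain ⟨u, t, hu, ht, hut, hzz⟩ := hz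
  have hu' : u = 1 - t := by linarith
  have ht1 : t < 1 := by linarith
  rw [hu'] at hzz
  have embinj : ∀ p q : Pt, emb p = emb q → p = q := by
    intro p q h
    unfold emb at h
    rw [Prod.mk.injEq] at h
    exact Prod.ext (by exact_mod_cast h.1) (by exact_mod_cast h.2)
  have hseg := hT.seg a b hab
  -- candidates
  classical
  set Q : Finset Pt := S.filter fun r =>
    0 ≤ dt b c r ∧ 0 ≤ dt c a r ∧ 0 < dt a b r ∧ r ≠ c with hQ
  have hposne : ∀ r : Pt, 0 ≤ α (emb r) → 0 ≤ β (emb r) → r ≠ c →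
      0 < α (emb r) + β (emb r) := by
    intro r h1 h2 h3
    rcases (add_nonneg h1 h2).lt_or_eq with h | h
    · exact h
    · exfalso
      have h4 : α (emb r) = 0 := by linarith
      have h5 : β (emb r) = 0 := by linarith
      have h6 : γ (emb r) = 1 := by linarith [hB.sum (emb r)]
      have h7 := hB.rec' (emb r)
      rw [h4, h5, h6, zero_smul, zero_smul, one_smul, zero_add, zero_add] at h7
      exact h3 (embinj _ _ h7)
  have hQne : Q.Nonempty := by
    obtain ⟨r, hr, ⟨h1, h2, h3⟩, hra, hrb, hrc⟩ := hex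
    refine ⟨r, ?_⟩
    rw [hQ, Finset.mem_filter]
    refine ⟨hr, h2, h3, ?_, hrc⟩
    rcases h1.lt_or_eq with h | h
    · exact h
    · exfalso
      have hγ0 : γ (emb r) = 0 := by
        rw [eγ, ← h]; simp
      have hα0 := (nα r).2 h2
      have hβ0 := (nβ r).2 h3
      have hsum := hB.sum (emb r)
      have hrec := hB.rec' (emb r)
      rcases hα0.lt_or_eq with hα1 | hα1
      · rcases hβ0.lt_or_eq with hβ1 | hβ1
        · exact hseg.2.2.2 r hr (g7_mem_ab hB hα1 hβ1 hγ0)
        · have : α (emb r) = 1 := by linarith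
          rw [this, ← hβ1, hγ0, one_smul, zero_smul, zero_smul, add_zero, add_zero] at hrec
          exact hra (embinj _ _ hrec)
      · have : β (emb r) = 1 := by linarith
        rw [this, ← hα1, hγ0, one_smul, zero_smul, zero_smul, zero_add, add_zero] at hrec
        exact hrb (embinj _ _ hrec)
  obtain ⟨w, hwQ, hw⟩ := Finset.exists_min_image Q
    (fun r => |β (emb r) / (α (emb r) + β (emb r)) - t|) hQne
  rw [hQ, Finset.mem_filter] at hwQ
  obtain ⟨hwS, hw1, hw2, hw3, hwc⟩ := hwQ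
  have wα := (nα w).2 hw1
  have wβ := (nβ w).2 hw2
  have wγ := (nγ w).2 hw3
  have wpos := hposne w wα wβ hwc
  have hmin : ∀ r ∈ S, 0 ≤ α (emb r) → 0 ≤ β (emb r) → 0 < γ (emb r) →
      0 < α (emb r) + β (emb r) →
      |β (emb w) / (α (emb w) + β (emb w)) - t| ≤ |β (emb r) / (α (emb r) + β (emb r)) - t| := by
    intro r hr h1 h2 h3 h4
    apply hw r
    rw [hQ, Finset.mem_filter]
    refine ⟨hr, (nα r).1 h1, (nβ r).1 h2, (nγ r).1 h3, ?_⟩
    rintro rfl
    rw [hB.αc, hB.βc] at h4
    linarith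
  refine ⟨w, hwS, ⟨hw3.le, hw1, hw2⟩, hwc, hw3, ?_⟩
  rcases lt_trichotomy (β (emb w) / (α (emb w) + β (emb w))) t with hlt | heq | hgt
  · exact g7_side hT hB hab ht ht1 hzz.symm hsee wα wβ wγ hlt wpos hmin
  · exfalso
    rw [div_eq_iff wpos.ne'] at heq
    apply hsee.2 w hwS
    refine ⟨α (emb w) + β (emb w), γ (emb w), wpos, wγ, hB.sum _, ?_⟩
    rw [← hzz, smul_add, smul_smul, smul_smul]
    conv_rhs => rw [hB.rec' (emb w)]
    have h1 : (α (emb w) + β (emb w)) * (1 - t) = α (emb w) := by linear_combination heq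
    have h2 : (α (emb w) + β (emb w)) * t = β (emb w) := by rw [mul_comm]; exact heq.symm
    rw [h1, h2]
  · have key : ∀ r : Pt, 0 < α (emb r) + β (emb r) →
        |α (emb r) / (β (emb r) + α (emb r)) - (1 - t)| =
          |β (emb r) / (α (emb r) + β (emb r)) - t| := by
      intro r hr
      have : α (emb r) / (β (emb r) + α (emb r)) - (1 - t) =
          -(β (emb r) / (α (emb r) + β (emb r)) - t) := by
        rw [add_comm (β (emb r)) (α (emb r))]
        field_simp
        ring
      rw [this, abs_neg]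
    refine g7_side hT hB.swap (a := b) (b := a) (by rw [Sym2.eq_swap]; exact hab)
      (t := 1 - t) (by linarith) (by linarith) ?_ hsee wβ wα wγ ?_ (by linarith) ?_
    · rw [← hzz, sub_sub_cancel, add_comm]
    · rw [add_comm (β (emb w)) (α (emb w)), div_lt_iff₀ wpos]
      rw [lt_div_iff₀ wpos] at hgt
      linarith
    · intro r hr h1 h2 h3 h4
      rw [key r (by linarith), key w wpos]
      exact hmin r hr h2 h1 h3 (by linarith)

end Pool.Agent.W982.TA
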